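import Pool.Agent.Helper36.BCH.Basic

/-!
# Balanced sets and codewords of small weight
-/

namespace Pool.Agent.Helper36.BCH

open Polynomial

variable {K L : Type} [Field K] [Field L] [Algebra K L]

/-- `S` is balanced: the products `∏_{t ∈ S, t ≠ s} (s - t)` lie in one coset of `K ^ *`. -/
def Balanced (K : Type) {L : Type} [Field K] [Field L] [Algebra K L] [DecidableEq L]
    (S : Finset L) : Prop :=
  ∃ lam : L, lam ≠ 0 ∧ ∀ s ∈ S, ∃ k : K, k ≠ 0 ∧
    ∏ t ∈ S.erase s, (s - t) = lam * algebraMap K L k

theorem Balanced.minDist_lt [Finite L] [DecidableEq L] {α : L} (hα : IsPrimitiveElement α)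
    {δ d : ℕ} (hd : IsMinDist K α δ d) {S : Finset L} (hS : Balanced K S)
    (hδ : δ + 1 ≤ S.card) (h2 : 2 ≤ S.card) : d + 1 ≤ S.card := by
  obtain ⟨lam, hlam, hk⟩ := hS
  obtain ⟨s0, hs0⟩ : S.Nonempty := Finset.card_pos.1 (by omega)
  choose! k hk0 hk1 using hk
  have hinj : Function.Injective (fun t : L => t - s0) := fun a b h => by simpa using h
  have hcard : ((S.erase s0).image (fun t => t - s0)).card = S.card - 1 := by
    rw [Finset.card_image_of_injective _ hinj, Finset.card_erase_of_mem hs0]
  have hmain := minDist_le hα hd ((S.erase s0).image (fun t => t - s0))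
    (Finset.card_pos.1 (by rw [hcard]; omega))
    (by
      rw [Finset.mem_image]
      rintro ⟨t, ht, ht2⟩
      exact (Finset.mem_erase.1 ht).1 (sub_eq_zero.1 ht2))
    (fun x => (k (x + s0))⁻¹)
    (by
      intro x hx
      obtain ⟨t, ht, rfl⟩ := Finset.mem_image.1 hx
      have := hk0 t (Finset.mem_of_mem_erase ht)
      simpa using this)
    (by
      intro j h1 h2
      rw [Finset.sum_image (fun a _ b _ h => hinj h)]
      simp only [sub_add_cancel]
      have hP : ((X - C s0) ^ j : L[X]).degree < S.card := by
        rw [degree_pow, degree_X_sub_C, nsmul_one]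
        exact_mod_cast (by omega : j < S.card)
      have hlag := Lagrange.coeff_eq_sum (s := S) (v := id) (Set.injOn_id _) hP
      have hcoef : ((X - C s0) ^ j : L[X]).coeff (S.card - 1) = 0 := by
        apply coeff_eq_zero_of_natDegree_lt
        rw [natDegree_pow, natDegree_X_sub_C, mul_one]
        omega
      rw [hcoef] at hlag
      rw [← Finset.add_sum_erase _ _ hs0] at hlag
      simp only [id_eq, eval_pow, eval_sub, eval_X, eval_C, sub_self,
        zero_pow (by omega : j ≠ 0), zero_div, zero_add] at hlag
      have h3 : ∑ x ∈ S.erase s0, algebraMap K L (k x)⁻¹ * (x - s0) ^ j =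
          lam * ∑ x ∈ S.erase s0, (x - s0) ^ j / ∏ t ∈ S.erase x, (x - t) := by
        rw [Finset.mul_sum]
        refine Finset.sum_congr rfl fun x hx => ?_
        have hx' := Finset.mem_of_mem_erase hx
        have hne : algebraMap K L (k x) ≠ 0 := by
          rw [Ne, map_eq_zero]
          exact hk0 x hx'
        rw [hk1 x hx', map_inv₀]
        field_simp
      rw [h3, ← hlag, mul_zero])
  rw [hcard] at hmain
  omega

/-- A balanced set with `δ + 1` elements shows that the minimum distance is `δ`. -/
theorem Balanced.isMinDist [Finite L] [DecidableEq L] {α : L} (hα : IsPrimitiveElement α)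
    {S : Finset L} (hS : Balanced K S) {δ : ℕ} (hδ : 1 ≤ δ) (hcard : S.card = δ + 1) :
    IsMinDist K α δ δ := by
  have hle : S.card ≤ Nat.card L := by
    classical
    have : Fintype L := Fintype.ofFinite L
    rw [Nat.card_eq_fintype_card]
    exact Finset.card_le_univ S
  obtain ⟨d, hd⟩ := exists_minDist (K := K) hα (δ := δ) (by omega)
  have h1 := hS.minDist_lt hα hd (by omega) (by omega)
  have h2 := le_minDist hα hd
  have h3 : d = δ := by omega
  rwa [h3] at hd

theorem balanced_image_algebraMap [DecidableEq K] [DecidableEq L] (A : Finset K) :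
    Balanced K (A.image (algebraMap K L)) := by
  refine ⟨1, one_ne_zero, ?_⟩
  intro s hs
  obtain ⟨a, ha, rfl⟩ := Finset.mem_image.1 hs
  refine ⟨∏ b ∈ A.erase a, (a - b), ?_, ?_⟩
  · rw [Finset.prod_ne_zero_iff]
    intro b hb
    rw [sub_ne_zero]
    exact (Finset.mem_erase.1 hb).1.symm
  · rw [one_mul, map_prod, ← Finset.image_erase (algebraMap K L).injective,
      Finset.prod_image (fun x _ y _ h => (algebraMap K L).injective h)]
    refine Finset.prod_congr rfl fun b _ => ?_
    rw [map_sub]

end Pool.Agent.Helper36.BCH
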