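import Pool.Agent.Helper36.BCH.Balanced

/-!
# Polynomials vanishing on additive subgroups of a finite field
-/

set_option linter.unusedSectionVars false

namespace Pool.Agent.Helper36.BCH

open Polynomial

variable {L : Type} [Field L] [Fintype L] [DecidableEq L]

/-- The monic polynomial with simple zeros at the elements of the finset `V`. -/
noncomputable def ann (V : Finset L) : L[X] := ∏ v ∈ V, (X - C v)

/-- `V` is an additive subgroup. -/
def IsSub (V : Finset L) : Prop := (0 : L) ∈ V ∧ ∀ a ∈ V, ∀ b ∈ V, a - b ∈ V

theorem IsSub.neg {V : Finset L} (hV : IsSub V) {a : L} (ha : a ∈ V) : -a ∈ V := by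
  have := hV.2 0 hV.1 a ha
  rwa [zero_sub] at this

theorem IsSub.add {V : Finset L} (hV : IsSub V) {a b : L} (ha : a ∈ V) (hb : b ∈ V) :
    a + b ∈ V := by
  have := hV.2 a ha _ (hV.neg hb)
  rwa [sub_neg_eq_add] at this

theorem ann_monic (V : Finset L) : (ann V).Monic := monic_prod_of_monic _ _ fun _ _ => monic_X_sub_C _

theorem ann_natDegree (V : Finset L) : (ann V).natDegree = V.card := by
  rw [ann, natDegree_prod_of_monic _ _ fun _ _ => monic_X_sub_C _]
  simp

theorem ann_degree (V : Finset L) : (ann V).degree = V.card := by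
  rw [degree_eq_natDegree (ann_monic V).ne_zero, ann_natDegree]

theorem eval_ann (V : Finset L) (t : L) : (ann V).eval t = ∏ v ∈ V, (t - v) := by
  rw [ann, eval_prod]
  simp

theorem eval_ann_eq_zero_iff (V : Finset L) (t : L) : (ann V).eval t = 0 ↔ t ∈ V := by
  rw [eval_ann, Finset.prod_eq_zero_iff]
  constructor
  · rintro ⟨v, hv, h⟩
    rwa [sub_eq_zero.1 h]
  · intro h
    exact ⟨t, h, sub_self t⟩

theorem IsSub.map_add {V : Finset L} (hV : IsSub V) {v : L} (hv : v ∈ V) (t : L) :
    (ann V).eval (t + v) = (ann V).eval t := by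
  rw [eval_ann, eval_ann]
  refine Finset.prod_bij' (fun x _ => x - v) (fun x _ => x + v) ?_ ?_ ?_ ?_ ?_
  · intro x hx
    exact hV.2 x hx v hv
  · intro x hx
    exact hV.add hx hv
  · intro x _
    ring
  · intro x _
    ring
  · intro x _
    ring

/-- Additivity, one argument a constant. -/
theorem IsSub.comp_X_add_C {V : Finset L} (hV : IsSub V) (t : L) :
    (ann V).comp (X + C t) = ann V + C ((ann V).eval t) := by
  have h1 : (ann V).comp (X + C t) - (ann V + C ((ann V).eval t)) = 0 := by
    refine eq_zero_of_degree_lt_of_eval_index_eq_zero (s := V) (v := id)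
      (Set.injOn_id _) ?_ ?_
    · have hcm : ((ann V).comp (X + C t)).Monic := (ann_monic V).comp (monic_X_add_C t)
        (by rw [natDegree_X_add_C]; exact one_ne_zero)
      have hcd : ((ann V).comp (X + C t)).degree = V.card := by
        rw [degree_eq_natDegree hcm.ne_zero, natDegree_comp, natDegree_X_add_C, mul_one,
          ann_natDegree]
      rw [← sub_sub]
      have hlt : ((ann V).comp (X + C t) - ann V).degree < (V.card : WithBot ℕ) := by
        rw [← hcd]
        refine degree_sub_lt_left ?_ hcm.ne_zero ?_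
        · rw [hcd, ann_degree]
        · rw [hcm.leadingCoeff, (ann_monic V).leadingCoeff]
      refine (degree_sub_le _ _).trans_lt (max_lt hlt ?_)
      refine degree_C_le.trans_lt ?_
      have : 0 < V.card := Finset.card_pos.2 ⟨0, hV.1⟩
      exact_mod_cast this
    · intro v hv
      have h0 : (ann V).eval v = 0 := (eval_ann_eq_zero_iff V v).2 hv
      simp only [id_eq, eval_sub, eval_add, eval_comp, eval_X, eval_C]
      rw [h0, add_comm v t, hV.map_add hv t]
      ring
  exact sub_eq_zero.1 h1

/-- Additivity on `L`. -/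
theorem IsSub.eval_add {V : Finset L} (hV : IsSub V) (s t : L) :
    (ann V).eval (s + t) = (ann V).eval s + (ann V).eval t := by
  have h := congrArg (fun f => eval s f) (hV.comp_X_add_C t)
  simpa only [eval_comp, Polynomial.eval_add, eval_X, eval_C] using h

theorem IsSub.eval_zero {V : Finset L} (hV : IsSub V) : (ann V).eval 0 = 0 :=
  (eval_ann_eq_zero_iff V 0).2 hV.1

theorem IsSub.eval_sub {V : Finset L} (hV : IsSub V) (s t : L) :
    (ann V).eval (s - t) = (ann V).eval s - (ann V).eval t := by
  have h := hV.eval_add (s - t) t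
  rw [sub_add_cancel] at h
  rw [h]
  ring

/-- Additivity for polynomial arguments. -/
theorem IsSub.comp_add {V : Finset L} (hV : IsSub V) (A B : L[X]) :
    (ann V).comp (A + B) = (ann V).comp A + (ann V).comp B := by
  -- work in `L[X][Y]`
  set f : L[X][X] := (ann V).map C with hf
  set G : L[X][X] := f.comp (X + C A) - C ((ann V).comp A) - f with hG
  have hfm : f.Monic := (ann_monic V).map C
  have hfn : f.natDegree = V.card := by
    rw [hf, (ann_monic V).natDegree_map, ann_natDegree]
  have hcm : (f.comp (X + C A)).Monic := hfm.comp (monic_X_add_C A)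
    (by rw [natDegree_X_add_C]; exact one_ne_zero)
  have hcd : (f.comp (X + C A)).degree = V.card := by
    rw [degree_eq_natDegree hcm.ne_zero, natDegree_comp, natDegree_X_add_C, mul_one, hfn]
  have hdeg : G.degree < V.card := by
    have h1 : G = (f.comp (X + C A) - f) - C ((ann V).comp A) := by
      rw [hG]
      ring
    rw [h1]
    have hlt : (f.comp (X + C A) - f).degree < (V.card : WithBot ℕ) := by
      rw [← hcd]
      refine degree_sub_lt_left ?_ hcm.ne_zero ?_
      · rw [hcd, degree_eq_natDegree hfm.ne_zero, hfn]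
      · rw [hcm.leadingCoeff, hfm.leadingCoeff]
    refine (degree_sub_le _ _).trans_lt (max_lt hlt ?_)
    refine degree_C_le.trans_lt ?_
    have : 0 < V.card := Finset.card_pos.2 ⟨0, hV.1⟩
    exact_mod_cast this
  have hevC : ∀ g : L[X], ∀ Q : L[X], eval Q (g.map C) = g.comp Q := by
    intro g Q
    rw [eval_map, comp]
  have hG0 : G = 0 := by
    refine eq_zero_of_natDegree_lt_card_of_eval_eq_zero' G (Finset.univ.image (C : L → L[X])) ?_ ?_
    · intro i hi
      obtain ⟨t, -, rfl⟩ := Finset.mem_image.1 hi
      rw [hG, Polynomial.eval_sub, Polynomial.eval_sub, eval_comp, Polynomial.eval_add, eval_X,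
        eval_C, eval_C, hf, hevC, hevC, add_comm (C t) A]
      have h2 := congrArg (fun g => g.comp A) (hV.comp_X_add_C t)
      simp only [comp_assoc, add_comp, X_comp, C_comp] at h2
      rw [h2, comp_C]
      ring
    · rw [Finset.card_image_of_injective _ C_injective]
      by_cases hz : G = 0
      · rw [hz, natDegree_zero]
        exact Fintype.card_pos
      · have h3 : G.natDegree < V.card := (natDegree_lt_iff_degree_lt hz).2 hdeg
        exact h3.trans_le (Finset.card_le_univ V)
  have h4 := congrArg (eval B) hG0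
  rw [hG, Polynomial.eval_sub, Polynomial.eval_sub, eval_comp, Polynomial.eval_add, eval_X, eval_C,
    eval_C, hf, hevC, hevC, Polynomial.eval_zero, add_comm B A] at h4
  linear_combination h4

theorem IsSub.comp_sub {V : Finset L} (hV : IsSub V) (A B : L[X]) :
    (ann V).comp (A - B) = (ann V).comp A - (ann V).comp B := by
  have h := hV.comp_add (A - B) B
  rw [sub_add_cancel] at h
  rw [h]
  ring

/-- The image of `L` under the additive map `ann W`. -/
noncomputable def img (W : Finset L) : Finset L := Finset.univ.image fun t => (ann W).eval t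

theorem mem_img {W : Finset L} {y : L} : y ∈ img W ↔ ∃ t, (ann W).eval t = y := by
  simp [img]

theorem IsSub.isSub_img {W : Finset L} (hW : IsSub W) : IsSub (img W) := by
  constructor
  · exact mem_img.2 ⟨0, hW.eval_zero⟩
  · intro a ha b hb
    obtain ⟨s, rfl⟩ := mem_img.1 ha
    obtain ⟨t, rfl⟩ := mem_img.1 hb
    exact mem_img.2 ⟨s - t, hW.eval_sub s t⟩

/-- The fibre of `ann W` over `(ann W)(t₀)` is `t₀ + W`. -/
theorem IsSub.fiber {W : Finset L} (hW : IsSub W) (t0 : L) :
    (Finset.univ.filter fun t => (ann W).eval t = (ann W).eval t0) =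
      W.image fun w => t0 + w := by
  ext t
  simp only [Finset.mem_filter, Finset.mem_univ, true_and, Finset.mem_image]
  constructor
  · intro h
    refine ⟨t - t0, ?_, by ring⟩
    rw [← eval_ann_eq_zero_iff, hW.eval_sub, h, sub_self]
  · rintro ⟨w, hw, rfl⟩
    exact hW.map_add hw t0

theorem IsSub.card_fiber {W : Finset L} (hW : IsSub W) {y : L} (hy : y ∈ img W) :
    (Finset.univ.filter fun t => (ann W).eval t = y).card = W.card := by
  obtain ⟨t0, rfl⟩ := mem_img.1 hy
  rw [hW.fiber, Finset.card_image_of_injective _ (add_right_injective t0)]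

theorem IsSub.card_img_mul {W : Finset L} (hW : IsSub W) :
    (img W).card * W.card = Fintype.card L := by
  have h := Finset.card_eq_sum_card_fiberwise (s := (Finset.univ : Finset L)) (t := img W)
    (f := fun t => (ann W).eval t) (fun t _ => mem_img.2 ⟨t, rfl⟩)
  rw [Finset.sum_congr rfl fun y hy => hW.card_fiber hy, Finset.sum_const, smul_eq_mul] at h
  rw [← h, Finset.card_univ]

/-- `∏_{t, ann W t = y} (A - t) = (ann W)(A) - y` for every polynomial argument `A`. -/
theorem IsSub.prod_fiber {W : Finset L} (hW : IsSub W) {y : L} (hy : y ∈ img W) :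
    ∏ t ∈ Finset.univ.filter (fun t => (ann W).eval t = y), (X - C t) = ann W - C y := by
  obtain ⟨t0, rfl⟩ := mem_img.1 hy
  rw [hW.fiber, Finset.prod_image (fun a _ b _ h => add_right_injective t0 h)]
  have h1 := hW.comp_X_add_C (-t0)
  have h2 : (ann W).comp (X + C (-t0)) = ∏ w ∈ W, (X - C (t0 + w)) := by
    rw [ann, prod_comp]
    refine Finset.prod_congr rfl fun w _ => ?_
    simp only [sub_comp, X_comp, C_comp, C_add, C_neg]
    ring
  rw [← h2, h1]
  have h3 : (ann W).eval (-t0) = -(ann W).eval t0 := by
    have := hW.eval_sub 0 t0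
    rw [zero_sub, hW.eval_zero, zero_sub] at this
    exact this
  rw [h3, C_neg]
  ring

theorem prod_univ_X_sub_C : ∏ t : L, (X - C t) = (X ^ Fintype.card L - X : L[X]) := by
  have h1 : Multiset.card (roots (X ^ Fintype.card L - X : L[X])) =
      (X ^ Fintype.card L - X : L[X]).natDegree := by
    rw [FiniteField.roots_X_pow_card_sub_X, FiniteField.X_pow_card_sub_X_natDegree_eq _
      Fintype.one_lt_card]
    exact Finset.card_univ
  have h2 := prod_multiset_X_sub_C_of_monic_of_roots_card_eq (p := (X ^ Fintype.card L - X : L[X]))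
    (by
      have := Fintype.one_lt_card (α := L)
      exact monic_X_pow_sub (by rw [degree_X]; exact_mod_cast this)) h1
  rw [FiniteField.roots_X_pow_card_sub_X] at h2
  exact h2

theorem IsSub.ann_img_comp {W : Finset L} (hW : IsSub W) :
    (ann (img W)).comp (ann W) = X ^ Fintype.card L - X := by
  rw [← prod_univ_X_sub_C]
  conv_lhs => rw [ann, prod_comp]
  rw [← Finset.prod_fiberwise_of_maps_to (s := (Finset.univ : Finset L)) (t := img W)
    (g := fun t => (ann W).eval t) (fun t _ => mem_img.2 ⟨t, rfl⟩)]
  refine Finset.prod_congr rfl fun y hy => ?_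
  rw [hW.prod_fiber hy, sub_comp, X_comp, C_comp]

theorem IsSub.ann_comp_img {W : Finset L} (hW : IsSub W) :
    (ann W).comp (ann (img W)) = X ^ Fintype.card L - X := by
  have h1 : ((ann W).comp (ann (img W))).comp (ann W) =
      (X ^ Fintype.card L - X : L[X]).comp (ann W) := by
    rw [comp_assoc, hW.ann_img_comp, hW.comp_sub, comp_X, sub_comp, X_comp, pow_comp, X_comp,
      ← expand_eq_comp_X_pow, FiniteField.expand_card]
  have h2 : ((ann W).comp (ann (img W)) - (X ^ Fintype.card L - X)).comp (ann W) = 0 := by
    rw [Polynomial.sub_comp, h1, sub_self]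
  rcases comp_eq_zero_iff.1 h2 with h3 | ⟨-, h3⟩
  · exact sub_eq_zero.1 h3
  · exfalso
    have h4 := ann_natDegree W
    rw [h3, natDegree_C] at h4
    have : 0 < W.card := Finset.card_pos.2 ⟨0, hW.1⟩
    omega

/-- `W` is the image of `L` under the additive polynomial of `img W`. -/
theorem IsSub.img_img {W : Finset L} (hW : IsSub W) : img (img W) = W := by
  have hV := hW.isSub_img
  refine Finset.eq_of_subset_of_card_le ?_ ?_
  · intro y hy
    obtain ⟨t, rfl⟩ := mem_img.1 hy
    rw [← eval_ann_eq_zero_iff, ← eval_comp, hW.ann_comp_img]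
    simp [FiniteField.pow_card]
  · have h1 := hW.card_img_mul
    have h2 := hV.card_img_mul
    have h3 : 0 < (img W).card := Finset.card_pos.2 ⟨0, hV.1⟩
    have h4 : (img (img W)).card = W.card := by
      have : (img (img W)).card * (img W).card = W.card * (img W).card := by
        rw [h2, ← h1, mul_comm]
      exact Nat.eq_of_mul_eq_mul_right h3 this
    exact h4.ge

end Pool.Agent.Helper36.BCH
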