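import Pool.Agent.Helper36.BCH.Defs

/-!
# Basic facts on narrow-sense primitive BCH codes
-/

namespace Pool.Agent.Helper36.BCH

open Polynomial

variable {K L : Type} [Field K] [Field L] [Algebra K L]

theorem IsGenerator.dvd {α : L} {δ : ℕ} {g : K[X]} (hg : IsGenerator α δ g) {c : K[X]}
    (hc : ∀ j, 1 ≤ j → j < δ → aeval (α ^ j) c = 0) : g ∣ c := by
  by_contra hdvd
  have hr : c %ₘ g ≠ 0 := by
    intro h
    exact hdvd ((modByMonic_eq_zero_iff_dvd hg.1).1 h)
  have hz : ∀ j, 1 ≤ j → j < δ → aeval (α ^ j) (c %ₘ g) = 0 := by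
    intro j h1 h2
    have h := congrArg (aeval (α ^ j)) (modByMonic_add_div c g)
    rw [map_add, map_mul, hg.2.1 j h1 h2, zero_mul, add_zero, hc j h1 h2] at h
    exact h
  have hmon : (C (c %ₘ g).leadingCoeff⁻¹ * (c %ₘ g)).Monic := by
    rw [Monic, leadingCoeff_mul, leadingCoeff_C]
    exact inv_mul_cancel₀ (leadingCoeff_ne_zero.2 hr)
  have hdeg := hg.2.2 _ hmon (fun j h1 h2 => by rw [map_mul, hz j h1 h2, mul_zero])
  have hlc : (c %ₘ g).leadingCoeff⁻¹ ≠ 0 := inv_ne_zero (leadingCoeff_ne_zero.2 hr)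
  rw [natDegree_C_mul hlc] at hdeg
  have h3 : (c %ₘ g).natDegree < g.natDegree :=
    natDegree_lt_natDegree hr (degree_modByMonic_lt c hg.1)
  omega

theorem IsGenerator.aeval_of_dvd {α : L} {δ : ℕ} {g : K[X]} (hg : IsGenerator α δ g) {c : K[X]}
    (hc : g ∣ c) {j : ℕ} (h1 : 1 ≤ j) (h2 : j < δ) : aeval (α ^ j) c = 0 := by
  obtain ⟨u, rfl⟩ := hc
  rw [map_mul, hg.2.1 j h1 h2, zero_mul]

theorem exists_isGenerator [Finite L] {α : L} (hα : α ≠ 0) (δ : ℕ) :
    ∃ g : K[X], IsGenerator α δ g := by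
  classical
  have : Fintype L := Fintype.ofFinite L
  have hex : ∃ d : ℕ, ∃ f : K[X], f.Monic ∧
      (∀ j, 1 ≤ j → j < δ → aeval (α ^ j) f = 0) ∧ f.natDegree = d := by
    refine ⟨_, X ^ (Fintype.card L - 1) - C 1, ?_, ?_, rfl⟩
    · apply monic_X_pow_sub_C
      have := Fintype.one_lt_card (α := L)
      omega
    · intro j _ _
      have h : (α ^ j) ^ (Fintype.card L - 1) = 1 :=
        FiniteField.pow_card_sub_one_eq_one _ (pow_ne_zero j hα)
      simp [h]
  obtain ⟨f, hf1, hf2, hf3⟩ := Nat.find_spec hex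
  refine ⟨f, hf1, hf2, ?_⟩
  intro f' h1 h2
  rw [hf3]
  exact Nat.find_min' hex ⟨f', h1, h2, rfl⟩

theorem orderOf_primitive [Finite L] {α : L} (hα : IsPrimitiveElement α) :
    orderOf α = Nat.card L - 1 := by
  classical
  have hfin : Fintype L := Fintype.ofFinite L
  have h1 : orderOf (Units.mk0 α hα.1) = Nat.card Lˣ := by
    apply orderOf_eq_card_of_forall_mem_zpowers
    intro x
    obtain ⟨k, hk⟩ := hα.2 x x.ne_zero
    refine ⟨k, ?_⟩
    ext
    simpa using hk.symm
  rw [← orderOf_units, Units.val_mk0] at h1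
  rw [h1, Nat.card_units]

theorem card_sub_one_pos (L : Type) [Field L] [Finite L] : 0 < Nat.card L - 1 := by
  have := Finite.one_lt_card (α := L)
  omega

/-- The discrete logarithm. -/
theorem exists_log [Finite L] {α : L} (hα : IsPrimitiveElement α) :
    ∃ lg : L → ℕ, (∀ x, x ≠ 0 → lg x < Nat.card L - 1) ∧ (∀ x, x ≠ 0 → α ^ lg x = x) := by
  classical
  have h : ∀ x : L, ∃ k : ℕ, x ≠ 0 → k < Nat.card L - 1 ∧ α ^ k = x := by
    intro x
    by_cases hx : x = 0
    · exact ⟨0, fun h => absurd hx h⟩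
    · obtain ⟨k, hk⟩ := hα.2 x hx
      refine ⟨k % (Nat.card L - 1), fun _ => ⟨Nat.mod_lt _ (card_sub_one_pos L), ?_⟩⟩
      rw [hk, ← orderOf_primitive hα, pow_mod_orderOf]
  choose lg hlg using h
  exact ⟨lg, fun x hx => (hlg x hx).1, fun x hx => (hlg x hx).2⟩

theorem pow_inj_primitive [Finite L] {α : L} (hα : IsPrimitiveElement α) {i j : ℕ}
    (hi : i < Nat.card L - 1) (hj : j < Nat.card L - 1) (h : α ^ i = α ^ j) : i = j := by
  rw [← orderOf_primitive hα] at hi hj
  exact pow_injOn_Iio_orderOf hi hj h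

theorem exists_minDist [Finite L] {α : L} (hα : IsPrimitiveElement α) {δ : ℕ}
    (hδ : δ ≤ Nat.card L - 1) : ∃ d, IsMinDist K α δ d := by
  classical
  obtain ⟨g, hg⟩ := exists_isGenerator (K := K) hα.1 δ
  have hn := card_sub_one_pos L
  have hne : ∃ d, d ∈ weights (Nat.card L - 1) g := by
    refine ⟨_, ∑ i ∈ Finset.range (Nat.card L - 1), (X : K[X]) ^ i, ?_, ?_, ?_, rfl⟩
    · intro h
      have h2 := congrArg (fun f => coeff f 0) h
      simp only [finsetSum_coeff, coeff_zero] at h2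
      rw [Finset.sum_eq_single 0] at h2
      · simp at h2
      · intro b _ hb
        rw [coeff_X_pow, if_neg (Ne.symm hb)]
      · intro h3
        exact absurd (Finset.mem_range.2 hn) h3
    · rw [Nat.lt_iff_le_pred hn]
      refine natDegree_sum_le_of_forall_le _ _ ?_
      intro i hi
      rw [natDegree_X_pow]
      have := Finset.mem_range.1 hi
      omega
    · apply hg.dvd
      intro j h1 h2
      rw [map_sum]
      simp only [map_pow, aeval_X]
      have hord := orderOf_primitive hα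
      have hne1 : α ^ j ≠ 1 := by
        intro h
        have := orderOf_dvd_of_pow_eq_one h
        have := Nat.le_of_dvd (by omega) this
        omega
      have hmul := geom_sum_mul (α ^ j) (Nat.card L - 1)
      rw [← pow_mul, mul_comm j, pow_mul, ← hord, pow_orderOf_eq_one, one_pow, sub_self] at hmul
      rw [← hord]
      exact (mul_eq_zero.1 hmul).resolve_right (sub_ne_zero.2 hne1)
  exact ⟨Nat.find hne, g, hg, Nat.find_spec hne, fun d hd => Nat.find_min' hne hd⟩

/-- A weighted set of nonzero elements of `L` with vanishing power sums gives a codeword. -/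
theorem minDist_le [Finite L] {α : L} (hα : IsPrimitiveElement α) {δ d : ℕ}
    (hd : IsMinDist K α δ d) (S : Finset L) (hS : S.Nonempty) (h0 : (0 : L) ∉ S) (c : L → K)
    (hc : ∀ x ∈ S, c x ≠ 0)
    (hsum : ∀ j, 1 ≤ j → j < δ → ∑ x ∈ S, algebraMap K L (c x) * x ^ j = 0) :
    d ≤ S.card := by
  classical
  obtain ⟨g, hg, hleast⟩ := hd
  obtain ⟨lg, hlg1, hlg2⟩ := exists_log hα
  have hne0 : ∀ x ∈ S, x ≠ 0 := fun x hx h => h0 (h ▸ hx)
  have hinj : ∀ x ∈ S, ∀ y ∈ S, lg x = lg y → x = y := by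
    intro x hx y hy h
    rw [← hlg2 x (hne0 x hx), ← hlg2 y (hne0 y hy), h]
  have hcoef : ∀ k, (∑ x ∈ S, C (c x) * (X : K[X]) ^ lg x).coeff k =
      ∑ x ∈ S, if lg x = k then c x else 0 := by
    intro k
    rw [finsetSum_coeff]
    refine Finset.sum_congr rfl fun x _ => ?_
    rw [coeff_C_mul, coeff_X_pow]
    by_cases h : lg x = k
    · simp [h]
    · rw [if_neg h, if_neg (fun h' => h h'.symm), mul_zero]
  have hcoef1 : ∀ x ∈ S, (∑ x ∈ S, C (c x) * (X : K[X]) ^ lg x).coeff (lg x) = c x := by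
    intro x hx
    rw [hcoef, Finset.sum_eq_single x]
    · rw [if_pos rfl]
    · intro y hy hyx
      rw [if_neg]
      intro h
      exact hyx (hinj y hy x hx h)
    · intro h
      exact absurd hx h
  have hsupp : (∑ x ∈ S, C (c x) * (X : K[X]) ^ lg x).support = S.image lg := by
    ext k
    rw [mem_support_iff, Finset.mem_image]
    constructor
    · intro h
      rw [hcoef] at h
      obtain ⟨x, hx, hx2⟩ := Finset.exists_ne_zero_of_sum_ne_zero h
      refine ⟨x, hx, ?_⟩
      by_contra hne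
      exact hx2 (if_neg hne)
    · rintro ⟨x, hx, rfl⟩
      rw [hcoef1 x hx]
      exact hc x hx
  refine hleast.2 ⟨∑ x ∈ S, C (c x) * X ^ lg x, ?_, ?_, ?_, ?_⟩
  · intro h
    obtain ⟨x, hx⟩ := hS
    have h1 := hcoef1 x hx
    rw [h, coeff_zero] at h1
    exact hc x hx h1.symm
  · rw [Nat.lt_iff_le_pred (card_sub_one_pos L)]
    refine natDegree_sum_le_of_forall_le _ _ ?_
    intro x hx
    refine (natDegree_C_mul_X_pow_le _ _).trans ?_
    have := hlg1 x (hne0 x hx)
    omega
  · apply hg.dvd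
    intro j h1 h2
    rw [map_sum, ← hsum j h1 h2]
    refine Finset.sum_congr rfl fun x hx => ?_
    rw [map_mul, map_pow, aeval_C, aeval_X, ← pow_mul, mul_comm j, pow_mul, hlg2 x (hne0 x hx)]
  · rw [hsupp]
    exact Finset.card_image_of_injOn (fun x hx y hy h => hinj x hx y hy h)

/-- The BCH bound. -/
theorem le_minDist [Finite L] {α : L} (hα : IsPrimitiveElement α) {δ d : ℕ}
    (hd : IsMinDist K α δ d) : δ ≤ d := by
  classical
  obtain ⟨g, hg, ⟨c, hc0, hcdeg, hgc, hcard⟩, -⟩ := hd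
  by_contra hlt
  push Not at hlt
  have hne : c.support.Nonempty := by
    rw [Finset.nonempty_iff_ne_empty]
    intro h
    exact hc0 (support_eq_empty.1 h)
  obtain ⟨i0, hi0⟩ := hne
  have hlt_n : ∀ i ∈ c.support, i < Nat.card L - 1 := by
    intro i hi
    exact lt_of_le_of_lt (le_natDegree_of_mem_supp i hi) hcdeg
  set h : L[X] := X * ∏ i ∈ c.support.erase i0, (X - C (α ^ i)) with hh
  have hhdeg : h.natDegree < δ := by
    have h1 : h.natDegree ≤ 1 + ∑ i ∈ c.support.erase i0, 1 := by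
      refine natDegree_mul_le.trans ?_
      rw [natDegree_X]
      refine Nat.add_le_add_left ?_ 1
      refine (natDegree_prod_le _ _).trans ?_
      refine Finset.sum_le_sum fun i _ => ?_
      rw [natDegree_X_sub_C]
    rw [Finset.sum_const, smul_eq_mul, mul_one, Finset.card_erase_of_mem hi0] at h1
    have := Finset.card_pos.2 ⟨i0, hi0⟩
    omega
  have hcoef0 : h.coeff 0 = 0 := by
    rw [hh, coeff_zero_eq_eval_zero, eval_mul, eval_X, zero_mul]
  have hsum : ∑ i ∈ c.support, algebraMap K L (c.coeff i) * h.eval (α ^ i) = 0 := by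
    have h1 : ∀ i, h.eval (α ^ i) = ∑ k ∈ Finset.range δ, h.coeff k * (α ^ i) ^ k :=
      fun i => eval_eq_sum_range' hhdeg _
    simp only [h1, Finset.mul_sum]
    rw [Finset.sum_comm]
    refine Finset.sum_eq_zero fun k hk => ?_
    rcases Nat.eq_zero_or_pos k with rfl | hkpos
    · simp [hcoef0]
    · have h2 := hg.aeval_of_dvd hgc hkpos (Finset.mem_range.1 hk)
      rw [aeval_def, eval₂_eq_sum, Polynomial.sum] at h2
      have h3 : ∑ i ∈ c.support, algebraMap K L (c.coeff i) * (h.coeff k * (α ^ i) ^ k) =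
          h.coeff k * ∑ i ∈ c.support, algebraMap K L (c.coeff i) * (α ^ k) ^ i := by
        rw [Finset.mul_sum]
        refine Finset.sum_congr rfl fun i _ => ?_
        rw [← pow_mul, ← pow_mul, mul_comm k i]
        ring
      rw [h3, h2, mul_zero]
  rw [Finset.sum_eq_single i0] at hsum
  · rcases mul_eq_zero.1 hsum with h1 | h1
    · rw [map_eq_zero] at h1
      exact (mem_support_iff.1 hi0) h1
    · rw [hh, eval_mul, eval_X, eval_prod] at h1
      rcases mul_eq_zero.1 h1 with h2 | h2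
      · exact pow_ne_zero i0 hα.1 h2
      · obtain ⟨i, hi, hi2⟩ := Finset.prod_eq_zero_iff.1 h2
        rw [eval_sub, eval_X, eval_C, sub_eq_zero] at hi2
        have hi3 := Finset.mem_erase.1 hi
        exact hi3.1 (pow_inj_primitive hα (hlt_n i hi3.2) (hlt_n i0 hi0) hi2.symm)
  · intro i hi hine
    rw [hh, eval_mul, eval_prod,
      Finset.prod_eq_zero (Finset.mem_erase.2 ⟨hine, hi⟩) (by simp), mul_zero, mul_zero]
  · intro h1
    exact absurd hi0 h1

theorem IsMinDist.unique {α : L} {δ d d' : ℕ} (h : IsMinDist K α δ d)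
    (h' : IsMinDist K α δ d') : d = d' := by
  obtain ⟨g, hg, hl⟩ := h
  obtain ⟨g', hg', hl'⟩ := h'
  have h1 : g ∣ g' := hg.dvd hg'.2.1
  have h2 : g' ∣ g := hg'.dvd hg.2.1
  have h3 : g = g' := eq_of_monic_of_associated hg.1 hg'.1 (associated_of_dvd_dvd h1 h2)
  subst h3
  exact hl.unique hl'

end Pool.Agent.Helper36.BCH
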