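import Pool.Agent.Helper36.BCH.Family

/-!
# Chains of operations on balanced sets
-/

set_option linter.unusedSectionVars false

namespace Pool.Agent.Helper36.BCH

open Polynomial Module

section

variable {F K L : Type} [Field F] [Field K] [Field L] [Fintype F] [Fintype K] [Fintype L]
  [Algebra F K] [Algebra K L] [Algebra F L] [IsScalarTower F K L] [DecidableEq K] [DecidableEq L]

/-- Preimages of a balanced set contained in a subspace. -/
theorem Balanced.blowup {S : Finset L} (hS : Balanced K S) (U : Submodule F L)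
    (hU : ∀ x ∈ S, x ∈ U) (h : ℕ) (hdim : finrank F U + h ≤ finrank F L) :
    ∃ S' : Finset L, Balanced K S' ∧ S'.card = S.card * Fintype.card F ^ h ∧
      ((0 : L) ∈ S → (0 : L) ∈ S') ∧
      ∀ z : F, (∀ s ∈ S, algebraMap F L z * s ∈ S) → ∀ s ∈ S', algebraMap F L z * s ∈ S' := by
  obtain ⟨W, hW, hUW, hWc, ⟨k, hk⟩, hst⟩ := exists_sub U h hdim
  have hV := hW.isSub_img
  have hVc : (img W).card = Fintype.card F ^ h := by
    have h1 := hW.card_img_mul
    have h2 : (img W).card * W.card = Fintype.card F ^ h * W.card := by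
      rw [h1, ← hWc, mul_comm]
    have h3 : 0 < W.card := Finset.card_pos.2 ⟨0, hW.1⟩
    exact Nat.eq_of_mul_eq_mul_right h3 h2
  have hsub : S ⊆ img (img W) := by
    rw [hW.img_img]
    exact fun y hy => hUW _ (hU y hy)
  refine ⟨BCH.pre (img W) S, hS.pre hV hsub, ?_, ?_, ?_⟩
  · rw [card_pre hV hsub, hVc]
  · intro h0
    rw [mem_pre, hV.eval_zero]
    exact h0
  · intro z hz s hs
    rw [mem_pre] at hs ⊢
    rw [eval_ann_smul hVc (fun z v hv => img_stable hk hst hW z hv) hV]
    exact hz _ hs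

/-- A quotient by roots of unity. -/
theorem Balanced.quot {e t : ℕ} (ht : 0 < t) {ζ : F} (hζ : IsPrimitiveRoot ζ (t * e))
    (he : 0 < e) {S : Finset L} (hS : Balanced K S) (h0 : (0 : L) ∈ S)
    (hst : ∀ s ∈ S, algebraMap F L ζ * s ∈ S) :
    ∃ S' : Finset L, Balanced K S' ∧ (S'.card - 1) * t + 1 = S.card ∧ (0 : L) ∈ S' ∧
      ∀ s ∈ S', algebraMap F L (ζ ^ t) * s ∈ S' := by
  have hζt : IsPrimitiveRoot (ζ ^ e) t := hζ.pow (Nat.mul_pos ht he) (mul_comm _ _)
  have hζL : IsPrimitiveRoot (algebraMap F L (ζ ^ e)) t :=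
    hζt.map_of_injective (algebraMap F L).injective
  have htower : algebraMap F L (ζ ^ e) = algebraMap K L (algebraMap F K (ζ ^ e)) :=
    IsScalarTower.algebraMap_apply F K L _
  have hste : ∀ i : ℕ, ∀ s ∈ S, algebraMap F L (ζ ^ i) * s ∈ S := by
    intro i
    induction i with
    | zero => intro s hs; simpa using hs
    | succ i ih =>
      intro s hs
      rw [pow_succ', map_mul, mul_assoc]
      exact hst _ (ih s hs)
  obtain ⟨h1, h2⟩ := hS.powImage ht hζL ⟨_, htower.symm⟩ h0 (hste e)
  refine ⟨_, h1, h2, Finset.mem_image.2 ⟨0, h0, zero_pow (by omega)⟩, ?_⟩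
  intro s hs
  obtain ⟨z, hz, rfl⟩ := Finset.mem_image.1 hs
  refine Finset.mem_image.2 ⟨algebraMap F L ζ * z, hst z hz, ?_⟩
  rw [mul_pow, map_pow]

theorem finrank_span_lt {S : Finset L} (h0 : (0 : L) ∈ S) :
    finrank F (Submodule.span F (S : Set L)) + 1 ≤ S.card := by
  have h1 : Submodule.span F (S : Set L) = Submodule.span F ((S.erase 0 : Finset L) : Set L) := by
    rw [Finset.coe_erase, Submodule.span_sdiff_singleton_zero]
  rw [h1]
  have h2 := finrank_span_finset_le_card (R := F) (S.erase 0)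
  have h3 := Finset.card_erase_of_mem h0
  have h4 : 0 < S.card := Finset.card_pos.2 ⟨0, h0⟩
  simp only [Set.finrank] at h2
  omega

/-- One step of a chain. -/
theorem chain_step {δ c c' : ℕ} (hc : c ∣ c') (hc' : c' ∣ Fintype.card F - 1) {S : Finset L}
    {ζ : F} (hζ : IsPrimitiveRoot ζ ((Fintype.card F - 1) / c)) (hS : Balanced K S)
    (h0 : (0 : L) ∈ S) (hst : ∀ s ∈ S, algebraMap F L ζ * s ∈ S)
    (hcard : S.card = (Fintype.card F - 1) / c * δ + 1) (hdim : S.card ≤ finrank F L) :
    ∃ (S' : Finset L) (ζ' : F), IsPrimitiveRoot ζ' ((Fintype.card F - 1) / c') ∧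
      Balanced K S' ∧ (0 : L) ∈ S' ∧ (∀ s ∈ S', algebraMap F L ζ' * s ∈ S') ∧
      S'.card = (Fintype.card F - 1) / c' * (Fintype.card F * δ + c) + 1 := by
  have hF := Fintype.one_lt_card (α := F)
  set r := Fintype.card F with hr
  obtain ⟨u, hu⟩ := hc
  obtain ⟨v, hv⟩ := hc'
  have hc'0 : 0 < c' := Nat.pos_of_ne_zero (by rintro rfl; omega)
  have hv0 : 0 < v := Nat.pos_of_ne_zero (by rintro rfl; omega)
  have hc0 : 0 < c := Nat.pos_of_ne_zero (by rintro rfl; omega)
  have hu0 : 0 < u := Nat.pos_of_ne_zero (by rintro rfl; omega)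
  have hd' : (r - 1) / c' = v := by rw [hv, Nat.mul_div_cancel_left _ hc'0]
  have hd : (r - 1) / c = u * v := by
    rw [hv, hu, mul_assoc, Nat.mul_div_cancel_left _ hc0]
  rw [hd] at hζ hcard
  rw [hd']
  obtain ⟨S1, hS1, hS1c, hS10, hS1st⟩ := hS.blowup (F := F) (Submodule.span F (S : Set L))
    (fun x hx => Submodule.subset_span hx) 1 (by
      have := finrank_span_lt (F := F) h0
      omega)
  obtain ⟨S2, hS2, hS2c, hS20, hS2st⟩ := hS1.quot hu0 hζ hv0 (hS10 h0) (hS1st ζ hst)
  refine ⟨S2, ζ ^ u, hζ.pow (Nat.mul_pos hu0 hv0) rfl, hS2, hS20, hS2st, ?_⟩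
  rw [hS1c, hcard, pow_one, ← hr] at hS2c
  have h1 : 0 < S2.card := Finset.card_pos.2 ⟨0, hS20⟩
  have h2 : (S2.card - 1) * u = v * (r * δ + c) * u := by
    have h3 : (u * v * δ + 1) * r = v * (r * δ + c) * u + 1 := by
      have h4 : r = c * u * v + 1 := by
        rw [← hu]
        omega
      calc (u * v * δ + 1) * r = u * v * δ * r + r := by ring
        _ = u * v * δ * r + (c * u * v + 1) := by rw [← h4]
        _ = v * (r * δ + c) * u + 1 := by ring
    omega
  have h3 := Nat.eq_of_mul_eq_mul_right hu0 h2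
  omega

/-- The numbers of a chain. -/
def chain (r a : ℕ) (c : ℕ → ℕ) : ℕ → ℕ
  | 0 => a
  | k + 1 => r * chain r a c k + c k

theorem chain_eq (r a : ℕ) (c : ℕ → ℕ) (k : ℕ) :
    chain r a c k = a * r ^ k + ∑ i ∈ Finset.range k, c i * r ^ (k - 1 - i) := by
  induction k with
  | zero => simp [chain]
  | succ k ih =>
    rw [chain, ih, Finset.sum_range_succ, Nat.add_sub_cancel, Nat.sub_self, pow_zero, mul_one,
      mul_add, Finset.mul_sum, pow_succ]
    have h1 : ∀ i ∈ Finset.range k, r * (c i * r ^ (k - 1 - i)) = c i * r ^ (k - i) := by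
      intro i hi
      have := Finset.mem_range.1 hi
      have h2 : k - i = k - 1 - i + 1 := by omega
      rw [h2, pow_succ]
      ring
    rw [Finset.sum_congr rfl h1]
    ring

theorem exists_chain {a k : ℕ} {c : ℕ → ℕ} (hc : ∀ i < k, c i ∣ c (i + 1))
    (hck : c k = Fintype.card F - 1)
    (ha : a * ((Fintype.card F - 1) / c 0) ≤ Fintype.card K - 1)
    (hdim : chain (Fintype.card F) a c k ≤ finrank F L) :
    ∃ S : Finset L, Balanced K S ∧ S.card = chain (Fintype.card F) a c k + 1 := by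
  have hF := Fintype.one_lt_card (α := F)
  set r := Fintype.card F with hr
  have hdvd : ∀ j, j ≤ k → ∀ i, i ≤ j → c i ∣ c j := by
    intro j
    induction j with
    | zero =>
      intro _ i hi
      obtain rfl : i = 0 := by omega
      exact dvd_rfl
    | succ j ih =>
      intro hj i hi
      rcases Nat.lt_or_ge i (j + 1) with h | h
      · exact (ih (by omega) i (by omega)).trans (hc j (by omega))
      · obtain rfl : i = j + 1 := by omega
        exact dvd_rfl
  have hcr : ∀ i, i ≤ k → c i ∣ r - 1 := fun i hi => by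
    rw [← hck]
    exact hdvd k le_rfl i hi
  have hcpos : ∀ i, i ≤ k → 0 < c i := fun i hi => Nat.pos_of_dvd_of_pos (hcr i hi) (by omega)
  have hmono : ∀ i, i < k → (r - 1) / c i * chain r a c i + 1 ≤ chain r a c (i + 1) := by
    intro i hi
    have h1 : (r - 1) / c i ≤ r := (Nat.div_le_self _ _).trans (by omega)
    have h2 := Nat.mul_le_mul_right (chain r a c i) h1
    have h3 := hcpos i hi.le
    rw [chain]
    omega
  have hmono2 : ∀ j, j ≤ k → ∀ i, i ≤ j → chain r a c i ≤ chain r a c j := by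
    intro j
    induction j with
    | zero =>
      intro _ i hi
      obtain rfl : i = 0 := by omega
      exact le_rfl
    | succ j ih =>
      intro hj i hi
      rcases Nat.lt_or_ge i (j + 1) with h | h
      · refine (ih (by omega) i (by omega)).trans ?_
        rw [chain]
        have : chain r a c j ≤ r * chain r a c j := Nat.le_mul_of_pos_left _ (by omega)
        omega
      · obtain rfl : i = j + 1 := by omega
        exact le_rfl
  have key : ∀ i, i ≤ k → ∃ (S : Finset L) (ζ : F), IsPrimitiveRoot ζ ((r - 1) / c i) ∧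
      Balanced K S ∧ (0 : L) ∈ S ∧ (∀ s ∈ S, algebraMap F L ζ * s ∈ S) ∧
      S.card = (r - 1) / c i * chain r a c i + 1 := by
    intro i
    induction i with
    | zero =>
      intro h0k
      have hd : (r - 1) / c 0 ∣ r - 1 := Nat.div_dvd_of_dvd (hcr 0 h0k)
      have hd0 : 0 < (r - 1) / c 0 := Nat.pos_of_dvd_of_pos hd (by omega)
      obtain ⟨ζ, hζ⟩ := exists_primitiveRoot (F := F) hd
      have hζK : IsPrimitiveRoot (algebraMap F K ζ) ((r - 1) / c 0) :=
        hζ.map_of_injective (algebraMap F K).injective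
      obtain ⟨A, h0A, hstA, hAc⟩ := exists_stable_subset hd0 hζK ha
      refine ⟨A.image (algebraMap K L), ζ, hζ, balanced_image_algebraMap A, ?_, ?_, ?_⟩
      · exact Finset.mem_image.2 ⟨0, h0A, map_zero _⟩
      · intro s hs
        obtain ⟨x, hx, rfl⟩ := Finset.mem_image.1 hs
        refine Finset.mem_image.2 ⟨algebraMap F K ζ * x, hstA x hx, ?_⟩
        rw [map_mul, ← IsScalarTower.algebraMap_apply F K L]
      · rw [Finset.card_image_of_injective _ (algebraMap K L).injective, hAc, chain]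
        ring
    | succ i ih =>
      intro hik
      obtain ⟨S, ζ, hζ, hS, h0, hst, hcard⟩ := ih (by omega)
      have h1 := hmono i (by omega)
      have h2 := hmono2 k le_rfl (i + 1) hik
      obtain ⟨S', ζ', hζ', hS', h0', hst', hcard'⟩ := chain_step (c' := c (i + 1))
        (hc i (by omega)) (hcr (i + 1) hik) hζ hS h0 hst hcard (by omega)
      exact ⟨S', ζ', hζ', hS', h0', hst', hcard'⟩
  obtain ⟨S, ζ, -, hS, -, -, hcard⟩ := key k le_rfl
  refine ⟨S, hS, ?_⟩
  rw [hcard, hck, Nat.div_self (by omega), one_mul]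

end

end Pool.Agent.Helper36.BCH
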