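import Pool.Agent.Helper36.BCH.Filt

/-!
# Divisibility of the number of zeros (Ax, McEliece, Moreno and Moreno)
-/

namespace Pool.Agent.Helper36.BCH

/-- The filtration by the monomials in `p` and `τ`. -/
def pI (R : Type) [CommRing R] (p D : ℕ) (τ : R) (n : ℕ) : Ideal R :=
  Ideal.span {z | ∃ c i : ℕ, n ≤ D * ((p - 1) * c + i) ∧ z = (p : R) ^ c * τ ^ i}

section

variable {R : Type} [CommRing R] {p D : ℕ} {τ : R}

theorem isFilt_pI : IsFilt (pI R p D τ) where
  zero x := by
    have h : (1 : R) ∈ pI R p D τ 0 := Ideal.subset_span ⟨0, 0, Nat.zero_le _, by simp⟩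
    have h2 := (pI R p D τ 0).mul_mem_left x h
    rwa [mul_one] at h2
  anti a b hab := by
    refine Ideal.span_mono ?_
    rintro z ⟨c, i, h1, h2⟩
    exact ⟨c, i, hab.trans h1, h2⟩
  mul a b x y hx hy := by
    have h := Ideal.mul_mem_mul hx hy
    rw [pI, pI, Ideal.span_mul_span'] at h
    refine Ideal.span_mono ?_ h
    rintro z ⟨z1, ⟨c1, i1, h1, rfl⟩, z2, ⟨c2, i2, h2, rfl⟩, rfl⟩
    refine ⟨c1 + c2, i1 + i2, ?_, ?_⟩
    · calc a + b ≤ D * ((p - 1) * c1 + i1) + D * ((p - 1) * c2 + i2) := Nat.add_le_add h1 h2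
        _ = _ := by ring
    · simp only
      ring

theorem p_mem_pI (hD : 1 ≤ D) : (p : R) ∈ pI R p D τ (p - 1) := by
  refine Ideal.subset_span ⟨1, 0, ?_, by simp⟩
  rw [mul_one, add_zero]
  exact Nat.le_mul_of_pos_left _ hD

theorem tau_mem_pI : τ ∈ pI R p D τ D := by
  refine Ideal.subset_span ⟨0, 1, ?_, by simp⟩
  rw [mul_zero, zero_add, mul_one]

theorem dvd_tau_pow (hp : 1 ≤ p) (hτ : (p : R) * τ ∣ τ ^ p) (e : ℕ) :
    (p : R) ^ e * τ ∣ τ ^ ((p - 1) * e + 1) := by
  induction e with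
  | zero => simp
  | succ e ih =>
    obtain ⟨w, hw⟩ := ih
    obtain ⟨v, hv⟩ := hτ
    refine ⟨w * v, ?_⟩
    have h1 : (p - 1) * (e + 1) + 1 = (p - 1) * e + 1 + (p - 1) := by ring
    have h2 : τ * τ ^ (p - 1) = τ ^ p := by
      rw [← pow_succ']
      congr 1
      omega
    calc τ ^ ((p - 1) * (e + 1) + 1) = τ ^ ((p - 1) * e + 1) * τ ^ (p - 1) := by
          rw [h1, pow_add]
      _ = (p : R) ^ e * w * (τ * τ ^ (p - 1)) := by rw [hw]; ring
      _ = _ := by rw [h2, hv]; ring

theorem dvd_of_mem_pI (hp : 1 ≤ p) (hτ : (p : R) * τ ∣ τ ^ p) {e n : ℕ}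
    (hn : D * ((p - 1) * e) < n) {z : R} (hz : z ∈ pI R p D τ n) : (p : R) ^ e ∣ z := by
  have h : pI R p D τ n ≤ Ideal.span {(p : R) ^ e} := by
    refine Ideal.span_le.2 ?_
    rintro _ ⟨c, i, h1, rfl⟩
    rw [SetLike.mem_coe, Ideal.mem_span_singleton]
    have h2 : (p - 1) * e < (p - 1) * c + i := by
      by_contra hcon
      have := Nat.mul_le_mul_left D (Nat.not_lt.1 hcon)
      omega
    rcases Nat.lt_or_ge c e with h3 | h3
    · obtain ⟨b, rfl⟩ : ∃ b, e = c + b := ⟨e - c, by omega⟩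
      rw [mul_add] at h2
      rw [pow_add]
      refine mul_dvd_mul_left _ ?_
      have h4 := (Dvd.intro _ rfl : (p : R) ^ b ∣ (p : R) ^ b * τ).trans (dvd_tau_pow hp hτ b)
      exact h4.trans (pow_dvd_pow _ (by omega))
    · exact (pow_dvd_pow _ h3).mul_right _
  exact Ideal.mem_span_singleton.1 (h hz)

end

/-- The number of zeros of a map of degree at most `D` to `ZMod p`. -/
theorem dvd_card_zmod {p : ℕ} [Fact p.Prime] {N D e : ℕ} (hD : 1 ≤ D) (he : e * D < N)
    {h : (Fin N → ZMod p) → ZMod p} (hh : DegLE D h) :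
    p ^ e ∣ (Finset.univ.filter fun x => h x = 0).card := by
  classical
  have hp : p.Prime := Fact.out
  set T : AddMonoidAlgebra ℤ (ZMod p) := AddMonoidAlgebra.single 1 1 with hT
  have hTpow : ∀ n : ℕ, T ^ n = AddMonoidAlgebra.single (n : ZMod p) 1 := by
    intro n
    rw [hT, AddMonoidAlgebra.single_pow, one_pow, nsmul_eq_mul, mul_one]
  have hTp : T ^ p = 1 := by
    rw [hTpow, ZMod.natCast_self]
    rfl
  have hτ : ((p : ℕ) : AddMonoidAlgebra ℤ (ZMod p)) * (T - 1) ∣ (T - 1) ^ p := by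
    obtain ⟨r, hr⟩ := exists_add_pow_prime_eq hp (T - 1) (1 : AddMonoidAlgebra ℤ (ZMod p))
    rw [sub_add_cancel, hTp, one_pow] at hr
    refine ⟨-r, ?_⟩
    linear_combination (-1 : AddMonoidAlgebra ℤ (ZMod p)) * hr
  have hfilt : IsFilt (pI (AddMonoidAlgebra ℤ (ZMod p)) p D (T - 1)) := isFilt_pI
  set ex : ZMod p → AddMonoidAlgebra ℤ (ZMod p) := fun b => AddMonoidAlgebra.single b 1 with hex
  have hadd : ∀ a b, ex (a + b) = ex a * ex b := by
    intro a b
    simp only [hex]
    rw [AddMonoidAlgebra.single_mul_single, mul_one]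
  have hexI : ∀ a, ex a - 1 ∈ pI (AddMonoidAlgebra ℤ (ZMod p)) p D (T - 1) D := by
    intro a
    have h1 : ex a = T ^ a.val := by
      rw [hTpow, ZMod.natCast_zmod_val]
    obtain ⟨w, hw⟩ := sub_dvd_pow_sub_pow T 1 a.val
    rw [one_pow] at hw
    rw [h1, hw, mul_comm]
    exact Ideal.mul_mem_left _ _ tau_mem_pI
  have hgood := good_exp hfilt ex hadd hexI ((p - 1) * N) le_rfl hh
  rw [Nat.sub_self] at hgood
  have hgood2 : Good (pI (AddMonoidAlgebra ℤ (ZMod p)) p D (T - 1)) ((p - 1) * N) 0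
      (fun x => ex (h x)) := by
    have h1 := hgood.add (good_const (k := (p - 1) * N) (hfilt.zero 1))
    simpa using h1
  have hsum := Good.sum_pi hfilt (p_mem_pI hD) N hgood2
  rw [zero_add] at hsum
  have hp1 : 1 ≤ p - 1 := by
    have := hp.two_le
    omega
  obtain ⟨z, hz⟩ := dvd_of_mem_pI (e := e) hp.one_le hτ (by
    calc D * ((p - 1) * e) = (p - 1) * (e * D) := by ring
      _ < (p - 1) * N := Nat.mul_lt_mul_of_pos_left he (by omega)) hsum
  have h0 : (∑ x, ex (h x)).coeff 0 = ((Finset.univ.filter fun x => h x = 0).card : ℤ) := by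
    rw [AddMonoidAlgebra.coeff_sum, Finsupp.finsetSum_apply, Finset.card_filter, Nat.cast_sum]
    refine Finset.sum_congr rfl fun x _ => ?_
    simp only [hex, AddMonoidAlgebra.coeff_single, Finsupp.single_apply]
    split_ifs <;> simp
  have h1 : (((p : ℕ) : AddMonoidAlgebra ℤ (ZMod p)) ^ e * z).coeff 0 =
      (p : ℤ) ^ e * z.coeff 0 := by
    rw [← Nat.cast_pow, ← nsmul_eq_mul, AddMonoidAlgebra.coeff_smul_apply, nsmul_eq_mul,
      Nat.cast_pow]
  rw [hz, h1] at h0
  have h2 : ((p ^ e : ℕ) : ℤ) ∣ ((Finset.univ.filter fun x => h x = 0).card : ℤ) := by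
    rw [← h0, Nat.cast_pow]
    exact Dvd.intro _ rfl
  exact Int.natCast_dvd_natCast.1 h2

/-- The number of zeros of a map of degree at most `D` from a field to `ZMod p`. -/
theorem dvd_card_field {p : ℕ} [Fact p.Prime] {L : Type} [Field L] [Fintype L] [CharP L p]
    {N D e : ℕ} (hN : Fintype.card L = p ^ N) (hD : 1 ≤ D) (he : e * D < N) {h : L → ZMod p}
    (hh : DegLE D h) : p ^ e ∣ (Finset.univ.filter fun x => h x = 0).card := by
  classical
  have hp : p.Prime := Fact.out
  let _ : Algebra (ZMod p) L := ZMod.algebra L p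
  have hfr : Module.finrank (ZMod p) L = N := by
    have h1 := Module.card_eq_pow_finrank (K := ZMod p) (V := L)
    rw [ZMod.card, hN] at h1
    exact (Nat.pow_right_injective hp.two_le h1).symm
  subst hfr
  set φ := (Module.finBasis (ZMod p) L).equivFun with hφ
  have h1 := hh.comp_right (φ.symm.toLinearMap.toAddMonoidHom)
  have h2 := dvd_card_zmod hD he h1
  have h3 : (Finset.univ.filter fun x =>
      h (φ.symm.toLinearMap.toAddMonoidHom x) = 0).card =
      (Finset.univ.filter fun x => h x = 0).card := by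
    refine Finset.card_bij (fun x _ => φ.symm x) ?_ ?_ ?_
    · intro x hx
      rw [Finset.mem_filter] at hx ⊢
      exact ⟨Finset.mem_univ _, hx.2⟩
    · intro x _ y _ hxy
      exact φ.symm.injective hxy
    · intro y hy
      refine ⟨φ y, ?_, φ.symm_apply_apply y⟩
      rw [Finset.mem_filter] at hy ⊢
      refine ⟨Finset.mem_univ _, ?_⟩
      have h4 : φ.symm.toLinearMap.toAddMonoidHom (φ y) = y := φ.symm_apply_apply y
      rw [h4]
      exact hy.2
  rwa [h3] at h2

/-- The number of zeros of a map of degree at most `D` between fields. -/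
theorem dvd_card_zeros {p : ℕ} [Fact p.Prime] {K L : Type} [Field K] [Fintype K] [DecidableEq K]
    [CharP K p] [Field L] [Fintype L] [CharP L p] {s N D e : ℕ} (hs : Fintype.card K = p ^ s)
    (hN : Fintype.card L = p ^ N) (hD : 1 ≤ D) (he : (e + s - 1) * D < N) {f : L → K}
    (hf : DegLE D f) : p ^ e ∣ (Finset.univ.filter fun x => f x = 0).card := by
  classical
  have hp : p.Prime := Fact.out
  have hs1 : 1 ≤ s := by
    by_contra hcon
    have h0 : s = 0 := by omega
    rw [h0, pow_zero] at hs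
    have := Fintype.one_lt_card (α := K)
    omega
  let _ : Algebra (ZMod p) K := ZMod.algebra K p
  obtain ⟨φ, hφ⟩ : ∃ φ : Module.Dual (ZMod p) K, φ 1 ≠ 0 := by
    by_contra hcon
    push Not at hcon
    exact one_ne_zero ((Module.forall_dual_apply_eq_zero_iff (ZMod p) (1 : K)).1 hcon)
  -- the number of `t` with `φ (t * b) = 0`
  have hker : ∀ b : K, b ≠ 0 →
      (Finset.univ.filter fun t : K => φ (t * b) = 0).card = p ^ (s - 1) := by
    intro b hb
    set ψ : K →+ ZMod p := φ.toAddMonoidHom.comp (AddMonoidHom.mulRight b) with hψ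
    have hsurj : Function.Surjective ψ := by
      intro c
      refine ⟨(c * (φ 1)⁻¹) • b⁻¹, ?_⟩
      have h1 : ψ ((c * (φ 1)⁻¹) • b⁻¹) = φ (((c * (φ 1)⁻¹) • b⁻¹) * b) := rfl
      rw [h1, smul_mul_assoc, inv_mul_cancel₀ hb, map_smul, smul_eq_mul, mul_assoc,
        inv_mul_cancel₀ hφ, mul_one]
    have h1 := AddSubgroup.card_mul_index ψ.ker
    rw [AddSubgroup.index_ker, AddMonoidHom.range_eq_top.2 hsurj, Nat.card_eq_fintype_card
      (α := K), hs] at h1
    have h2 : Nat.card (⊤ : AddSubgroup (ZMod p)) = p := by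
      rw [AddSubgroup.card_top, Nat.card_zmod]
    have h3 : Nat.card ψ.ker = (Finset.univ.filter fun t : K => φ (t * b) = 0).card := by
      rw [Nat.card_eq_fintype_card, ← Fintype.card_coe]
      refine Fintype.card_congr (Equiv.subtypeEquivRight fun t => ?_)
      rw [Finset.mem_filter, AddMonoidHom.mem_ker]
      exact ⟨fun h => ⟨Finset.mem_univ _, h⟩, fun h => h.2⟩
    rw [h2, h3] at h1
    have h4 : p ^ s = p ^ (s - 1) * p := by
      rw [← pow_succ]
      congr 1
      omega
    rw [h4] at h1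
    exact Nat.eq_of_mul_eq_mul_right hp.pos h1
  set Z := (Finset.univ.filter fun x => f x = 0).card with hZ
  have hdouble : ∑ t : K, (Finset.univ.filter fun x => φ (t * f x) = 0).card =
      p ^ (s - 1) * ((p - 1) * Z + p ^ N) := by
    have h1 : ∑ t : K, (Finset.univ.filter fun x => φ (t * f x) = 0).card =
        ∑ x : L, (Finset.univ.filter fun t : K => φ (t * f x) = 0).card := by
      simp only [Finset.card_filter]
      rw [Finset.sum_comm]
    rw [h1]
    have h2 : ∀ x : L, (Finset.univ.filter fun t : K => φ (t * f x) = 0).card =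
        p ^ (s - 1) + (if f x = 0 then p ^ (s - 1) * (p - 1) else 0) := by
      intro x
      by_cases hx : f x = 0
      · rw [if_pos hx, hx]
        simp only [mul_zero, map_zero, Finset.filter_true, Finset.card_univ, hs]
        have h4 : p ^ s = p ^ (s - 1) * p := by
          rw [← pow_succ]
          congr 1
          omega
        have h5 : p = 1 + (p - 1) := by
          have := hp.pos
          omega
        rw [h4]
        conv_lhs => rw [h5]
        have h6 : 1 + (p - 1) - 1 = p - 1 := by omega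
        rw [← h5]
        nth_rewrite 2 [h5]
        rw [mul_add, mul_one]
      · rw [if_neg hx, add_zero]
        exact hker _ hx
    rw [Finset.sum_congr rfl fun x _ => h2 x, Finset.sum_add_distrib, Finset.sum_const,
      Finset.card_univ, hN, smul_eq_mul, ← Finset.sum_filter, Finset.sum_const, smul_eq_mul]
    rw [← hZ]
    ring
  have hdiv : p ^ (e + s - 1) ∣ ∑ t : K, (Finset.univ.filter fun x => φ (t * f x) = 0).card := by
    refine Finset.dvd_sum fun t _ => ?_
    exact dvd_card_field hN hD he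
      (hf.comp_left (φ.toAddMonoidHom.comp (AddMonoidHom.mulLeft t)))
  rw [hdouble] at hdiv
  have h1 : p ^ (e + s - 1) = p ^ (s - 1) * p ^ e := by
    rw [← pow_add]
    congr 1
    omega
  rw [h1] at hdiv
  have h2 := Nat.dvd_of_mul_dvd_mul_left (Nat.pow_pos hp.pos) hdiv
  have heN : e ≤ N := by
    have h3 : e + s - 1 ≤ (e + s - 1) * D := Nat.le_mul_of_pos_right _ hD
    omega
  have h3 := (Nat.dvd_add_left (pow_dvd_pow p heN)).1 h2
  have h4 : Nat.Coprime (p ^ e) (p - 1) := by
    apply Nat.Coprime.pow_left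
    rw [Nat.Prime.coprime_iff_not_dvd hp]
    intro h5
    have h6 := Nat.le_of_dvd (by have := hp.two_le; omega) h5
    have := hp.pos
    omega
  exact h4.dvd_of_dvd_mul_left h3

end Pool.Agent.Helper36.BCH
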