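import Mathlib

/-!
# Narrow-sense primitive BCH codes

`K` is a finite field with `q` elements, `L` an extension of `K` with `q ^ m` elements and `α` a
primitive element of `L`.  The length is `n = q ^ m - 1`.
-/

namespace Pool.Agent.Helper36.BCH

open Polynomial

/-- `g` is the generator polynomial of the code of designed distance `δ`: the monic polynomial of
least degree over `K` having `α, α ^ 2, ..., α ^ (δ - 1)` as zeros. -/
def IsGenerator {K L : Type} [Field K] [Field L] [Algebra K L] (α : L) (δ : ℕ) (g : K[X]) :
    Prop :=
  g.Monic ∧ (∀ j, 1 ≤ j → j < δ → aeval (α ^ j) g = 0) ∧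
    ∀ f : K[X], f.Monic → (∀ j, 1 ≤ j → j < δ → aeval (α ^ j) f = 0) →
      g.natDegree ≤ f.natDegree

/-- The weights of the nonzero codewords: the numbers of nonzero coefficients of the nonzero
polynomials of degree less than `n` which are divisible by `g`. -/
def weights {K : Type} [Field K] (n : ℕ) (g : K[X]) : Set ℕ :=
  {w | ∃ c : K[X], c ≠ 0 ∧ c.natDegree < n ∧ g ∣ c ∧ c.support.card = w}

/-- `d` is the true minimum distance of the narrow-sense primitive BCH code over `K` of length
`|L| - 1` and designed distance `δ`, defined with the primitive element `α` of `L`. -/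
def IsMinDist (K : Type) {L : Type} [Field K] [Field L] [Algebra K L] (α : L) (δ d : ℕ) :
    Prop :=
  ∃ g : K[X], IsGenerator α δ g ∧ IsLeast (weights (Nat.card L - 1) g) d

/-- `δ` is a Bose distance: `α ^ δ` is not a zero of the generator polynomial. -/
def IsBose (K : Type) {L : Type} [Field K] [Field L] [Algebra K L] (α : L) (δ : ℕ) : Prop :=
  ∃ g : K[X], IsGenerator α δ g ∧ aeval (α ^ δ) g ≠ 0

/-- `α` is a primitive element: every nonzero element of `L` is a power of `α`. -/
def IsPrimitiveElement {L : Type} [Field L] (α : L) : Prop :=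
  α ≠ 0 ∧ ∀ x : L, x ≠ 0 → ∃ k : ℕ, x = α ^ k

end Pool.Agent.Helper36.BCH
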