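import Pool.Agent.Helper36.BCH.Digits

/-!
# Functional degree
-/

namespace Pool.Agent.Helper36.BCH

/-- `f` has degree at most `d`: all its differences of order `d + 1` vanish. -/
def DegLE {A B : Type} [AddCommGroup A] [AddCommGroup B] : ℕ → (A → B) → Prop
  | 0, f => ∀ a x, f (x + a) = f x
  | d + 1, f => ∀ a, DegLE d (fwdDiff a f)

section

variable {A B C : Type} [AddCommGroup A] [AddCommGroup B] [AddCommGroup C]

theorem degLE_const (d : ℕ) (c : B) : DegLE d (fun _ : A => c) := by
  induction d generalizing c with
  | zero => exact fun _ _ => rfl
  | succ d ih =>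
    intro a
    rw [fwdDiff_const]
    exact ih 0

theorem DegLE.succ {d : ℕ} {f : A → B} (h : DegLE d f) : DegLE (d + 1) f := by
  induction d generalizing f with
  | zero =>
    intro a
    have h1 : fwdDiff a f = fun _ => 0 := by
      funext x
      rw [fwdDiff, h a x, sub_self]
    rw [h1]
    exact degLE_const 0 0
  | succ d ih => exact fun a => ih (h a)

theorem DegLE.mono {d e : ℕ} {f : A → B} (h : DegLE d f) (hde : d ≤ e) : DegLE e f := by
  induction hde with
  | refl => exact h
  | step _ ih => exact ih.succ

theorem DegLE.add {d : ℕ} {f g : A → B} (hf : DegLE d f) (hg : DegLE d g) :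
    DegLE d (fun x => f x + g x) := by
  induction d generalizing f g with
  | zero =>
    intro a x
    simp only [hf a x, hg a x]
  | succ d ih =>
    intro a
    have h1 : fwdDiff a (fun x => f x + g x) = fun x => fwdDiff a f x + fwdDiff a g x := by
      funext x
      simp only [fwdDiff]
      abel
    rw [h1]
    exact ih (hf a) (hg a)

theorem DegLE.sum {d : ℕ} {ι : Type} (s : Finset ι) {f : ι → A → B}
    (hf : ∀ i ∈ s, DegLE d (f i)) : DegLE d (fun x => ∑ i ∈ s, f i x) := by
  classical
  induction s using Finset.induction_on with
  | empty => simpa using degLE_const d (0 : B)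
  | insert a s ha ih =>
    have h1 : (fun x => ∑ i ∈ insert a s, f i x) = fun x => f a x + ∑ i ∈ s, f i x := by
      funext x
      rw [Finset.sum_insert ha]
    rw [h1]
    exact (hf a (Finset.mem_insert_self _ _)).add
      (ih fun i hi => hf i (Finset.mem_insert_of_mem hi))

theorem DegLE.comp_left {d : ℕ} {f : A → B} (hf : DegLE d f) (l : B →+ C) :
    DegLE d (fun x => l (f x)) := by
  induction d generalizing f with
  | zero =>
    intro a x
    simp only [hf a x]
  | succ d ih =>
    intro a
    have h1 : fwdDiff a (fun x => l (f x)) = fun x => l (fwdDiff a f x) := by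
      funext x
      simp only [fwdDiff, map_sub]
    rw [h1]
    exact ih (hf a)

theorem DegLE.of_comp_left {d : ℕ} {f : A → B} (l : B →+ C) (hl : Function.Injective l)
    (hf : DegLE d (fun x => l (f x))) : DegLE d f := by
  induction d generalizing f with
  | zero => exact fun a x => hl (hf a x)
  | succ d ih =>
    intro a
    apply ih
    have h1 : fwdDiff a (fun x => l (f x)) = fun x => l (fwdDiff a f x) := by
      funext x
      simp only [fwdDiff, map_sub]
    rw [← h1]
    exact hf a

theorem DegLE.comp_right {d : ℕ} {f : B → C} (hf : DegLE d f) (l : A →+ B) :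
    DegLE d (fun x => f (l x)) := by
  induction d generalizing f with
  | zero =>
    intro a x
    simp only [map_add, hf (l a) (l x)]
  | succ d ih =>
    intro a
    have h1 : fwdDiff a (fun x => f (l x)) = fun x => fwdDiff (l a) f (l x) := by
      funext x
      simp only [fwdDiff, map_add]
    rw [h1]
    exact ih (hf (l a))

theorem DegLE.translate {d : ℕ} {f : A → B} (hf : DegLE d f) (b : A) :
    DegLE d (fun x => f (x + b)) := by
  induction d generalizing f with
  | zero =>
    intro a x
    have h1 : x + a + b = x + b + a := by abel
    simp only [h1, hf a (x + b)]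
  | succ d ih =>
    intro a
    have h1 : fwdDiff a (fun x => f (x + b)) = fun x => fwdDiff a f (x + b) := by
      funext x
      simp only [fwdDiff]
      have h1 : x + a + b = x + b + a := by abel
      rw [h1]
    rw [h1]
    exact ih (hf a)

theorem degLE_addHom (l : A →+ B) : DegLE 1 (fun x => l x) := by
  intro a b x
  simp only [fwdDiff, map_add]
  abel

end

section

variable {A R : Type} [AddCommGroup A] [CommRing R]

theorem DegLE.mul {m n : ℕ} {f g : A → R} (hf : DegLE m f) (hg : DegLE n g) :
    DegLE (m + n) (fun x => f x * g x) := by
  induction hs : m + n generalizing m n f g with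
  | zero =>
    obtain ⟨rfl, rfl⟩ : m = 0 ∧ n = 0 := by omega
    intro a x
    simp only [hf a x, hg a x]
  | succ s ih =>
    rcases m with _ | m
    · have h1 : (fun x => f x * g x) = fun x => (AddMonoidHom.mulLeft (f 0)) (g x) := by
        funext x
        have h2 := hf x 0
        rw [zero_add] at h2
        rw [AddMonoidHom.coe_mulLeft, h2]
      rw [h1, ← hs, zero_add]
      exact hg.comp_left _
    · rcases n with _ | n
      · have h1 : (fun x => f x * g x) = fun x => (AddMonoidHom.mulRight (g 0)) (f x) := by
          funext x
          have h2 := hg x 0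
          rw [zero_add] at h2
          rw [AddMonoidHom.coe_mulRight, h2]
        rw [h1, ← hs, add_zero]
        exact hf.comp_left _
      · intro a
        have h1 : fwdDiff a (fun x => f x * g x) =
            fun x => fwdDiff a f x * g (x + a) + f x * fwdDiff a g x := by
          funext x
          simp only [fwdDiff]
          ring
        rw [h1]
        exact (ih (hf a) (hg.translate a) (by omega)).add (ih hf (hg a) (by omega))

theorem DegLE.pow {m : ℕ} {f : A → R} (hf : DegLE m f) (n : ℕ) :
    DegLE (m * n) (fun x => f x ^ n) := by
  induction n with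
  | zero => simpa using degLE_const 0 (1 : R)
  | succ n ih =>
    have h1 : (fun x => f x ^ (n + 1)) = fun x => f x ^ n * f x := by
      funext x
      rw [pow_succ]
    rw [h1, Nat.mul_succ]
    exact ih.mul hf

/-- The power map `x ↦ x ^ j` of a field of characteristic `p` has degree at most the digit sum of
`j` in base `p`. -/
theorem degLE_pow {L : Type} [Field L] {p : ℕ} [Fact p.Prime] [CharP L p] (j : ℕ) :
    DegLE (dsum p j) (fun x : L => x ^ j) := by
  have hp : 1 < p := (Fact.out : p.Prime).one_lt
  induction j using Nat.strong_induction_on with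
  | _ j ih =>
    rcases Nat.eq_zero_or_pos j with rfl | hj
    · simpa using degLE_const (A := L) (dsum p 0) (1 : L)
    · have h1 : (fun x : L => x ^ j) =
          fun x => x ^ (j % p) * (frobenius L p).toAddMonoidHom (x ^ (j / p)) := by
        funext x
        have h2 : (frobenius L p).toAddMonoidHom (x ^ (j / p)) = (x ^ (j / p)) ^ p := rfl
        rw [h2, ← pow_mul, ← pow_add, mul_comm, Nat.mod_add_div]
      rw [h1, dsum_step hp j]
      refine DegLE.mul ?_ ((ih (j / p) (Nat.div_lt_self hj hp)).comp_left _)
      have h3 := (degLE_addHom (AddMonoidHom.id L)).pow (j % p)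
      rw [one_mul] at h3
      exact h3

end

end Pool.Agent.Helper36.BCH
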