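import Mathlib

/-!
# Digit sums and cyclic shifts
-/

namespace Pool.Agent.Helper36.BCH

/-- The digit sum in base `p`. -/
def dsum (p n : ℕ) : ℕ := (Nat.digits p n).sum

theorem dsum_zero (p : ℕ) : dsum p 0 = 0 := by
  simp [dsum]

theorem dsum_step {p : ℕ} (hp : 1 < p) (n : ℕ) : dsum p n = n % p + dsum p (n / p) := by
  rcases Nat.eq_zero_or_pos n with rfl | hn
  · simp [dsum]
  · rw [dsum, Nat.digits_def' hp hn, List.sum_cons, dsum]

theorem dsum_one {p : ℕ} (hp : 1 < p) : dsum p 1 = 1 := by
  rw [dsum_step hp, Nat.mod_eq_of_lt hp, Nat.div_eq_of_lt hp, dsum_zero]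

theorem dsum_add_le {p : ℕ} (hp : 1 < p) (a b : ℕ) : dsum p (a + b) ≤ dsum p a + dsum p b := by
  induction hn : a + b using Nat.strong_induction_on generalizing a b with
  | _ n ih =>
    subst hn
    rcases Nat.eq_zero_or_pos a with rfl | ha
    · simp
    rcases Nat.eq_zero_or_pos b with rfl | hb
    · simp
    rw [dsum_step hp (a + b), dsum_step hp a, dsum_step hp b]
    have ha1 : a / p < a := Nat.div_lt_self ha hp
    have hb1 : b / p < b := Nat.div_lt_self hb hp
    by_cases h : a % p + b % p < p
    · have h1 : (a + b) % p = a % p + b % p := by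
        rw [Nat.add_mod, Nat.mod_eq_of_lt h]
      have h2 : (a + b) / p = a / p + b / p := by
        rw [Nat.add_div (by omega), if_neg (by omega), add_zero]
      rw [h1, h2]
      have := ih (a / p + b / p) (by omega) (a / p) (b / p) rfl
      omega
    · push Not at h
      have h0a := Nat.mod_lt a (by omega : 0 < p)
      have h0b := Nat.mod_lt b (by omega : 0 < p)
      have h1 : (a + b) % p = a % p + b % p - p := by
        rw [Nat.add_mod, Nat.mod_eq_sub_mod h, Nat.mod_eq_of_lt (by omega)]
      have h2 : (a + b) / p = a / p + b / p + 1 := by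
        rw [Nat.add_div (by omega), if_pos h]
      have h3 : (a + b) / p < a + b := Nat.div_lt_self (by omega) hp
      rw [h1, h2]
      have h4 := ih (a / p + b / p + 1) (by omega) (a / p + b / p) 1 rfl
      have h5 := ih (a / p + b / p) (by omega) (a / p) (b / p) rfl
      rw [dsum_one hp] at h4
      omega

theorem dsum_mul_add {p : ℕ} (hp : 1 < p) (a b : ℕ) (hb : b < p) :
    dsum p (p * a + b) = dsum p a + b := by
  rw [dsum_step hp, Nat.mul_add_mod, Nat.mod_eq_of_lt hb, Nat.mul_add_div (by omega),
    Nat.div_eq_of_lt hb, add_zero, add_comm]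

theorem dsum_pow_mul_add {p : ℕ} (hp : 1 < p) (k a b : ℕ) (hb : b < p ^ k) :
    dsum p (p ^ k * a + b) = dsum p a + dsum p b := by
  induction k generalizing b with
  | zero =>
    have : b = 0 := by simpa using hb
    subst this
    simp [dsum_zero]
  | succ k ih =>
    have h1 : b / p < p ^ k := by
      rw [Nat.div_lt_iff_lt_mul (by omega)]
      rwa [pow_succ] at hb
    have h2 : p ^ (k + 1) * a + b = p * (p ^ k * a + b / p) + b % p := by
      have := Nat.div_add_mod b p
      calc p ^ (k + 1) * a + b = p * (p ^ k * a) + (p * (b / p) + b % p) := by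
            rw [this, pow_succ]
            ring
        _ = p * (p ^ k * a + b / p) + b % p := by ring
    rw [h2, dsum_mul_add hp _ _ (Nat.mod_lt b (by omega)), ih _ h1, dsum_step hp b]
    omega

theorem dsum_pow {p : ℕ} (hp : 1 < p) (k : ℕ) : dsum p (p ^ k) = 1 := by
  have h := dsum_pow_mul_add hp k 1 0 (Nat.pow_pos (by omega))
  rw [mul_one, add_zero, dsum_zero, dsum_one hp] at h
  exact h

theorem dsum_pow_sub_one {p : ℕ} (hp : 1 < p) (m : ℕ) : dsum p (p ^ m - 1) = (p - 1) * m := by
  induction m with
  | zero => simp [dsum_zero]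
  | succ m ih =>
    have h1 : 0 < p ^ m := Nat.pow_pos (by omega)
    have h2 : p ^ (m + 1) - 1 = p * (p ^ m - 1) + (p - 1) := by
      have h3 : p * p ^ m = p ^ (m + 1) := by
        rw [pow_succ, mul_comm]
      have h4 : p * (p ^ m - 1) = p * p ^ m - p := by
        rw [Nat.mul_sub, mul_one]
      have h5 : p ≤ p * p ^ m := Nat.le_mul_of_pos_right _ h1
      omega
    rw [h2, dsum_mul_add hp _ _ (by omega), ih]
    ring

theorem le_dsum_of_dvd {p : ℕ} (hp : 1 < p) {m : ℕ} (e : ℕ) (he : 0 < e)
    (hdvd : p ^ m - 1 ∣ e) : (p - 1) * m ≤ dsum p e := by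
  rcases Nat.eq_zero_or_pos m with rfl | hm
  · simp
  have hpm : 1 < p ^ m := Nat.one_lt_pow (by omega) hp
  induction e using Nat.strong_induction_on with
  | _ e ih =>
    by_cases hlt : e < p ^ m
    · have h1 : e = p ^ m - 1 := by
        obtain ⟨c, hc⟩ := hdvd
        have hc0 : c ≠ 0 := by
          rintro rfl
          omega
        have : p ^ m - 1 ≤ e := by
          rw [hc]
          exact Nat.le_mul_of_pos_right _ (by omega)
        omega
      rw [h1, dsum_pow_sub_one hp]
    · push Not at hlt
      obtain ⟨a, b, hb, ha, hab⟩ : ∃ a b, b < p ^ m ∧ 1 ≤ a ∧ e = p ^ m * a + b :=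
        ⟨e / p ^ m, e % p ^ m, Nat.mod_lt _ (by omega), (Nat.one_le_div_iff (by omega)).2 hlt,
          (Nat.div_add_mod e (p ^ m)).symm⟩
      have h4 : dsum p e = dsum p a + dsum p b := by
        rw [hab]
        exact dsum_pow_mul_add hp m _ _ hb
      have h5 : e = a + b + (p ^ m - 1) * a := by
        have h6 : (p ^ m - 1) * a + a = p ^ m * a := by
          rw [Nat.sub_mul, one_mul, Nat.sub_add_cancel]
          exact Nat.le_mul_of_pos_left _ (by omega)
        omega
      have h6 : p ^ m - 1 ∣ a + b := by
        have h7 : p ^ m - 1 ∣ (p ^ m - 1) * a := dvd_mul_right _ _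
        rw [h5] at hdvd
        exact (Nat.dvd_add_left h7).1 hdvd
      have h7 : 0 < (p ^ m - 1) * a := Nat.mul_pos (by omega) (by omega)
      have h8 := ih (a + b) (by omega) (by omega) h6
      rw [h4]
      exact h8.trans (dsum_add_le hp _ _)

theorem dsum_sum_le {p : ℕ} (hp : 1 < p) {ι : Type} (s : Finset ι) (f : ι → ℕ) :
    dsum p (∑ i ∈ s, f i) ≤ ∑ i ∈ s, dsum p (f i) := by
  classical
  induction s using Finset.induction_on with
  | empty => simp [dsum_zero]
  | insert a s ha ih =>
    rw [Finset.sum_insert ha, Finset.sum_insert ha]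
    exact (dsum_add_le hp _ _).trans (Nat.add_le_add_left ih _)

theorem sum_shift {m : ℕ} {f : ℕ → ℕ} (hf : ∀ k, f (k + m) = f k) (c : ℕ) :
    ∑ k ∈ Finset.range m, f (k + c) = ∑ k ∈ Finset.range m, f k := by
  induction c with
  | zero => simp
  | succ c ih =>
    rw [← ih]
    have h1 := Finset.sum_range_succ (fun k => f (k + c)) m
    have h2 := Finset.sum_range_succ' (fun k => f (k + c)) m
    rw [h1] at h2
    have h3 : f (m + c) = f (0 + c) := by
      rw [add_comm m c, hf c, zero_add]
    have h4 : ∀ k, f (k + (c + 1)) = f (k + 1 + c) := fun k => by congr 1; ring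
    simp only [h4]
    omega

/-- If every cyclic shift (in base `q = p ^ s`) of `j` is less than
`q ^ (m - 1) + q ^ (m - k) + q ^ (m - 2 * k)`, then the digit sum of `j` is at most `m / k`. -/
theorem mul_dsum_le {p s q m k : ℕ} (hp : 1 < p) (hq : q = p ^ s) (hq1 : 1 < q) (hk : 2 ≤ k)
    (hm : 2 * k ≤ m) {j : ℕ} (hj : j < q ^ m - 1)
    (hrot : ∀ i, j * q ^ i % (q ^ m - 1) < q ^ (m - 1) + q ^ (m - k) + q ^ (m - 2 * k)) :
    k * dsum p j ≤ m := by
  set M := q ^ m - 1 with hM
  set r : ℕ → ℕ := fun i => j * q ^ i % M with hr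
  set t : ℕ → ℕ := fun i => q * r i / M with ht
  have hstep : ∀ i, q * r i = M * t i + r (i + 1) := by
    intro i
    have h1 : r (i + 1) = q * r i % M := by
      simp only [hr]
      rw [Nat.mul_mod_mod, pow_succ]
      congr 1
      ring
    rw [h1]
    exact (Nat.div_add_mod _ _).symm
  have hMp : q ^ m = M + 1 := by
    have : 0 < q ^ m := Nat.pow_pos (by omega)
    omega
  have hper : ∀ i, r (i + m) = r i := by
    intro i
    simp only [hr]
    rw [pow_add, ← mul_assoc, hMp, mul_add, mul_one, Nat.add_comm, mul_comm _ M,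
      Nat.add_mul_mod_self_left]
  have htper : ∀ i, t (i + m) = t i := fun i => by simp only [ht, hper]
  -- expansion
  have hexp : ∀ i n, q ^ n * r i =
      M * (∑ l ∈ Finset.range n, t (i + l) * q ^ (n - 1 - l)) + r (i + n) := by
    intro i n
    induction n with
    | zero => simp
    | succ n ih =>
      rw [pow_succ, Finset.sum_range_succ]
      have h1 : ∀ l ∈ Finset.range n,
          t (i + l) * q ^ (n + 1 - 1 - l) = t (i + l) * q ^ (n - 1 - l) * q := by
        intro l hl
        have := Finset.mem_range.1 hl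
        rw [mul_assoc, ← pow_succ]
        congr 2
        omega
      rw [Finset.sum_congr rfl h1, ← Finset.sum_mul, Nat.add_sub_cancel, Nat.sub_self, pow_zero,
        mul_one]
      have h2 := hstep (i + n)
      generalize (∑ l ∈ Finset.range n, t (i + l) * q ^ (n - 1 - l)) = Sg at ih ⊢
      calc q ^ n * q * r i
          = q * (q ^ n * r i) := by ring
        _ = q * (M * Sg + r (i + n)) := by
            rw [ih]
        _ = M * (Sg * q) + q * r (i + n) := by
            ring
        _ = M * (Sg * q) + (M * t (i + n) + r (i + n + 1)) := by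
            rw [h2]
        _ = _ := by
            rw [add_assoc i n 1]
            ring
  have hM0 : 0 < M := by omega
  have hjsum : j = ∑ i ∈ Finset.range m, t i * q ^ (m - 1 - i) := by
    have h1 := hexp 0 m
    have h0 : r 0 = j := by simp [hr, Nat.mod_eq_of_lt hj]
    have h2 : r (0 + m) = j := by rw [hper 0, h0]
    simp only [zero_add] at h1 h2
    rw [h2, h0, hMp, add_mul, one_mul] at h1
    have h3 : M * j = M * ∑ i ∈ Finset.range m, t i * q ^ (m - 1 - i) := by omega
    exact Nat.eq_of_mul_eq_mul_left hM0 h3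
  have hds : dsum p j ≤ ∑ i ∈ Finset.range m, t i := by
    conv_lhs => rw [hjsum]
    refine (dsum_sum_le hp _ _).trans ?_
    refine Finset.sum_le_sum fun i _ => ?_
    have h1 : ∀ n : ℕ, dsum p (n * q ^ (m - 1 - i)) ≤ n := by
      intro n
      induction n with
      | zero => simp [dsum_zero]
      | succ n ih =>
        rw [add_mul, one_mul]
        refine (dsum_add_le hp _ _).trans ?_
        rw [hq, ← pow_mul, dsum_pow hp, pow_mul, ← hq]
        omega
    exact h1 _
  -- the digits in `2 * k` consecutive positions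
  have hwin : ∀ i, ∑ l ∈ Finset.range (2 * k), t (i + l) * q ^ (2 * k - 1 - l) ≤
      q ^ (2 * k - 1) + q ^ k := by
    intro i
    have h1 := hexp i (2 * k)
    have hB : r i < q ^ (m - 1) + q ^ (m - k) + q ^ (m - 2 * k) := hrot i
    by_contra hcon
    push Not at hcon
    have h2 : M * (q ^ (2 * k - 1) + q ^ k + 1) ≤ q ^ (2 * k) * r i := by
      rw [h1]
      exact (Nat.mul_le_mul_left M hcon).trans (Nat.le_add_right _ _)
    have h3 : q ^ (2 * k) * (r i + 1) ≤ q ^ m * (q ^ (2 * k - 1) + q ^ k + 1) := by
      calc q ^ (2 * k) * (r i + 1)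
          ≤ q ^ (2 * k) * (q ^ (m - 1) + q ^ (m - k) + q ^ (m - 2 * k)) :=
            Nat.mul_le_mul_left _ hB
        _ = q ^ m * (q ^ (2 * k - 1) + q ^ k + 1) := by
            rw [mul_add, mul_add, mul_add, mul_add, mul_one, ← pow_add, ← pow_add, ← pow_add,
              ← pow_add, ← pow_add]
            congr 1
            · congr 1 <;> congr 1 <;> omega
            · congr 1
              omega
    have h4 : q ^ (2 * k - 1) + q ^ k + 1 < q ^ (2 * k) := by
      have h5 : 2 * q ^ (2 * k - 1) ≤ q ^ (2 * k) := by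
        have h6 : q ^ (2 * k) = q * q ^ (2 * k - 1) := by
          rw [← pow_succ']
          congr 1
          omega
        rw [h6]
        exact Nat.mul_le_mul_right _ (by omega)
      have h6 : 2 * q ^ k ≤ q ^ (2 * k - 1) := by
        calc 2 * q ^ k ≤ q * q ^ k := Nat.mul_le_mul_right _ (by omega)
          _ = q ^ (k + 1) := by rw [← pow_succ']
          _ ≤ q ^ (2 * k - 1) := Nat.pow_le_pow_right (by omega) (by omega)
      have h7 : 1 < q ^ k := Nat.one_lt_pow (by omega) hq1
      omega
    have h5 : M * (q ^ (2 * k - 1) + q ^ k + 1) + (q ^ (2 * k - 1) + q ^ k + 1) =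
        q ^ m * (q ^ (2 * k - 1) + q ^ k + 1) := by
      rw [hMp]
      ring
    have h6 : q ^ (2 * k) * (r i + 1) = q ^ (2 * k) * r i + q ^ (2 * k) := by ring
    omega
  have hqk : q ^ k < q ^ (2 * k - 1) := Nat.pow_lt_pow_right hq1 (by omega)
  -- consequences of `hwin`
  have hle : ∀ i l, l < 2 * k → t (i + l) * q ^ (2 * k - 1 - l) ≤ q ^ (2 * k - 1) + q ^ k := by
    intro i l hl
    refine le_trans ?_ (hwin i)
    exact Finset.single_le_sum (f := fun l => t (i + l) * q ^ (2 * k - 1 - l))
      (fun _ _ => Nat.zero_le _) (Finset.mem_range.2 hl)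
  have hone : ∀ i, t i ≤ 1 := by
    intro i
    by_contra hcon
    have h1 : 2 * q ^ (2 * k - 1) ≤ t i * q ^ (2 * k - 1) := Nat.mul_le_mul_right _ (by omega)
    have h2 := hle i 0 (by omega)
    rw [add_zero, Nat.sub_zero] at h2
    omega
  have hle2 : ∀ i l, 0 < l → l < 2 * k → t i = 1 →
      q ^ (2 * k - 1) + t (i + l) * q ^ (2 * k - 1 - l) ≤ q ^ (2 * k - 1) + q ^ k := by
    intro i l hl0 hl h1
    refine le_trans ?_ (hwin i)
    have h2 := Finset.sum_le_sum_of_subset (f := fun l => t (i + l) * q ^ (2 * k - 1 - l))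
      (s := {0, l}) (t := Finset.range (2 * k)) (by
        intro x hx
        rcases Finset.mem_insert.1 hx with rfl | hx
        · exact Finset.mem_range.2 (by omega)
        · rw [Finset.mem_singleton.1 hx]
          exact Finset.mem_range.2 hl)
    rw [Finset.sum_pair (by omega), add_zero, Nat.sub_zero, h1, one_mul] at h2
    exact h2
  have hle3 : ∀ i l, k - 1 < l → l < 2 * k → t i = 1 → t (i + (k - 1)) = 1 →
      q ^ (2 * k - 1) + (q ^ k + t (i + l) * q ^ (2 * k - 1 - l)) ≤ q ^ (2 * k - 1) + q ^ k := by
    intro i l hl0 hl h1 h1'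
    refine le_trans ?_ (hwin i)
    have h2 := Finset.sum_le_sum_of_subset (f := fun l => t (i + l) * q ^ (2 * k - 1 - l))
      (s := {0, k - 1, l}) (t := Finset.range (2 * k)) (by
        intro x hx
        rcases Finset.mem_insert.1 hx with rfl | hx
        · exact Finset.mem_range.2 (by omega)
        rcases Finset.mem_insert.1 hx with rfl | hx
        · exact Finset.mem_range.2 (by omega)
        · rw [Finset.mem_singleton.1 hx]
          exact Finset.mem_range.2 hl)
    have h3 : 2 * k - 1 - (k - 1) = k := by omega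
    rw [Finset.sum_insert (by
      intro hx
      rcases Finset.mem_insert.1 hx with hx | hx
      · omega
      · rw [Finset.mem_singleton] at hx
        omega), Finset.sum_pair (by omega), add_zero, Nat.sub_zero, h1, h1', one_mul, one_mul,
      h3] at h2
    exact h2
  have hz1 : ∀ i l, 0 < l → l < k - 1 → t i = 1 → t (i + l) = 0 := by
    intro i l hl0 hl h1
    have h2 := hle2 i l hl0 (by omega) h1
    by_contra hcon
    have h3 : q ^ k < q ^ (2 * k - 1 - l) := Nat.pow_lt_pow_right hq1 (by omega)
    have h4 : q ^ (2 * k - 1 - l) ≤ t (i + l) * q ^ (2 * k - 1 - l) :=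
      Nat.le_mul_of_pos_left _ (by omega)
    omega
  have hz2 : ∀ i l, k - 1 < l → l < 2 * k → t i = 1 → t (i + (k - 1)) = 1 → t (i + l) = 0 := by
    intro i l hl0 hl h1 h1'
    have h2 := hle3 i l hl0 hl h1 h1'
    by_contra hcon
    have h3 : 0 < q ^ (2 * k - 1 - l) := Nat.pow_pos (by omega)
    have h4 : q ^ (2 * k - 1 - l) ≤ t (i + l) * q ^ (2 * k - 1 - l) :=
      Nat.le_mul_of_pos_left _ (by omega)
    omega
  -- windows of length `k`
  set W : ℕ → ℕ := fun i => ∑ l ∈ Finset.range k, t (i + l) with hW
  have hW1 : ∀ i, t i = 1 → W i = 1 + t (i + (k - 1)) := by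
    intro i h1
    simp only [hW]
    obtain ⟨k', rfl⟩ : ∃ k', k = k' + 2 := ⟨k - 2, by omega⟩
    rw [Finset.sum_range_succ, Finset.sum_range_succ', add_zero, h1,
      Finset.sum_eq_zero (fun l hl => hz1 i (l + 1) (by omega) (by
        have := Finset.mem_range.1 hl
        omega) h1)]
    have h2 : k' + 2 - 1 = k' + 1 := by omega
    rw [h2]
  have hW0 : ∀ i, t i = 0 → W i ≤ 1 := by
    intro i h0
    by_cases hex : ∃ l, l < k ∧ t (i + l) ≠ 0
    · classical
      have hfind := Nat.find_spec hex
      set l0 := Nat.find hex with hl0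
      have hmin : ∀ l, l < l0 → t (i + l) = 0 := by
        intro l hl
        have h1 := Nat.find_min hex hl
        by_contra hcon
        exact h1 ⟨by omega, hcon⟩
      have hl0pos : 0 < l0 := by
        rcases Nat.eq_zero_or_pos l0 with h | h
        · exfalso
          apply hfind.2
          rw [h, add_zero]
          exact h0
        · exact h
      have h1 : t (i + l0) = 1 := by
        have := hone (i + l0)
        have := hfind.2
        omega
      simp only [hW]
      rw [Finset.sum_eq_single l0]
      · exact hone _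
      · intro l hl hne
        have hlk := Finset.mem_range.1 hl
        rcases Nat.lt_or_ge l l0 with h | h
        · exact hmin l h
        · have h2 := hz1 (i + l0) (l - l0) (by omega) (by omega) h1
          have h3 : i + l0 + (l - l0) = i + l := by omega
          rwa [h3] at h2
      · intro h
        exact absurd (Finset.mem_range.2 hfind.1) h
    · push Not at hex
      simp only [hW]
      rw [Finset.sum_eq_zero fun l hl => hex l (Finset.mem_range.1 hl)]
      omega
  have hWk : ∀ i, W i = 2 → W (i + k) = 0 := by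
    intro i h2
    have h1 : t i = 1 := by
      have h3 := hone i
      have h4 := hW0 i
      omega
    have h3 := hW1 i h1
    simp only [hW]
    refine Finset.sum_eq_zero fun l hl => ?_
    have hlk := Finset.mem_range.1 hl
    have h4 := hz2 i (k + l) (by omega) (by omega) h1 (by omega)
    rwa [← add_assoc] at h4
  have hW2 : ∀ i, W i ≤ 2 := by
    intro i
    have h3 := hone i
    have h4 := hW0 i
    have h5 := hone (i + (k - 1))
    have h6 := hW1 i
    omega
  have hsumW : ∑ i ∈ Finset.range m, W i = k * ∑ i ∈ Finset.range m, t i := by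
    simp only [hW]
    rw [Finset.sum_comm]
    have h1 : ∀ l ∈ Finset.range k, ∑ i ∈ Finset.range m, t (i + l) =
        ∑ i ∈ Finset.range m, t i := fun l _ => sum_shift htper l
    rw [Finset.sum_congr rfl h1, Finset.sum_const, Finset.card_range, smul_eq_mul]
  have hWper : ∀ i, W (i + m) = W i := by
    intro i
    simp only [hW]
    refine Finset.sum_congr rfl fun l _ => ?_
    have h1 : i + m + l = i + l + m := by ring
    rw [h1, htper]
  have s1 := sum_shift (m := m) (f := fun i => if W i = 0 then 1 else 0)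
    (fun i => by simp only [hWper]) k
  have s2 : ∑ i ∈ Finset.range m, (W i + if W i = 0 then 1 else 0) ≤
      ∑ i ∈ Finset.range m, (1 + if W (i + k) = 0 then 1 else 0) := by
    refine Finset.sum_le_sum fun i _ => ?_
    have h1 := hW2 i
    have h2 := hWk i
    rcases Nat.lt_or_ge (W i) 2 with h3 | h3
    · have h4 : W i + (if W i = 0 then 1 else 0) ≤ 1 := by
        split_ifs <;> omega
      omega
    · have h4 : W i = 2 := by omega
      rw [if_pos (h2 h4), h4, if_neg (by omega)]
  rw [Finset.sum_add_distrib, Finset.sum_add_distrib, s1] at s2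
  have s3 : ∑ i ∈ Finset.range m, 1 = m := by simp
  rw [s3, hsumW] at s2
  calc k * dsum p j ≤ k * ∑ i ∈ Finset.range m, t i := Nat.mul_le_mul_left _ hds
    _ ≤ m := by omega

end Pool.Agent.Helper36.BCH
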