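import Pool.Agent.Helper36.BCH.Basic

/-!
# The extended code
-/

namespace Pool.Agent.Helper36.BCH

open Polynomial

theorem sum_primitive {L : Type} [Field L] [Fintype L] {α : L} (hα : IsPrimitiveElement α)
    {M : Type} [AddCommMonoid M] (F : L → M) :
    ∑ x, F x = F 0 + ∑ i ∈ Finset.range (Fintype.card L - 1), F (α ^ i) := by
  classical
  obtain ⟨lg, hlg1, hlg2⟩ := exists_log hα
  rw [Nat.card_eq_fintype_card] at hlg1
  rw [← Finset.add_sum_erase Finset.univ F (Finset.mem_univ (0 : L))]
  congr 1
  refine Finset.sum_nbij' lg (fun i => α ^ i) ?_ ?_ ?_ ?_ ?_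
  · intro x hx
    exact Finset.mem_range.2 (hlg1 x (Finset.mem_erase.1 hx).1)
  · intro i _
    exact Finset.mem_erase.2 ⟨pow_ne_zero _ hα.1, Finset.mem_univ _⟩
  · intro x hx
    exact hlg2 x (Finset.mem_erase.1 hx).1
  · intro i hi
    have hi' := Finset.mem_range.1 hi
    rw [← Nat.card_eq_fintype_card] at hi' hlg1
    exact pow_inj_primitive hα (hlg1 _ (pow_ne_zero _ hα.1)) hi' (hlg2 _ (pow_ne_zero _ hα.1))
  · intro x hx
    rw [hlg2 x (Finset.mem_erase.1 hx).1]

/-- A minimum weight word of the extended code. -/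
theorem exists_ext {K L : Type} [Field K] [DecidableEq K] [Field L] [Fintype L] [Algebra K L]
    {α : L} (hα : IsPrimitiveElement α) {δ d : ℕ} (hδ : 2 ≤ δ) (hd : IsMinDist K α δ d) :
    ∃ f : L → K, (∀ j < δ, ∑ x, algebraMap K L (f x) * x ^ j = 0) ∧
      (Finset.univ.filter fun x => f x ≠ 0).card = d + 1 := by
  classical
  have hdδ := le_minDist hα hd
  obtain ⟨g, hg, ⟨c, hc0, hcdeg, hgc, hcard⟩, -⟩ := id hd
  rw [Nat.card_eq_fintype_card] at hcdeg
  set n := Fintype.card L - 1 with hn
  obtain ⟨lg, hlg1, hlg2⟩ := exists_log hα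
  rw [Nat.card_eq_fintype_card, ← hn] at hlg1
  have hlg : ∀ i, i < n → lg (α ^ i) = i := by
    intro i hi
    have h1 := hlg1 (α ^ i) (pow_ne_zero _ hα.1)
    rw [hn, ← Nat.card_eq_fintype_card] at h1 hi
    exact pow_inj_primitive hα h1 hi (hlg2 _ (pow_ne_zero _ hα.1))
  set f : L → K := fun x => if x = 0 then -∑ i ∈ Finset.range n, c.coeff i else
    c.coeff (lg x) with hf
  have hf0 : f 0 = -∑ i ∈ Finset.range n, c.coeff i := if_pos rfl
  have hfα : ∀ i, i < n → f (α ^ i) = c.coeff i := by
    intro i hi
    simp only [hf]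
    rw [if_neg (pow_ne_zero _ hα.1), hlg i hi]
  have hsums : ∀ j < δ, ∑ x, algebraMap K L (f x) * x ^ j = 0 := by
    intro j hj
    rw [sum_primitive hα]
    have h1 : ∑ i ∈ Finset.range n, algebraMap K L (f (α ^ i)) * (α ^ i) ^ j =
        aeval (α ^ j) c := by
      rw [aeval_eq_sum_range' hcdeg]
      refine Finset.sum_congr rfl fun i hi => ?_
      rw [hfα i (Finset.mem_range.1 hi), Algebra.smul_def, ← pow_mul, ← pow_mul, mul_comm i j]
    rw [← hn, h1]
    rcases Nat.eq_zero_or_pos j with rfl | hj0
    · rw [pow_zero, pow_zero, mul_one, hf0, aeval_eq_sum_range' hcdeg]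
      simp [Algebra.smul_def]
    · rw [zero_pow (by omega), mul_zero, zero_add]
      exact hg.aeval_of_dvd hgc hj0 hj
  have hcount : (Finset.univ.filter fun x => f x ≠ 0).card =
      (if f 0 ≠ 0 then 1 else 0) + d := by
    rw [Finset.card_filter, sum_primitive hα]
    congr 1
    rw [← hcard, ← hn]
    have h1 : c.support = (Finset.range n).filter fun i => c.coeff i ≠ 0 := by
      ext i
      rw [mem_support_iff, Finset.mem_filter, Finset.mem_range]
      refine ⟨fun h => ⟨?_, h⟩, fun h => h.2⟩
      exact lt_of_le_of_lt (le_natDegree_of_ne_zero h) hcdeg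
    rw [h1, Finset.card_filter]
    refine Finset.sum_congr rfl fun i hi => ?_
    rw [hfα i (Finset.mem_range.1 hi)]
  refine ⟨f, hsums, ?_⟩
  by_cases hf00 : f 0 = 0
  · exfalso
    rw [if_neg (by simpa using hf00), zero_add] at hcount
    have hne : (Finset.univ.filter fun x => f x ≠ 0).Nonempty := by
      rw [← Finset.card_pos]
      omega
    obtain ⟨a, ha⟩ := hne
    have ha' : f a ≠ 0 := (Finset.mem_filter.1 ha).2
    set f' : L → K := fun x => f (x + a) with hf'
    have hsums' : ∀ j < δ, ∑ x, algebraMap K L (f' x) * x ^ j = 0 := by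
      intro j hj
      have h1 : ∑ x, algebraMap K L (f' x) * x ^ j =
          ∑ y, algebraMap K L (f y) * (y + -a) ^ j := by
        rw [← Equiv.sum_comp (Equiv.addRight a)
          (fun y => algebraMap K L (f y) * (y + -a) ^ j)]
        refine Finset.sum_congr rfl fun x _ => ?_
        simp only [hf', Equiv.coe_addRight]
        congr 2
        ring
      rw [h1]
      simp only [add_pow, Finset.mul_sum]
      rw [Finset.sum_comm]
      refine Finset.sum_eq_zero fun k hk => ?_
      have h2 := hsums k (by
        have := Finset.mem_range.1 hk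
        omega)
      calc ∑ x, algebraMap K L (f x) * (x ^ k * (-a) ^ (j - k) * (j.choose k : L))
          = (∑ x, algebraMap K L (f x) * x ^ k) * ((-a) ^ (j - k) * (j.choose k : L)) := by
            rw [Finset.sum_mul]
            refine Finset.sum_congr rfl fun x _ => ?_
            ring
        _ = 0 := by rw [h2, zero_mul]
    have hf'0 : f' 0 ≠ 0 := by
      simp only [hf', zero_add]
      exact ha'
    have hcount' : (Finset.univ.filter fun x => f' x ≠ 0).card = d := by
      rw [← hcount]
      refine Finset.card_bij (fun x _ => x + a) ?_ ?_ ?_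
      · intro x hx
        rw [Finset.mem_filter] at hx ⊢
        exact ⟨Finset.mem_univ _, hx.2⟩
      · intro x _ y _ hxy
        exact add_right_cancel hxy
      · intro y hy
        refine ⟨y - a, ?_, sub_add_cancel _ _⟩
        rw [Finset.mem_filter] at hy ⊢
        refine ⟨Finset.mem_univ _, ?_⟩
        simp only [hf', sub_add_cancel]
        exact hy.2
    set S := (Finset.univ.filter fun x => f' x ≠ 0).erase 0 with hS
    have hScard : S.card = d - 1 := by
      have h0 : (0 : L) ∈ Finset.univ.filter fun x => f' x ≠ 0 :=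
        Finset.mem_filter.2 ⟨Finset.mem_univ _, hf'0⟩
      rw [hS, Finset.card_erase_of_mem h0, hcount']
    have hle := minDist_le hα hd S (by
      rw [← Finset.card_pos, hScard]
      omega) (by rw [hS]; exact Finset.notMem_erase _ _) f' (by
      intro x hx
      rw [hS, Finset.mem_erase, Finset.mem_filter] at hx
      exact hx.2.2) (by
      intro j h1 h2
      rw [← hsums' j h2]
      refine Finset.sum_subset (Finset.subset_univ _) fun x _ hx => ?_
      by_cases hx0 : x = 0
      · rw [hx0, zero_pow (by omega), mul_zero]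
      · have h3 : f' x = 0 := by
          by_contra hcon
          exact hx (by
            rw [hS]
            exact Finset.mem_erase.2 ⟨hx0, Finset.mem_filter.2 ⟨Finset.mem_univ _, hcon⟩⟩)
        rw [h3, map_zero, zero_mul])
    omega
  · rw [if_pos hf00] at hcount
    omega

end Pool.Agent.Helper36.BCH
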