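import Pool.Agent.Helper36.BCH.Subspace

/-!
# Balanced sets of prescribed sizes
-/

set_option linter.unusedSectionVars false

namespace Pool.Agent.Helper36.BCH

open Polynomial Module

theorem exists_primitiveRoot {F : Type} [Field F] [Fintype F] {d : ℕ}
    (hd : d ∣ Fintype.card F - 1) : ∃ ζ : F, IsPrimitiveRoot ζ d := by
  classical
  obtain ⟨g, hg⟩ := IsCyclic.exists_generator (α := Fˣ)
  have h1 : orderOf g = Fintype.card F - 1 := by
    rw [orderOf_eq_card_of_forall_mem_zpowers hg, Nat.card_eq_fintype_card, Fintype.card_units]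
  obtain ⟨e, he⟩ := hd
  have hpos : 0 < orderOf g := by
    rw [h1]
    have := Fintype.one_lt_card (α := F)
    omega
  have h2 : IsPrimitiveRoot (g ^ e) d := by
    refine (IsPrimitiveRoot.orderOf g).pow hpos ?_
    rw [h1, he, mul_comm]
  refine ⟨((g ^ e : Fˣ) : F), ?_⟩
  exact h2.map_of_injective (f := Units.coeHom F) Units.val_injective

theorem balanced_univ_self {K : Type} [Field K] [DecidableEq K] (A : Finset K) :
    Balanced K A := by
  have h := balanced_image_algebraMap (K := K) (L := K) A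
  have h2 : A.image (algebraMap K K) = A := by
    ext x
    simp
  rwa [h2] at h

/-- A subset of `K` consisting of `0` and `a` classes of the group of `d`-th roots of unity. -/
theorem exists_stable_subset {K : Type} [Field K] [Fintype K] [DecidableEq K] {ζ : K} {d : ℕ}
    (hd0 : 0 < d) (hζ : IsPrimitiveRoot ζ d) {a : ℕ}
    (ha : a * d ≤ Fintype.card K - 1) :
    ∃ A : Finset K, (0 : K) ∈ A ∧ (∀ z ∈ A, ζ * z ∈ A) ∧ A.card = 1 + a * d := by
  have hζK : ζ ∈ (algebraMap K K).range := ⟨ζ, rfl⟩
  have h1 := (balanced_univ_self (Finset.univ : Finset K)).powImage hd0 hζ hζK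
    (Finset.mem_univ 0) (fun z _ => Finset.mem_univ _)
  set T := (Finset.univ : Finset K).image (fun z => z ^ d) with hT
  have h0T : (0 : K) ∈ T := Finset.mem_image.2 ⟨0, Finset.mem_univ 0, zero_pow (by omega)⟩
  have hTc : a ≤ (T.erase 0).card := by
    rw [Finset.card_erase_of_mem h0T]
    have h2 := h1.2
    rw [Finset.card_univ] at h2
    have h3 : a * d ≤ (T.card - 1) * d := by omega
    exact Nat.le_of_mul_le_mul_right h3 hd0
  obtain ⟨B, hB, hBc⟩ := Finset.exists_subset_card_eq hTc
  have h0B : (0 : K) ∉ B := fun h => (Finset.mem_erase.1 (hB h)).1 rfl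
  set A := (Finset.univ : Finset K).filter (fun z => z ^ d ∈ insert (0 : K) B) with hA
  have h0A : (0 : K) ∈ A := by
    rw [hA, Finset.mem_filter]
    refine ⟨Finset.mem_univ 0, ?_⟩
    rw [zero_pow (by omega : d ≠ 0)]
    exact Finset.mem_insert_self _ _
  have hstA : ∀ z ∈ A, ζ * z ∈ A := by
    intro z hz
    rw [hA, Finset.mem_filter] at hz ⊢
    refine ⟨Finset.mem_univ _, ?_⟩
    rw [mul_pow, hζ.pow_eq_one, one_mul]
    exact hz.2
  refine ⟨A, h0A, hstA, ?_⟩
  have h4 := ((balanced_univ_self A).powImage hd0 hζ hζK h0A hstA).2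
  have h5 : A.image (fun z => z ^ d) = insert 0 B := by
    ext u
    rw [Finset.mem_image]
    constructor
    · rintro ⟨z, hz, rfl⟩
      rw [hA, Finset.mem_filter] at hz
      exact hz.2
    · intro hu
      have hu2 : u ∈ T := by
        rcases Finset.mem_insert.1 hu with h | h
        · rw [h]
          exact h0T
        · exact Finset.mem_of_mem_erase (hB h)
      obtain ⟨z, -, hz⟩ := Finset.mem_image.1 hu2
      refine ⟨z, ?_, hz⟩
      rw [hA, Finset.mem_filter]
      refine ⟨Finset.mem_univ _, ?_⟩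
      have hz' : z ^ d = u := hz
      rw [hz']
      exact hu
  rw [h5, Finset.card_insert_of_notMem h0B, hBc, Nat.add_sub_cancel] at h4
  omega

section

variable {F K L : Type} [Field F] [Field K] [Field L] [Fintype F] [Fintype K] [Fintype L]
  [Algebra F K] [Algebra K L] [Algebra F L] [IsScalarTower F K L] [DecidableEq K] [DecidableEq L]

/-- Preimages of subsets of `K`. -/
theorem exists_balanced_pre (A : Finset K) (h : ℕ)
    (hdim : A ⊆ {0} ∧ h ≤ finrank F L ∨ finrank F K + h ≤ finrank F L) :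
    ∃ V : Finset L, IsSub V ∧ V.card = Fintype.card F ^ h ∧
      (A.image (algebraMap K L)) ⊆ img V ∧
      (∀ z : F, ∀ t, (ann V).eval (algebraMap F L z * t) = algebraMap F L z * (ann V).eval t) ∧
      Balanced K (pre V (A.image (algebraMap K L))) ∧
      (pre V (A.image (algebraMap K L))).card = A.card * Fintype.card F ^ h := by
  have hU : ∃ U : Submodule F L, finrank F U + h ≤ finrank F L ∧
      ∀ x ∈ A, algebraMap K L x ∈ U := by
    rcases hdim with ⟨h1, h2⟩ | h1
    · refine ⟨⊥, by rw [finrank_bot]; omega, ?_⟩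
      intro x hx
      rw [Finset.mem_singleton.1 (h1 hx), map_zero]
      exact Submodule.zero_mem _
    · refine ⟨(Algebra.linearMap K L |>.restrictScalars F).range, ?_, ?_⟩
      · have h2 := LinearMap.finrank_range_le (Algebra.linearMap K L |>.restrictScalars F)
        omega
      · intro x _
        exact ⟨x, rfl⟩
  obtain ⟨U, hU1, hU2⟩ := hU
  obtain ⟨W, hW, hUW, hWc, ⟨k, hk⟩, hst⟩ := exists_sub U h hU1
  have hV := hW.isSub_img
  have hFpos : 0 < Fintype.card F := Fintype.card_pos
  have hVc : (img W).card = Fintype.card F ^ h := by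
    have h1 := hW.card_img_mul
    have h2 : (img W).card * W.card = Fintype.card F ^ h * W.card := by
      rw [h1, ← hWc, mul_comm]
    have h3 : 0 < W.card := Finset.card_pos.2 ⟨0, hW.1⟩
    exact Nat.eq_of_mul_eq_mul_right h3 h2
  have hsub : (A.image (algebraMap K L)) ⊆ img (img W) := by
    rw [hW.img_img]
    intro y hy
    obtain ⟨x, hx, rfl⟩ := Finset.mem_image.1 hy
    exact hUW _ (hU2 x hx)
  refine ⟨img W, hV, hVc, hsub, ?_, ?_, ?_⟩
  · exact eval_ann_smul hVc (fun z v hv => img_stable hk hst hW z hv) hV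
  · exact (balanced_image_algebraMap A).pre hV hsub
  · rw [card_pre hV hsub, Finset.card_image_of_injective _ (algebraMap K L).injective, hVc]

/-- The main family. -/
theorem exists_balanced_family {d a h : ℕ} (hd : d ∣ Fintype.card F - 1)
    (ha : a * d ≤ Fintype.card K - 1)
    (hdim : a = 0 ∧ h ≤ finrank F L ∨ finrank F K + h ≤ finrank F L) :
    ∃ S : Finset L, Balanced K S ∧
      S.card = a * Fintype.card F ^ h + (Fintype.card F ^ h - 1) / d + 1 := by
  have hF := Fintype.one_lt_card (α := F)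
  have hd0 : 0 < d := Nat.pos_of_dvd_of_pos hd (by omega)
  obtain ⟨ζF, hζF⟩ := exists_primitiveRoot hd
  have hζK : IsPrimitiveRoot (algebraMap F K ζF) d :=
    hζF.map_of_injective (algebraMap F K).injective
  have hζL : IsPrimitiveRoot (algebraMap F L ζF) d :=
    hζF.map_of_injective (algebraMap F L).injective
  have htower : algebraMap F L ζF = algebraMap K L (algebraMap F K ζF) :=
    IsScalarTower.algebraMap_apply F K L ζF
  obtain ⟨A, h0A, hstA, hAc⟩ := exists_stable_subset hd0 hζK ha
  have hdim' : A ⊆ {0} ∧ h ≤ finrank F L ∨ finrank F K + h ≤ finrank F L := by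
    rcases hdim with ⟨h1, h2⟩ | h1
    · left
      refine ⟨?_, h2⟩
      rw [h1, zero_mul, add_zero] at hAc
      obtain ⟨x, hx⟩ := Finset.card_eq_one.1 hAc
      rw [hx] at h0A ⊢
      rw [Finset.mem_singleton.1 h0A]
    · right
      exact h1
  obtain ⟨V, hV, hVc, hsub, hlin, hbal, hcard⟩ := exists_balanced_pre (F := F) A h hdim'
  set Z := pre V (A.image (algebraMap K L)) with hZ
  have h0Z : (0 : L) ∈ Z := by
    rw [hZ, mem_pre, hV.eval_zero, Finset.mem_image]
    exact ⟨0, h0A, map_zero _⟩
  have hstZ : ∀ z ∈ Z, algebraMap F L ζF * z ∈ Z := by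
    intro z hz
    rw [hZ, mem_pre, Finset.mem_image] at hz ⊢
    obtain ⟨x, hx, hx2⟩ := hz
    refine ⟨algebraMap F K ζF * x, hstA x hx, ?_⟩
    rw [hlin, map_mul, hx2, htower]
  obtain ⟨hS, hSc⟩ := hbal.powImage hd0 hζL ⟨algebraMap F K ζF, htower.symm⟩ h0Z hstZ
  refine ⟨_, hS, ?_⟩
  set c := (Z.image fun z => z ^ d).card with hc
  have hcpos : 0 < c := Finset.card_pos.2 ⟨0, Finset.mem_image.2 ⟨0, h0Z, zero_pow (by omega)⟩⟩
  rw [hcard, hAc] at hSc
  have hrpos : 0 < Fintype.card F ^ h := Nat.pow_pos (by omega)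
  have hdvd : d ∣ Fintype.card F ^ h - 1 := by
    refine hd.trans ?_
    have := Nat.sub_dvd_pow_sub_pow (Fintype.card F) 1 h
    rwa [one_pow] at this
  obtain ⟨e, he⟩ := hdvd
  have he2 : (Fintype.card F ^ h - 1) / d = e := by
    rw [he, Nat.mul_div_cancel_left _ hd0]
  rw [he2]
  have h6 : (c - 1) * d = (a * Fintype.card F ^ h + e) * d := by
    have h7 : (1 + a * d) * Fintype.card F ^ h =
        Fintype.card F ^ h + a * Fintype.card F ^ h * d := by ring
    have h8 : (a * Fintype.card F ^ h + e) * d = a * Fintype.card F ^ h * d + d * e := by ring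
    omega
  have h9 := Nat.eq_of_mul_eq_mul_right hd0 h6
  omega

end

end Pool.Agent.Helper36.BCH
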