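import Pool.Agent.Helper36.BCH.Ext

/-!
# The pigeonhole upper bound
-/

set_option linter.unusedSectionVars false

namespace Pool.Agent.Helper36.BCH

open Polynomial

section

variable {K L : Type} [Field K] [DecidableEq K] [Field L] [Fintype L] [Algebra K L]

/-- A nonzero word of the extended code bounds the minimum distance. -/
theorem word_le {α : L} (hα : IsPrimitiveElement α) {δ d : ℕ} (hδ : 2 ≤ δ)
    (hd : IsMinDist K α δ d) {f : L → K} {a : L} (ha : f a ≠ 0)
    (hf : ∀ j < δ, ∑ x, algebraMap K L (f x) * x ^ j = 0) :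
    d + 1 ≤ (Finset.univ.filter fun x => f x ≠ 0).card := by
  classical
  set f' : L → K := fun x => f (x + a) with hf'
  have hsums' : ∀ j < δ, ∑ x, algebraMap K L (f' x) * x ^ j = 0 := by
    intro j hj
    have h1 : ∑ x, algebraMap K L (f' x) * x ^ j =
        ∑ y, algebraMap K L (f y) * (y + -a) ^ j := by
      rw [← Equiv.sum_comp (Equiv.addRight a)
        (fun y => algebraMap K L (f y) * (y + -a) ^ j)]
      refine Finset.sum_congr rfl fun x _ => ?_
      simp only [hf', Equiv.coe_addRight]
      congr 2
      ring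
    rw [h1]
    simp only [add_pow, Finset.mul_sum]
    rw [Finset.sum_comm]
    refine Finset.sum_eq_zero fun k hk => ?_
    have h2 := hf k (by
      have := Finset.mem_range.1 hk
      omega)
    calc ∑ x, algebraMap K L (f x) * (x ^ k * (-a) ^ (j - k) * (j.choose k : L))
        = (∑ x, algebraMap K L (f x) * x ^ k) * ((-a) ^ (j - k) * (j.choose k : L)) := by
          rw [Finset.sum_mul]
          refine Finset.sum_congr rfl fun x _ => ?_
          ring
      _ = 0 := by rw [h2, zero_mul]
  have hf'0 : f' 0 ≠ 0 := by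
    simp only [hf', zero_add]
    exact ha
  have hcount' : (Finset.univ.filter fun x => f' x ≠ 0).card =
      (Finset.univ.filter fun x => f x ≠ 0).card := by
    refine Finset.card_bij (fun x _ => x + a) ?_ ?_ ?_
    · intro x hx
      rw [Finset.mem_filter] at hx ⊢
      exact ⟨Finset.mem_univ _, hx.2⟩
    · intro x _ y _ hxy
      exact add_right_cancel hxy
    · intro y hy
      refine ⟨y - a, ?_, sub_add_cancel _ _⟩
      rw [Finset.mem_filter] at hy ⊢
      refine ⟨Finset.mem_univ _, ?_⟩
      simp only [hf', sub_add_cancel]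
      exact hy.2
  rw [← hcount']
  have h0mem : (0 : L) ∈ Finset.univ.filter fun x => f' x ≠ 0 :=
    Finset.mem_filter.2 ⟨Finset.mem_univ _, hf'0⟩
  set S := (Finset.univ.filter fun x => f' x ≠ 0).erase 0 with hS
  have hScard : S.card + 1 = (Finset.univ.filter fun x => f' x ≠ 0).card :=
    Finset.card_erase_add_one h0mem
  have hSne : S.Nonempty := by
    by_contra hcon
    rw [Finset.not_nonempty_iff_eq_empty] at hcon
    have h1 := hsums' 0 (by omega)
    rw [Finset.sum_eq_single 0] at h1
    · rw [pow_zero, mul_one, map_eq_zero] at h1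
      exact hf'0 h1
    · intro x _ hx
      have h2 : f' x = 0 := by
        by_contra hne
        have h3 : x ∈ S := by
          rw [hS]
          exact Finset.mem_erase.2 ⟨hx, Finset.mem_filter.2 ⟨Finset.mem_univ _, hne⟩⟩
        rw [hcon] at h3
        exact absurd h3 (Finset.notMem_empty x)
      rw [h2, map_zero, zero_mul]
    · intro h
      exact absurd (Finset.mem_univ _) h
  have hle := minDist_le hα hd S hSne (by rw [hS]; exact Finset.notMem_erase _ _) f' (by
    intro x hx
    rw [hS, Finset.mem_erase, Finset.mem_filter] at hx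
    exact hx.2.2) (by
    intro j h1 h2
    rw [← hsums' j h2]
    refine Finset.sum_subset (Finset.subset_univ _) fun x _ hx => ?_
    by_cases hx0 : x = 0
    · rw [hx0, zero_pow (by omega), mul_zero]
    · have h3 : f' x = 0 := by
        by_contra hcon
        exact hx (by
          rw [hS]
          exact Finset.mem_erase.2 ⟨hx0, Finset.mem_filter.2 ⟨Finset.mem_univ _, hcon⟩⟩)
      rw [h3, map_zero, zero_mul])
  omega

/-- The number of `j < δ` with `j ≥ 1` which are not divisible by `q`. -/
theorem card_not_dvd (q δ : ℕ) (hδ : 1 ≤ δ) :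
    ((Finset.Ico 1 δ).filter fun j => ¬ q ∣ j).card = δ - 1 - (δ - 1) / q := by
  have h1 := Finset.card_filter_add_card_filter_not (s := Finset.Ico 1 δ) (fun j : ℕ => q ∣ j)
  rw [Nat.card_Ico] at h1
  have h2 : ((Finset.Ico 1 δ).filter fun j => q ∣ j).card = (δ - 1) / q := by
    rw [← Nat.Ioc_filter_dvd_card_eq_div (δ - 1) q]
    congr 1
  omega

theorem pow_lt_choose {Q t : ℕ} (ht : 1 ≤ t) (htQ : t ≤ Q) (hQ : t ^ t < Q) :
    Q ^ (t - 1) < Q.choose t := by
  have h1 : Q ^ t * t.factorial ≤ t ^ t * Q.descFactorial t := by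
    rw [← Nat.descFactorial_self t, Nat.descFactorial_eq_prod_range,
      Nat.descFactorial_eq_prod_range]
    have e1 : Q ^ t = ∏ _i ∈ Finset.range t, Q := by simp
    have e2 : t ^ t = ∏ _i ∈ Finset.range t, t := by simp
    rw [e1, e2, ← Finset.prod_mul_distrib, ← Finset.prod_mul_distrib]
    refine Finset.prod_le_prod' fun i hi => ?_
    rw [Nat.mul_sub, Nat.mul_sub, mul_comm t Q]
    have h2 : t * i ≤ Q * i := Nat.mul_le_mul_right _ htQ
    omega
  rw [Nat.descFactorial_eq_factorial_mul_choose] at h1
  have h2 : Q ^ t ≤ t ^ t * Q.choose t := by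
    have h3 : t.factorial * Q ^ t ≤ t.factorial * (t ^ t * Q.choose t) := by
      calc t.factorial * Q ^ t = Q ^ t * t.factorial := mul_comm _ _
        _ ≤ t ^ t * (t.factorial * Q.choose t) := h1
        _ = _ := by ring
    exact Nat.le_of_mul_le_mul_left h3 (Nat.factorial_pos t)
  have hpos : 0 < t ^ t := Nat.pow_pos (by omega)
  have hQpos : 0 < Q ^ (t - 1) := Nat.pow_pos (by omega)
  have h4 : Q ^ t = Q * Q ^ (t - 1) := by
    rw [← pow_succ']
    congr 1
    omega
  rw [h4] at h2
  have h5 : t ^ t * Q ^ (t - 1) < t ^ t * Q.choose t :=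
    lt_of_lt_of_le (Nat.mul_lt_mul_of_pos_right hQ hQpos) h2
  exact Nat.lt_of_mul_lt_mul_left h5

/-- The pigeonhole upper bound, a generalization of a theorem of Farr on binary codes. -/
theorem pigeonhole_upper [Fintype K] {α : L} (hα : IsPrimitiveElement α) {δ d : ℕ}
    (hδ : 2 ≤ δ) (hd : IsMinDist K α δ d) {R : ℕ}
    (hR : R = δ - 1 - (δ - 1) / Fintype.card K) (hL : (R + 1) ^ (R + 1) < Fintype.card L) :
    d ≤ 2 * R + 1 := by
  classical
  set q := Fintype.card K with hq
  have hq1 : 1 < q := Fintype.one_lt_card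
  set J := (Finset.Ico 1 δ).filter fun j => ¬ q ∣ j with hJ
  have hJc : J.card = R := by rw [hJ, card_not_dvd q δ (by omega), hR]
  have htQ : R + 1 ≤ Fintype.card L := by
    have : R + 1 ≤ (R + 1) ^ (R + 1) := Nat.le_self_pow (by omega) _
    omega
  -- the syndromes
  set σ : Finset L → (J → L) := fun A j => ∑ x ∈ A, x ^ (j : ℕ) with hσ
  have hpig : Fintype.card (J → L) * 1 <
      ((Finset.univ : Finset L).powersetCard (R + 1)).card := by
    rw [Finset.card_powersetCard, Finset.card_univ, Fintype.card_fun, Fintype.card_coe, hJc,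
      mul_one]
    exact pow_lt_choose (by omega) htQ hL
  obtain ⟨A, hA, B, hB, hAB, hσAB⟩ := Finset.exists_ne_map_eq_of_card_lt_of_maps_to
    (s := (Finset.univ : Finset L).powersetCard (R + 1)) (t := Finset.univ) (f := σ) (by
      rw [Finset.card_univ]
      omega) (fun _ _ => Finset.mem_univ _)
  have hAc := (Finset.mem_powersetCard.1 hA).2
  have hBc := (Finset.mem_powersetCard.1 hB).2
  -- equality of all power sums
  have hpow : ∀ j, j < δ → ∑ x ∈ A, x ^ j = ∑ x ∈ B, x ^ j := by
    intro j
    induction j using Nat.strong_induction_on with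
    | _ j ih =>
      intro hj
      rcases Nat.eq_zero_or_pos j with rfl | hj0
      · simp [hAc, hBc]
      by_cases hdvd : q ∣ j
      · obtain ⟨u, rfl⟩ := hdvd
        have hu : u < q * u := by
          have hu0 : 0 < u := Nat.pos_of_mul_pos_left hj0 |> fun _ => by
            rcases Nat.eq_zero_or_pos u with h | h
            · rw [h, mul_zero] at hj0
              omega
            · exact h
          have : 2 * u ≤ q * u := Nat.mul_le_mul_right _ hq1
          omega
        have h1 := ih u hu (by omega)
        have h2 : ∀ C : Finset L, ∑ x ∈ C, x ^ (q * u) = (∑ x ∈ C, x ^ u) ^ q := by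
          intro C
          have h3 : ∀ z : L, z ^ q = FiniteField.frobeniusAlgHom K L z := fun _ => rfl
          rw [h3, map_sum]
          refine Finset.sum_congr rfl fun x _ => ?_
          rw [← h3, ← pow_mul, mul_comm]
        rw [h2, h2, h1]
      · have hjJ : j ∈ J := Finset.mem_filter.2 ⟨Finset.mem_Ico.2 ⟨hj0, hj⟩, hdvd⟩
        exact congrFun hσAB ⟨j, hjJ⟩
  set f : L → K := fun x => (if x ∈ A then 1 else 0) - (if x ∈ B then 1 else 0) with hf
  have hfsum : ∀ j < δ, ∑ x, algebraMap K L (f x) * x ^ j = 0 := by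
    intro j hj
    have h1 : ∀ C : Finset L, ∑ x, algebraMap K L (if x ∈ C then 1 else 0) * x ^ j =
        ∑ x ∈ C, x ^ j := by
      intro C
      rw [← Finset.sum_subset (Finset.subset_univ C)]
      · refine Finset.sum_congr rfl fun x hx => ?_
        rw [if_pos hx, map_one, one_mul]
      · intro x _ hx
        rw [if_neg hx, map_zero, zero_mul]
    simp only [hf, map_sub, sub_mul]
    rw [Finset.sum_sub_distrib, h1, h1, hpow j hj, sub_self]
  obtain ⟨a, haA, haB⟩ : ∃ a ∈ A, a ∉ B := by
    by_contra hcon
    push Not at hcon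
    exact hAB (Finset.eq_of_subset_of_card_le hcon (by rw [hAc, hBc]))
  have hfa : f a ≠ 0 := by
    simp only [hf]
    rw [if_pos haA, if_neg haB, sub_zero]
    exact one_ne_zero
  have h1 := word_le hα hδ hd hfa hfsum
  have h2 : (Finset.univ.filter fun x => f x ≠ 0).card ≤ (A ∪ B).card := by
    refine Finset.card_le_card fun x hx => ?_
    rw [Finset.mem_union]
    by_contra hcon
    push Not at hcon
    apply (Finset.mem_filter.1 hx).2
    simp only [hf]
    rw [if_neg hcon.1, if_neg hcon.2, sub_zero]
  have h3 := Finset.card_union_le A B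
  omega

end

end Pool.Agent.Helper36.BCH
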