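import Pool.Agent.Helper36.BCH.Degree

/-!
# Differences of exponentials, and sums over elementary abelian groups
-/

namespace Pool.Agent.Helper36.BCH

/-- A decreasing multiplicative filtration by ideals. -/
structure IsFilt {R : Type} [CommRing R] (I : ℕ → Ideal R) : Prop where
  zero : ∀ x, x ∈ I 0
  anti : ∀ a b, a ≤ b → I b ≤ I a
  mul : ∀ a b x y, x ∈ I a → y ∈ I b → x * y ∈ I (a + b)

/-- The differences of order `j ≤ k` of `u` are in `I (w + j)`. -/
def Good {R A : Type} [CommRing R] [AddCommGroup A] (I : ℕ → Ideal R) :
    ℕ → ℕ → (A → R) → Prop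
  | 0, w, u => ∀ x, u x ∈ I w
  | k + 1, w, u => (∀ x, u x ∈ I w) ∧ ∀ a, Good I k (w + 1) (fwdDiff a u)

section

variable {R A B : Type} [CommRing R] [AddCommGroup A] [AddCommGroup B] {I : ℕ → Ideal R}

theorem Good.val {k w : ℕ} {u : A → R} (h : Good I k w u) (x : A) : u x ∈ I w := by
  cases k with
  | zero => exact h x
  | succ k => exact h.1 x

theorem Good.mono (hI : IsFilt I) {k w v : ℕ} {u : A → R} (h : Good I k w u) (hv : v ≤ w) :
    Good I k v u := by
  induction k generalizing v w u with
  | zero => exact fun x => hI.anti _ _ hv (h x)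
  | succ k ih =>
    exact ⟨fun x => hI.anti _ _ hv (h.1 x), fun a => ih (h.2 a) (by omega)⟩

theorem Good.pred {k w : ℕ} {u : A → R} (h : Good I (k + 1) w u) : Good I k w u := by
  induction k generalizing w u with
  | zero => exact fun x => h.1 x
  | succ k ih => exact ⟨h.1, fun a => ih (h.2 a)⟩

theorem Good.le {k l w : ℕ} {u : A → R} (h : Good I k w u) (hl : l ≤ k) : Good I l w u := by
  induction hl with
  | refl => exact h
  | step _ ih => exact ih h.pred

theorem good_zero (k w : ℕ) : Good I k w (fun _ : A => (0 : R)) := by
  induction k generalizing w with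
  | zero => exact fun _ => (I w).zero_mem
  | succ k ih =>
    refine ⟨fun _ => (I w).zero_mem, fun a => ?_⟩
    rw [fwdDiff_const]
    exact ih _

theorem good_const {k w : ℕ} {c : R} (hc : c ∈ I w) : Good I k w (fun _ : A => c) := by
  cases k with
  | zero => exact fun _ => hc
  | succ k =>
    refine ⟨fun _ => hc, fun a => ?_⟩
    rw [fwdDiff_const]
    exact good_zero _ _

theorem Good.add {k w : ℕ} {u v : A → R} (hu : Good I k w u) (hv : Good I k w v) :
    Good I k w (fun x => u x + v x) := by
  induction k generalizing w u v with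
  | zero => exact fun x => (I w).add_mem (hu x) (hv x)
  | succ k ih =>
    refine ⟨fun x => (I w).add_mem (hu.1 x) (hv.1 x), fun a => ?_⟩
    have h1 : fwdDiff a (fun x => u x + v x) = fun x => fwdDiff a u x + fwdDiff a v x := by
      funext x
      simp only [fwdDiff]
      ring
    rw [h1]
    exact ih (hu.2 a) (hv.2 a)

theorem Good.sum {k w : ℕ} {ι : Type} (s : Finset ι) {u : ι → A → R}
    (hu : ∀ i ∈ s, Good I k w (u i)) : Good I k w (fun x => ∑ i ∈ s, u i x) := by
  classical
  induction s using Finset.induction_on with
  | empty => simpa using good_zero (I := I) (A := A) k w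
  | insert a s ha ih =>
    have h1 : (fun x => ∑ i ∈ insert a s, u i x) = fun x => u a x + ∑ i ∈ s, u i x := by
      funext x
      rw [Finset.sum_insert ha]
    rw [h1]
    exact (hu a (Finset.mem_insert_self _ _)).add
      (ih fun i hi => hu i (Finset.mem_insert_of_mem hi))

theorem Good.comp_right {k w : ℕ} {u : B → R} (hu : Good I k w u) (l : A →+ B) (b : B) :
    Good I k w (fun x => u (l x + b)) := by
  induction k generalizing w u with
  | zero => exact fun x => hu _
  | succ k ih =>
    refine ⟨fun x => hu.1 _, fun a => ?_⟩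
    have h1 : fwdDiff a (fun x => u (l x + b)) = fun x => fwdDiff (l a) u (l x + b) := by
      funext x
      simp only [fwdDiff, map_add]
      have h2 : l x + l a + b = l x + b + l a := by abel
      rw [h2]
    rw [h1]
    exact ih (hu.2 (l a))

theorem Good.translate {k w : ℕ} {u : A → R} (hu : Good I k w u) (b : A) :
    Good I k w (fun x => u (x + b)) :=
  hu.comp_right (AddMonoidHom.id A) b

theorem Good.mul (hI : IsFilt I) {k w w' : ℕ} {u v : A → R} (hu : Good I k w u)
    (hv : Good I k w' v) : Good I k (w + w') (fun x => u x * v x) := by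
  induction k generalizing w w' u v with
  | zero => exact fun x => hI.mul _ _ _ _ (hu x) (hv x)
  | succ k ih =>
    refine ⟨fun x => hI.mul _ _ _ _ (hu.1 x) (hv.1 x), fun a => ?_⟩
    have h1 : fwdDiff a (fun x => u x * v x) =
        fun x => fwdDiff a u x * v (x + a) + u x * fwdDiff a v x := by
      funext x
      simp only [fwdDiff]
      ring
    rw [h1]
    refine Good.add ?_ ?_
    · exact (ih (hu.2 a) (hv.pred.translate a)).mono hI (by omega)
    · exact (ih hu.pred (hv.2 a)).mono hI (by omega)

/-- Exponentials of maps of degree at most `D`. -/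
theorem good_exp (hI : IsFilt I) {D : ℕ} (e : B → R)
    (eadd : ∀ a b, e (a + b) = e a * e b) (eI : ∀ a, e a - 1 ∈ I D) (k : ℕ) {d : ℕ}
    (hd : d ≤ D) {h : A → B} (hh : DegLE d h) :
    Good I k (D - d) (fun x => e (h x) - 1) := by
  induction k generalizing d h with
  | zero => exact fun x => hI.anti _ _ (by omega) (eI _)
  | succ k ih =>
    refine ⟨fun x => hI.anti _ _ (by omega) (eI _), fun a => ?_⟩
    rcases d with _ | d
    · have h1 : fwdDiff a (fun x => e (h x) - 1) = fun _ => 0 := by
        funext x
        simp only [fwdDiff]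
        rw [hh a x, sub_self]
      rw [h1]
      exact good_zero _ _
    · have h1 : fwdDiff a (fun x => e (h x) - 1) =
          fun x => ((e (h x) - 1) + 1) * (e (fwdDiff a h x) - 1) := by
        funext x
        simp only [fwdDiff]
        have h2 : e (h (x + a)) = e (h x) * e (h (x + a) - h x) := by
          rw [← eadd]
          congr 1
          abel
        rw [h2]
        ring
      rw [h1]
      have h2 : Good I k 0 (fun x => (e (h x) - 1) + 1) :=
        ((ih hd hh).mono hI (Nat.zero_le _)).add (good_const (hI.zero 1))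
      have h3 := ih (d := d) (by omega) (hh a)
      exact (h2.mul hI h3).mono hI (by omega)

/-- The sum over the translates by the multiples of `a`. -/
theorem Good.sum_line (hI : IsFilt I) {p : ℕ} (hp : p.Prime) (hpI : (p : R) ∈ I (p - 1))
    {k w : ℕ} {u : A → R} (hu : Good I (k + (p - 1)) w u) (a : A) :
    Good I k (w + (p - 1)) (fun x => ∑ i ∈ Finset.range p, u (x + i • a)) := by
  have hiter : ∀ j, j ≤ p - 1 → Good I (k + (p - 1) - j) (w + j) ((fwdDiff a)^[j] u) := by
    intro j
    induction j with
    | zero => exact fun _ => hu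
    | succ j ih =>
      intro hj
      have h1 := ih (by omega)
      have h2 : k + (p - 1) - j = k + (p - 1) - (j + 1) + 1 := by omega
      rw [h2] at h1
      rw [Function.iterate_succ_apply']
      exact h1.2 a
  have hp0 := hp.pos
  have h1 : (fun x => ∑ i ∈ Finset.range p, u (x + i • a)) =
      fun x => (∑ j ∈ Finset.range (p - 1), ((p.choose (j + 1) : ℕ) : R) *
        (fwdDiff a)^[j] u x) + (fwdDiff a)^[p - 1] u x := by
    funext x
    have h2 : ∀ i ∈ Finset.range p, u (x + i • a) =
        ∑ j ∈ Finset.range p, ((i.choose j : ℕ) : R) * (fwdDiff a)^[j] u x := by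
      intro i hi
      rw [shift_eq_sum_fwdDiff_iter a u i x]
      have h3 : Finset.range (i + 1) ⊆ Finset.range p := by
        intro y hy
        have := Finset.mem_range.1 hy
        have := Finset.mem_range.1 hi
        exact Finset.mem_range.2 (by omega)
      rw [← Finset.sum_subset h3]
      · refine Finset.sum_congr rfl fun j _ => ?_
        rw [nsmul_eq_mul]
      · intro j _ hj
        have h4 : i < j := by
          by_contra hcon
          exact hj (Finset.mem_range.2 (by omega))
        rw [Nat.choose_eq_zero_of_lt h4, Nat.cast_zero, zero_mul]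
    rw [Finset.sum_congr rfl h2, Finset.sum_comm]
    have h3 : ∀ j ∈ Finset.range p, ∑ i ∈ Finset.range p,
        ((i.choose j : ℕ) : R) * (fwdDiff a)^[j] u x =
        ((p.choose (j + 1) : ℕ) : R) * (fwdDiff a)^[j] u x := by
      intro j _
      rw [← Finset.sum_mul, ← Nat.cast_sum]
      congr 2
      have h5 : ∀ n : ℕ, ∑ i ∈ Finset.range n, i.choose j = n.choose (j + 1) := by
        intro n
        induction n with
        | zero => simp
        | succ n ih =>
          rw [Finset.sum_range_succ, ih, Nat.choose_succ_succ', add_comm]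
      exact h5 p
    rw [Finset.sum_congr rfl h3]
    obtain ⟨p', rfl⟩ : ∃ p', p = p' + 1 := ⟨p - 1, by omega⟩
    rw [Finset.sum_range_succ, Nat.choose_self, Nat.cast_one, one_mul, Nat.add_sub_cancel]
  rw [h1]
  refine Good.add (Good.sum _ fun j hj => ?_) ?_
  · have hjp := Finset.mem_range.1 hj
    have h2 : ((p.choose (j + 1) : ℕ) : R) ∈ I (p - 1) := by
      obtain ⟨c, hc⟩ := hp.dvd_choose_self (k := j + 1) (by omega) (by omega)
      rw [hc, Nat.cast_mul, mul_comm]
      exact (I (p - 1)).mul_mem_left _ hpI
    have h3 := (hiter j (by omega)).le (l := k) (by omega)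
    exact ((good_const (k := k) h2).mul hI h3).mono hI (by omega)
  · have h3 := (hiter (p - 1) le_rfl).le (l := k) (by omega)
    exact h3

/-- The sum over an elementary abelian group. -/
theorem Good.sum_pi (hI : IsFilt I) {p : ℕ} [Fact p.Prime] (hpI : (p : R) ∈ I (p - 1))
    (N : ℕ) {w : ℕ} {u : (Fin N → ZMod p) → R} (hu : Good I ((p - 1) * N) w u) :
    ∑ x, u x ∈ I (w + (p - 1) * N) := by
  induction N generalizing w with
  | zero =>
    rw [Fintype.sum_unique]
    exact hu.val _
  | succ N ih =>
    have hp : p.Prime := Fact.out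
    have h1 : ∑ x, u x = ∑ y : Fin N → ZMod p, ∑ c : ZMod p, u (Fin.cons c y) := by
      rw [← (Fin.consEquiv (fun _ : Fin (N + 1) => ZMod p)).sum_comp, Fintype.sum_prod_type,
        Finset.sum_comm]
      rfl
    set a : Fin (N + 1) → ZMod p := Fin.cons 1 0 with ha
    let l : (Fin N → ZMod p) →+ (Fin (N + 1) → ZMod p) :=
      { toFun := fun y => Fin.cons 0 y
        map_zero' := by
          funext i
          refine Fin.cases ?_ (fun i => ?_) i <;> simp
        map_add' := by
          intro y z
          funext i
          refine Fin.cases ?_ (fun i => ?_) i <;> simp }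
    have h2 : ∀ y : Fin N → ZMod p, ∑ c : ZMod p, u (Fin.cons c y) =
        ∑ i ∈ Finset.range p, u (l y + i • a) := by
      intro y
      symm
      refine Finset.sum_nbij' (fun i => (i : ZMod p)) (fun c => c.val) ?_ ?_ ?_ ?_ ?_
      · intro i _
        exact Finset.mem_univ _
      · intro c _
        exact Finset.mem_range.2 c.val_lt
      · intro i hi
        exact ZMod.val_cast_of_lt (Finset.mem_range.1 hi)
      · intro c _
        exact ZMod.natCast_zmod_val c
      · intro i _
        congr 1
        funext j
        refine Fin.cases ?_ (fun j => ?_) j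
        · simp [l, ha]
        · simp [l, ha]
    rw [h1, Finset.sum_congr rfl fun y _ => h2 y]
    have h3 : Good I ((p - 1) * N) (w + (p - 1))
        (fun x => ∑ i ∈ Finset.range p, u (x + i • a)) :=
      Good.sum_line hI hp hpI (by rwa [Nat.mul_succ] at hu) a
    have h4 := ih (u := fun y => ∑ i ∈ Finset.range p, u (l y + i • a)) (by
      have h5 := h3.comp_right l 0
      simpa using h5)
    have h5 : w + (p - 1) * (N + 1) = w + (p - 1) + (p - 1) * N := by ring
    rw [h5]
    exact h4

end

end Pool.Agent.Helper36.BCH
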