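import Pool.Agent.Helper36.BCH.Interp
import Pool.Agent.Helper36.BCH.Ext

/-!
# Codes with minimum distance larger than the designed distance
-/

namespace Pool.Agent.Helper36.BCH

open Polynomial

theorem dvd_minDist {K L : Type} [Field K] [Field L] [Algebra K L] [Finite L] {p s m : ℕ}
    (hp : p.Prime) (hK : Nat.card K = p ^ s) (hL : Nat.card L = Nat.card K ^ m) {α : L}
    (hα : IsPrimitiveElement α) {δ d : ℕ} (hδ : 2 ≤ δ) (hd : IsMinDist K α δ d) {D e : ℕ}
    (hD : 1 ≤ D) (he : (e + s - 1) * D < s * m)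
    (hdig : ∀ j, 0 < j → j < Nat.card L - 1 →
      (∀ i, j * Nat.card K ^ i % (Nat.card L - 1) + δ ≤ Nat.card L - 1) → dsum p j ≤ D) :
    p ^ e ∣ d + 1 := by
  classical
  have hKfin : Finite K := Finite.of_injective (algebraMap K L) (algebraMap K L).injective
  have : Fintype L := Fintype.ofFinite L
  have : Fintype K := Fintype.ofFinite K
  have : Fact p.Prime := ⟨hp⟩
  simp only [Nat.card_eq_fintype_card] at hK hL hdig
  have hs0 : s ≠ 0 := by
    rintro rfl
    rw [pow_zero] at hK
    have := Fintype.one_lt_card (α := K)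
    omega
  have hcharK : CharP K p := by
    obtain ⟨p', hp'⟩ := CharP.exists K
    obtain ⟨n, hp'1, hn⟩ := FiniteField.card K p'
    have h1 : p ∣ p' ^ (n : ℕ) := by
      rw [← hn, hK]
      exact dvd_pow_self p hs0
    have h2 : p = p' := (Nat.prime_dvd_prime_iff_eq hp hp'1).1 (hp.dvd_of_dvd_pow h1)
    rwa [h2]
  have hcharL : CharP L p := (Algebra.charP_iff K L p).1 hcharK
  obtain ⟨f, hf, hcount⟩ := exists_ext hα hδ hd
  have hdeg : DegLE D f := degLE_of_powerSums hK (by omega) hdig hf
  have hN : Fintype.card L = p ^ (s * m) := by rw [hL, hK, pow_mul]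
  have h1 := dvd_card_zeros hK hN hD he hdeg
  have h2 := Finset.card_filter_add_card_filter_not (s := Finset.univ) (fun x : L => f x = 0)
  rw [Finset.card_univ, hN] at h2
  have h3 : (Finset.univ.filter fun x : L => ¬ f x = 0).card = d + 1 := hcount
  rw [h3] at h2
  have heN : e ≤ s * m := by
    have h3 : e + s - 1 ≤ (e + s - 1) * D := Nat.le_mul_of_pos_right _ hD
    omega
  have h4 : p ^ e ∣ p ^ (s * m) := pow_dvd_pow p heN
  rw [← h2] at h4
  exact (Nat.dvd_add_right h1).1 h4

theorem dvd_minDist_range {K L : Type} [Field K] [Field L] [Algebra K L] [Finite L] {p s m : ℕ}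
    (hp : p.Prime) (hK : Nat.card K = p ^ s) (hL : Nat.card L = Nat.card K ^ m) {α : L}
    (hα : IsPrimitiveElement α) {δ d : ℕ} (hδ : 2 ≤ δ) (hd : IsMinDist K α δ d) {k : ℕ}
    (hk : 2 ≤ k) (hm : 2 * k ≤ m) (hkm : ¬ k ∣ m)
    (hB : Nat.card K ^ m ≤
      δ + Nat.card K ^ (m - 1) + Nat.card K ^ (m - k) + Nat.card K ^ (m - 2 * k)) :
    p * Nat.card K ^ (k - 1) ∣ d + 1 := by
  have hKfin : Finite K := Finite.of_injective (algebraMap K L) (algebraMap K L).injective
  have hK1 : 1 < Nat.card K := Finite.one_lt_card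
  have hs0 : s ≠ 0 := by
    rintro rfl
    rw [pow_zero] at hK
    omega
  have hdm : k * (m / k) < m := by
    have h1 := Nat.div_add_mod m k
    have h2 : m % k ≠ 0 := fun h => hkm (Nat.dvd_of_mod_eq_zero h)
    omega
  have h1 : p ^ (s * (k - 1) + 1) ∣ d + 1 := by
    refine dvd_minDist hp hK hL hα hδ hd (D := m / k) ?_ ?_ ?_
    · exact (Nat.one_le_div_iff (by omega)).2 (by omega)
    · have h2 : s * (k - 1) + 1 + s - 1 = s * k := by
        obtain ⟨k', rfl⟩ : ∃ k', k = k' + 1 := ⟨k - 1, by omega⟩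
        rw [Nat.add_sub_cancel, Nat.mul_succ]
        omega
      rw [h2, mul_assoc]
      exact Nat.mul_lt_mul_of_pos_left hdm (by omega)
    · intro j _ hj hrot
      rw [hL] at hj hrot
      have h3 := mul_dsum_le (q := Nat.card K) hp.one_lt hK hK1 hk hm hj (fun i => by
        have h4 := hrot i
        have h5 : 0 < Nat.card K ^ m := Nat.pow_pos (by omega)
        omega)
      rw [Nat.le_div_iff_mul_le (by omega), mul_comm]
      exact h3
  have h2 : p * Nat.card K ^ (k - 1) = p ^ (s * (k - 1) + 1) := by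
    rw [hK, ← pow_mul, pow_succ, mul_comm]
  rw [h2]
  exact h1

/-- The arithmetic criterion for Bose distances. -/
theorem isBose_of_rot {K L : Type} [Field K] [Field L] [Algebra K L] [Finite L] {m : ℕ}
    (hL : Nat.card L = Nat.card K ^ m) {α : L} (hα : IsPrimitiveElement α) {δ J : ℕ}
    (hδ : 1 ≤ δ) (hJδ : J + δ = Nat.card L - 1)
    (hrot : ∀ r, 0 < r → r < m → J * Nat.card K ^ r % (Nat.card L - 1) < J) :
    IsBose K α δ := by
  classical
  have hKfin : Finite K := Finite.of_injective (algebraMap K L) (algebraMap K L).injective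
  have : Fintype L := Fintype.ofFinite L
  have : Fintype K := Fintype.ofFinite K
  have hKc : Nat.card K = Fintype.card K := Nat.card_eq_fintype_card
  have hm : Module.finrank K L = m := by
    have h1 := Module.card_eq_pow_finrank (K := K) (V := L)
    rw [← Nat.card_eq_fintype_card, ← Nat.card_eq_fintype_card, hL] at h1
    exact (Nat.pow_right_injective Finite.one_lt_card h1).symm
  have hm0 : 0 < m := by
    rw [← hm]
    exact Module.finrank_pos
  obtain ⟨g, hg⟩ := exists_isGenerator (K := K) hα.1 δ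
  refine ⟨g, hg, ?_⟩
  have hord := orderOf_primitive hα
  set n := Nat.card L - 1 with hn
  have hncast : ((n : ℕ) : L) = -1 := by
    have h1 : ((Nat.card L : ℕ) : L) = 0 := by
      rw [Nat.card_eq_fintype_card]
      exact FiniteField.cast_card_eq_zero L
    have h2 : Nat.card L = n + 1 := by
      have := Finite.one_lt_card (α := L)
      omega
    rw [h2, Nat.cast_add, Nat.cast_one] at h1
    exact eq_neg_of_add_eq_zero_left h1
  set c : K[X] := ∑ i ∈ Finset.range n, C (Algebra.trace K L (α ^ (i * J))) * X ^ i with hc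
  have hval : ∀ l, aeval (α ^ l) c = ∑ r ∈ Finset.range m,
      ∑ i ∈ Finset.range n, (α ^ (J * Nat.card K ^ r + l)) ^ i := by
    intro l
    rw [hc, map_sum, Finset.sum_comm]
    refine Finset.sum_congr rfl fun i _ => ?_
    rw [map_mul, aeval_C, aeval_X_pow, FiniteField.algebraMap_trace_eq_sum_pow, hm,
      Finset.sum_mul]
    refine Finset.sum_congr rfl fun r _ => ?_
    rw [← pow_mul, ← pow_mul, ← pow_mul, ← pow_add]
    congr 1
    ring
  have hgeom : ∀ e, ¬ n ∣ e → ∑ i ∈ Finset.range n, (α ^ e) ^ i = 0 := by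
    intro e he
    have h1 : α ^ e ≠ 1 := by
      intro h
      apply he
      rw [← hord]
      exact orderOf_dvd_of_pow_eq_one h
    have hmul := geom_sum_mul (α ^ e) n
    rw [← pow_mul, mul_comm e, pow_mul, ← hord, pow_orderOf_eq_one, one_pow, sub_self, hord]
      at hmul
    exact (mul_eq_zero.1 hmul).resolve_right (sub_ne_zero.2 h1)
  have hJn : J < n := by omega
  have hmodr : ∀ r, r < m → J * Nat.card K ^ r % n ≤ J := by
    intro r hr
    rcases Nat.eq_zero_or_pos r with rfl | h
    · rw [pow_zero, mul_one]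
      exact Nat.mod_le _ _
    · exact (hrot r h hr).le
  have hgc : g ∣ c := by
    refine hg.dvd fun l h1 h2 => ?_
    rw [hval]
    refine Finset.sum_eq_zero fun r hr => hgeom _ fun hdvd => ?_
    have h3 := hmodr r (Finset.mem_range.1 hr)
    have h4 : (J * Nat.card K ^ r % n + l) % n = 0 := by
      rw [Nat.mod_add_mod]
      exact Nat.mod_eq_zero_of_dvd hdvd
    rw [Nat.mod_eq_of_lt (by omega)] at h4
    omega
  intro hz
  have hcz : aeval (α ^ δ) c = 0 := by
    obtain ⟨u, hu⟩ := hgc
    rw [hu, map_mul, hz, zero_mul]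
  rw [hval, Finset.sum_eq_single 0] at hcz
  · rw [pow_zero, mul_one, hJδ, ← hord, pow_orderOf_eq_one, hord] at hcz
    simp only [one_pow, Finset.sum_const, Finset.card_range, nsmul_eq_mul, mul_one] at hcz
    rw [hncast] at hcz
    exact one_ne_zero (neg_eq_zero.1 hcz)
  · intro r hr hr0
    refine hgeom _ fun hdvd => ?_
    have h3 := hrot r (by omega) (Finset.mem_range.1 hr)
    have h4 : (J * Nat.card K ^ r % n + δ) % n = 0 := by
      rw [Nat.mod_add_mod]
      exact Nat.mod_eq_zero_of_dvd hdvd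
    rw [Nat.mod_eq_of_lt (by omega)] at h4
    omega
  · intro h
    exact absurd (Finset.mem_range.2 hm0) h

/-- The rotations of `q ^ (m - 1) + q ^ (m - k) + q ^ (k - 1)`. -/
theorem rot_lt {q m k r : ℕ} (hq : 1 < q) (hk : 2 ≤ k) (hm : 3 * k < m) (hr : 0 < r)
    (hrm : r < m) :
    (q ^ (m - 1) + q ^ (m - k) + q ^ (k - 1)) * q ^ r % (q ^ m - 1) <
      q ^ (m - 1) + q ^ (m - k) + q ^ (k - 1) := by
  have hqm : 0 < q ^ m := Nat.pow_pos (by omega)
  have hred : ∀ a b, q ^ (m + a) + b ≡ q ^ a + b [MOD (q ^ m - 1)] := by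
    intro a b
    refine Nat.ModEq.add_right b ?_
    have h1 : q ^ m ≡ 1 [MOD (q ^ m - 1)] := by
      refine ((Nat.modEq_iff_dvd' (by omega)).2 ?_).symm
      exact dvd_rfl
    have h2 := h1.mul_right (q ^ a)
    rwa [one_mul, ← pow_add] at h2
  have hmono : ∀ a b, a ≤ b → q ^ a ≤ q ^ b := fun a b h => Nat.pow_le_pow_right (by omega) h
  have hdouble : ∀ a, 2 * q ^ a ≤ q ^ (a + 1) := by
    intro a
    rw [pow_succ, mul_comm]
    exact Nat.mul_le_mul_left _ hq
  have hpos : ∀ a, 0 < q ^ a := fun a => Nat.pow_pos (by omega)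
  have hexpand : (q ^ (m - 1) + q ^ (m - k) + q ^ (k - 1)) * q ^ r =
      q ^ (m + (r - 1)) + (q ^ (m - k + r) + q ^ (k - 1 + r)) := by
    rw [add_mul, add_mul, ← pow_add, ← pow_add, ← pow_add, add_assoc]
    congr 2
    omega
  have d1 := hdouble (m - 2)
  have d2 := hdouble (m - 3)
  have e1 : m - 2 + 1 = m - 1 := by omega
  have e2 : m - 3 + 1 = m - 2 := by omega
  rw [e1] at d1
  rw [e2] at d2
  -- reduce to a sum of three powers
  have key : ∀ R, (q ^ (m - 1) + q ^ (m - k) + q ^ (k - 1)) * q ^ r ≡ R [MOD (q ^ m - 1)] →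
      R < q ^ (m - 1) + q ^ (m - k) + q ^ (k - 1) →
      (q ^ (m - 1) + q ^ (m - k) + q ^ (k - 1)) * q ^ r % (q ^ m - 1) <
      q ^ (m - 1) + q ^ (m - k) + q ^ (k - 1) := by
    intro R h1 h2
    rw [h1]
    exact lt_of_le_of_lt (Nat.mod_le _ _) h2
  rcases Nat.lt_or_ge r k with h1 | h1
  · -- `r < k`
    refine key (q ^ (r - 1) + (q ^ (m - k + r) + q ^ (k - 1 + r))) ?_ ?_
    · rw [hexpand]
      exact hred _ _
    · rcases Nat.lt_or_ge r (k - 1) with h2 | h2
      · have f1 := hmono (m - k + r) (m - 2) (by omega)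
        have f2 := hmono (k - 1 + r) (m - 3) (by omega)
        have f3 := hmono (r - 1) (m - 3) (by omega)
        have f4 := hpos (m - k)
        omega
      · have h3 : r = k - 1 := by omega
        have g1 : m - k + r = m - 1 := by omega
        rw [g1]
        have f1 := hmono (k - 1 + r) (m - k - 1) (by omega)
        have f2 := hmono (r - 1) (k - 1) (by omega)
        have f3 := hdouble (m - k - 1)
        have g2 : m - k - 1 + 1 = m - k := by omega
        rw [g2] at f3
        have f4 := hpos (m - k - 1)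
        omega
  · rcases Nat.lt_or_ge (m - k) r with h2 | h2
    · -- `m - k < r`
      have g1 : m - k + r = m + (r - k) := by omega
      have g2 : k - 1 + r = m + (k - 1 + r - m) := by omega
      refine key (q ^ (r - 1) + (q ^ (r - k) + q ^ (k - 1 + r - m))) ?_ ?_
      · rw [hexpand]
        refine (hred _ _).trans (Nat.ModEq.add_left _ ?_)
        rw [g1]
        refine (hred _ _).trans (Nat.ModEq.add_left _ ?_)
        conv_lhs => rw [g2]
        have := hred (k - 1 + r - m) 0
        simpa using this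
      · have f1 := hmono (r - 1) (m - 2) (by omega)
        have f2 := hmono (r - k) (m - 3) (by omega)
        have f3 := hmono (k - 1 + r - m) (m - 3) (by omega)
        have f4 := hpos (m - k)
        omega
    · -- `k ≤ r ≤ m - k`
      have g1 : m - k + r = m + (r - k) := by omega
      refine key (q ^ (r - 1) + (q ^ (r - k) + q ^ (k - 1 + r))) ?_ ?_
      · rw [hexpand]
        refine (hred _ _).trans (Nat.ModEq.add_left _ ?_)
        rw [g1]
        exact hred _ _
      · rcases Nat.lt_or_ge r (m - k) with h3 | h3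
        · have f1 := hmono (k - 1 + r) (m - 2) (by omega)
          have f2 := hmono (r - 1) (m - 3) (by omega)
          have f3 := hmono (r - k) (m - 3) (by omega)
          have f4 := hpos (m - k)
          omega
        · have h4 : r = m - k := by omega
          have g2 : k - 1 + r = m - 1 := by omega
          rw [g2]
          have f1 := hmono (r - k) (m - k - 1) (by omega)
          have f2 := hmono (r - 1) (m - k - 1) (by omega)
          have f3 := hdouble (m - k - 1)
          have g3 : m - k - 1 + 1 = m - k := by omega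
          rw [g3] at f3
          have f4 := hpos (k - 1)
          omega

theorem gap_family {K L : Type} [Field K] [Field L] [Algebra K L] [Finite L] {p s m : ℕ}
    (hp : p.Prime) (hK : Nat.card K = p ^ s) (hL : Nat.card L = Nat.card K ^ m) {α : L}
    (hα : IsPrimitiveElement α) {δ d : ℕ} (hd : IsMinDist K α δ d) {k : ℕ}
    (hk : 2 ≤ k) (hm : 3 * k < m) (hkm : ¬ k ∣ m)
    (hδ : δ + 1 + Nat.card K ^ (m - 1) + Nat.card K ^ (m - k) + Nat.card K ^ (k - 1) =
      Nat.card K ^ m) :
    IsBose K α δ ∧ δ + Nat.card K ^ (k - 1) ≤ d := by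
  have hKfin : Finite K := Finite.of_injective (algebraMap K L) (algebraMap K L).injective
  have hK1 : 1 < Nat.card K := Finite.one_lt_card
  have hdδ := le_minDist hα hd
  set q := Nat.card K with hq
  have hpos : ∀ a, 0 < q ^ a := fun a => Nat.pow_pos (by omega)
  have hdouble : ∀ a, 2 * q ^ a ≤ q ^ (a + 1) := by
    intro a
    rw [pow_succ, mul_comm]
    exact Nat.mul_le_mul_left _ hK1
  have hmono : ∀ a b, a ≤ b → q ^ a ≤ q ^ b := fun a b h => Nat.pow_le_pow_right (by omega) h
  have hδ2 : 2 ≤ δ := by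
    have d0 := hdouble (m - 1)
    have d1 := hdouble (m - 2)
    have d2 := hdouble (m - 3)
    have e0 : m - 1 + 1 = m := by omega
    have e1 : m - 2 + 1 = m - 1 := by omega
    have e2 : m - 3 + 1 = m - 2 := by omega
    rw [e0] at d0
    rw [e1] at d1
    rw [e2] at d2
    have f1 := hmono (m - k) (m - 2) (by omega)
    have f2 := hmono (k - 1) (m - 3) (by omega)
    have f3 : 3 ≤ q ^ (m - 3) := by
      have h1 := hmono 2 (m - 3) (by omega)
      have h2 : 2 * 2 ≤ q ^ 2 := by
        rw [pow_two]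
        exact Nat.mul_le_mul hK1 hK1
      omega
    omega
  constructor
  · refine isBose_of_rot hL hα (J := q ^ (m - 1) + q ^ (m - k) + q ^ (k - 1)) (by omega) ?_ ?_
    · rw [hL]
      omega
    · intro r hr hrm
      rw [hL]
      exact rot_lt hK1 hk hm hr hrm
  · have h1 : p * q ^ (k - 1) ∣ d + 1 :=
      dvd_minDist_range hp hK hL hα hδ2 hd hk (by omega) hkm (by
        rw [← hq]
        have h2 := hmono (k - 1) (m - 2 * k) (by omega)
        have h3 := hpos (m - 2 * k)
        have h4 : q ^ (k - 1) < q ^ (m - 2 * k) := Nat.pow_lt_pow_right hK1 (by omega)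
        omega)
    have hs0 : s ≠ 0 := by
      rintro rfl
      rw [pow_zero] at hK
      omega
    have hpq : p ∣ q := by
      rw [hK]
      exact dvd_pow_self p hs0
    have hpk : p * q ^ (k - 1) ∣ q ^ k := by
      have h2 : q ^ k = q * q ^ (k - 1) := by
        rw [← pow_succ']
        congr 1
        omega
      rw [h2]
      exact Nat.mul_dvd_mul_right hpq _
    have h2 : p * q ^ (k - 1) ∣ δ + 1 + q ^ (k - 1) := by
      have h3 : p * q ^ (k - 1) ∣ q ^ m := hpk.trans (pow_dvd_pow q (by omega))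
      have h4 : p * q ^ (k - 1) ∣ q ^ (m - 1) := hpk.trans (pow_dvd_pow q (by omega))
      have h5 : p * q ^ (k - 1) ∣ q ^ (m - k) := hpk.trans (pow_dvd_pow q (by omega))
      have h6 : δ + 1 + q ^ (k - 1) + (q ^ (m - 1) + q ^ (m - k)) = q ^ m := by omega
      rw [← h6] at h3
      exact (Nat.dvd_add_left (h4.add h5)).1 h3
    obtain ⟨a, ha⟩ := h1
    obtain ⟨b, hb⟩ := h2
    have h3 : b ≤ a := by
      by_contra hcon
      have h4 : p * q ^ (k - 1) * (a + 1) ≤ p * q ^ (k - 1) * b :=
        Nat.mul_le_mul_left _ (by omega)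
      have h5 : 2 * q ^ (k - 1) ≤ p * q ^ (k - 1) := Nat.mul_le_mul_right _ hp.two_le
      have h6 := hpos (k - 1)
      rw [mul_add, mul_one] at h4
      omega
    have h4 : p * q ^ (k - 1) * b ≤ p * q ^ (k - 1) * a := Nat.mul_le_mul_left _ h3
    omega

end Pool.Agent.Helper36.BCH
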