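import Pool.Agent.Helper36.BCH.Count
import Pool.Agent.Helper36.BCH.Basic

/-!
# The degree of a function with vanishing power sums
-/

namespace Pool.Agent.Helper36.BCH

theorem sum_delta {L : Type} [Field L] [Fintype L] [DecidableEq L] (x y : L) :
    ∑ j ∈ Finset.range (Fintype.card L), x ^ j * y ^ (Fintype.card L - 1 - j) =
      if x = y then 0 else 1 := by
  by_cases h : x = y
  · subst h
    rw [if_pos rfl]
    have h1 : ∀ j ∈ Finset.range (Fintype.card L),
        x ^ j * x ^ (Fintype.card L - 1 - j) = x ^ (Fintype.card L - 1) := by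
      intro j hj
      have := Finset.mem_range.1 hj
      rw [← pow_add]
      congr 1
      omega
    rw [Finset.sum_congr rfl h1, Finset.sum_const, Finset.card_range, nsmul_eq_mul,
      FiniteField.cast_card_eq_zero, zero_mul]
  · rw [if_neg h]
    have h1 := (Commute.all x y).geom_sum₂_mul (Fintype.card L)
    rw [FiniteField.pow_card, FiniteField.pow_card] at h1
    exact mul_right_cancel₀ (sub_ne_zero.2 h) (h1.trans (one_mul _).symm)

/-- The rotation of the complement. -/
theorem mod_compl {M a b : ℕ} (h1 : b % M ≠ 0) (h2 : (a + b) % M = 0) :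
    a % M + b % M = M := by
  have hM : 0 < M := by
    rcases Nat.eq_zero_or_pos M with rfl | h
    · simp only [Nat.mod_zero] at h1 h2
      omega
    · exact h
  have h3 := Nat.mod_lt a hM
  have h4 := Nat.mod_lt b hM
  rw [Nat.add_mod] at h2
  have h5 := Nat.dvd_of_mod_eq_zero h2
  obtain ⟨c, hc⟩ := h5
  have h6 : c = 1 := by
    rcases Nat.lt_trichotomy c 1 with h | h | h
    · have : c = 0 := by omega
      rw [this, mul_zero] at hc
      omega
    · exact h
    · have : M * 2 ≤ M * c := Nat.mul_le_mul_left _ h
      omega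
  rw [h6, mul_one] at hc
  exact hc

theorem degLE_of_powerSums {K L : Type} [Field K] [Fintype K] [Field L] [Fintype L]
    [Algebra K L] {p : ℕ} [Fact p.Prime] [CharP L p] {s : ℕ} (hs : Fintype.card K = p ^ s)
    {δ D : ℕ} (hδ : 1 ≤ δ)
    (hD : ∀ j, 0 < j → j < Fintype.card L - 1 →
      (∀ i, j * Fintype.card K ^ i % (Fintype.card L - 1) + δ ≤ Fintype.card L - 1) →
        dsum p j ≤ D)
    {f : L → K} (hf : ∀ j < δ, ∑ x, algebraMap K L (f x) * x ^ j = 0) : DegLE D f := by
  classical
  set Q := Fintype.card L with hQ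
  set q := Fintype.card K with hq
  have hQ1 : 1 < Q := Fintype.one_lt_card
  set G : ℕ → L := fun i => ∑ y, algebraMap K L (f y) * y ^ i with hG
  have hG0 : ∀ i, i < δ → G i = 0 := hf
  have hGpow : ∀ i k, G i ^ q ^ k = G (i * q ^ k) := by
    intro i k
    simp only [hG]
    rw [hs, ← pow_mul, sum_pow_char_pow]
    refine Finset.sum_congr rfl fun y _ => ?_
    rw [mul_pow, ← pow_mul, ← map_pow, pow_mul p s k, ← hs]
    congr 2
    induction k with
    | zero => simp
    | succ k ih => rw [pow_succ, pow_mul, ih, FiniteField.pow_card]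
  have hGmod : ∀ i i', 0 < i → 0 < i' → i % (Q - 1) = i' % (Q - 1) → G i = G i' := by
    intro i i' h1 h2 h3
    simp only [hG]
    refine Finset.sum_congr rfl fun y _ => ?_
    congr 1
    by_cases hy : y = 0
    · rw [hy, zero_pow (by omega), zero_pow (by omega)]
    · have h4 : y ^ (Q - 1) = 1 := FiniteField.pow_card_sub_one_eq_one y hy
      rw [← Nat.div_add_mod i (Q - 1), ← Nat.div_add_mod i' (Q - 1), pow_add, pow_add, pow_mul,
        pow_mul, h4, one_pow, one_pow, h3]
  -- the interpolation formula
  have hint : ∀ x, algebraMap K L (f x) =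
      ∑ j ∈ Finset.range Q, (-G (Q - 1 - j)) * x ^ j := by
    intro x
    have h1 : algebraMap K L (f x) = ∑ y, algebraMap K L (f y) *
        (1 - ∑ j ∈ Finset.range Q, x ^ j * y ^ (Q - 1 - j)) := by
      have h2 : ∀ y, algebraMap K L (f y) *
          (1 - ∑ j ∈ Finset.range Q, x ^ j * y ^ (Q - 1 - j)) =
          if x = y then algebraMap K L (f y) else 0 := by
        intro y
        rw [hQ, sum_delta x y]
        split_ifs <;> simp
      rw [Finset.sum_congr rfl fun y _ => h2 y, Finset.sum_ite_eq, if_pos (Finset.mem_univ x)]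
    rw [h1]
    simp only [mul_sub, mul_one]
    rw [Finset.sum_sub_distrib]
    have h3 : ∑ y, algebraMap K L (f y) = 0 := by
      have h4 := hf 0 (by omega)
      simpa using h4
    rw [h3, zero_sub]
    simp only [Finset.mul_sum]
    rw [Finset.sum_comm, ← Finset.sum_neg_distrib]
    refine Finset.sum_congr rfl fun j _ => ?_
    simp only [hG]
    rw [neg_mul, Finset.sum_mul]
    congr 1
    refine Finset.sum_congr rfl fun y _ => ?_
    ring
  refine DegLE.of_comp_left (algebraMap K L).toAddMonoidHom (algebraMap K L).injective ?_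
  have h1 : (fun x => (algebraMap K L).toAddMonoidHom (f x)) =
      fun x => ∑ j ∈ Finset.range Q, (-G (Q - 1 - j)) * x ^ j := by
    funext x
    exact hint x
  rw [h1]
  refine DegLE.sum _ fun j hj => ?_
  have hjQ := Finset.mem_range.1 hj
  by_cases hz : G (Q - 1 - j) = 0
  · have h2 : (fun x : L => (-G (Q - 1 - j)) * x ^ j) = fun _ => 0 := by
      funext x
      rw [hz, neg_zero, zero_mul]
    rw [h2]
    exact degLE_const _ _
  · have hdeg : dsum p j ≤ D := by
      rcases Nat.eq_zero_or_pos j with rfl | hj0
      · rw [dsum_zero]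
        exact Nat.zero_le _
      have hjQ1 : j < Q - 1 := by
        by_contra hcon
        have h2 : Q - 1 - j = 0 := by omega
        rw [h2] at hz
        exact hz (hG0 0 (by omega))
      refine hD j hj0 hjQ1 fun k => ?_
      set i := Q - 1 - j with hi
      have hcop : Nat.Coprime (Q - 1) (q ^ k) := by
        have h2 : q ^ k ∣ Q ^ k := by
          apply pow_dvd_pow_of_dvd
          rw [hQ, hq, Module.card_eq_pow_finrank (K := K) (V := L)]
          exact dvd_pow_self _ (Module.finrank_pos).ne'
        refine Nat.Coprime.coprime_dvd_right h2 (Nat.Coprime.pow_right _ ?_)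
        have h3 : Q = Q - 1 + 1 := by omega
        rw [h3]
        simp
      have hne : i * q ^ k % (Q - 1) ≠ 0 := by
        intro h0
        have h2 : Q - 1 ∣ i * q ^ k := Nat.dvd_of_mod_eq_zero h0
        have h3 := hcop.dvd_of_dvd_mul_right h2
        have h4 := Nat.le_of_dvd (by omega) h3
        omega
      have hq0 : 0 < q ^ k := Nat.pow_pos Fintype.card_pos
      have hr : δ ≤ i * q ^ k % (Q - 1) := by
        by_contra hcon
        push Not at hcon
        have h2 := hG0 _ hcon
        rw [hGmod _ (i * q ^ k) (by omega) (Nat.mul_pos (by omega) hq0) (Nat.mod_mod _ _),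
          ← hGpow] at h2
        exact hz (pow_eq_zero_iff hq0.ne' |>.1 h2)
      have h5 := mod_compl (M := Q - 1) (a := j * q ^ k) hne (by
        rw [← add_mul]
        have h6 : j + i = Q - 1 := by omega
        rw [h6]
        exact Nat.mul_mod_right _ _)
      omega
    have h9 : DegLE D (fun x : L => x ^ j) := (degLE_pow j).mono hdeg
    exact h9.comp_left (AddMonoidHom.mulLeft (-G (Q - 1 - j)))

end Pool.Agent.Helper36.BCH
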