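import Pool.Agent.Helper36.BCH.Chain

/-!
# Balanced sets defined by norms
-/

set_option linter.unusedSectionVars false

namespace Pool.Agent.Helper36.BCH

open Polynomial Module

section

variable {K L : Type} [Field K] [Field L] [Algebra K L] [Fintype L] [DecidableEq L]

theorem eval_derivative_ann (S : Finset L) {s : L} (hs : s ∈ S) :
    (derivative (ann S)).eval s = ∏ t ∈ S.erase s, (s - t) := by
  have h := Lagrange.eval_nodal_derivative_eval_node_eq (s := S) (v := id) hs
  simp only [Lagrange.nodal, id_eq] at h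
  rw [ann, h, eval_prod]
  simp

theorem eval_derivative_mul_of_root {A B : L[X]} {s : L} (h : A.eval s = 0) :
    (derivative (A * B)).eval s = (derivative A).eval s * B.eval s := by
  rw [derivative_mul, eval_add, eval_mul, eval_mul, h, zero_mul, add_zero]

/-- A set is balanced if it consists of `deg P` zeros of a polynomial `P` whose derivative takes
values in a coset of `K ^ *`. -/
theorem balanced_of_derivative {S : Finset L} {P : L[X]} (hP0 : P ≠ 0)
    (hdeg : P.natDegree ≤ S.card) (hz : ∀ s ∈ S, P.eval s = 0)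
    (hder : ∃ lam : L, lam ≠ 0 ∧ ∀ s ∈ S, ∃ k : K, k ≠ 0 ∧
      (derivative P).eval s = lam * algebraMap K L k) : Balanced K S := by
  have hdvd : ann S ∣ P := by
    refine Finset.prod_dvd_of_coprime ?_ fun s hs => dvd_iff_isRoot.2 (hz s hs)
    intro a _ b _ hab
    exact pairwise_coprime_X_sub_C Function.injective_id hab
  obtain ⟨Q, hQ⟩ := hdvd
  have hQ0 : Q ≠ 0 := by
    rintro rfl
    exact hP0 (by rw [hQ, mul_zero])
  have hQdeg : Q.natDegree = 0 := by
    have h1 := congrArg natDegree hQ
    rw [natDegree_mul (ann_monic S).ne_zero hQ0, ann_natDegree] at h1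
    omega
  obtain ⟨c, hc⟩ := natDegree_eq_zero.1 hQdeg
  have hc0 : c ≠ 0 := by
    rintro rfl
    exact hQ0 (by rw [← hc, C_0])
  obtain ⟨lam, hlam, hk⟩ := hder
  refine ⟨lam / c, div_ne_zero hlam hc0, fun s hs => ?_⟩
  obtain ⟨k, hk0, hk1⟩ := hk s hs
  refine ⟨k, hk0, ?_⟩
  rw [hQ, ← hc, derivative_mul, derivative_C, mul_zero, add_zero, eval_mul, eval_C,
    eval_derivative_ann S hs] at hk1
  rw [div_mul_eq_mul_div, ← hk1, mul_div_cancel_right₀ _ hc0]

end

section

variable {K E L : Type} [Field K] [Field E] [Field L] [Fintype K] [Fintype E] [Fintype L]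
  [Algebra K E] [Algebra E L] [Algebra K L] [IsScalarTower K E L] [DecidableEq K] [DecidableEq E]
  [DecidableEq L]

theorem Balanced.map {S : Finset E} (hS : Balanced K S) :
    Balanced K (S.image (algebraMap E L)) := by
  obtain ⟨lam, hlam, hk⟩ := hS
  refine ⟨algebraMap E L lam, (_root_.map_ne_zero _).2 hlam, fun s hs => ?_⟩
  obtain ⟨x, hx, rfl⟩ := Finset.mem_image.1 hs
  obtain ⟨k, hk0, hk1⟩ := hk x hx
  refine ⟨k, hk0, ?_⟩
  rw [IsScalarTower.algebraMap_apply K E L, ← map_mul, ← hk1, map_prod,
    ← Finset.image_erase (algebraMap E L).injective,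
    Finset.prod_image (fun x _ y _ h => (algebraMap E L).injective h)]
  refine Finset.prod_congr rfl fun b _ => ?_
  rw [map_sub]

/-- From a subfield to `L`, with a preimage under an additive map. -/
theorem Balanced.ext {S : Finset E} (hS : Balanced K S) (j : ℕ)
    (hj : Fintype.card E * Fintype.card K ^ j ≤ Fintype.card L) :
    ∃ S' : Finset L, Balanced K S' ∧ S'.card = S.card * Fintype.card K ^ j := by
  have hK := Fintype.one_lt_card (α := K)
  have h1 : finrank K E + j ≤ finrank K L := by
    rw [Module.card_eq_pow_finrank (K := K) (V := E),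
      Module.card_eq_pow_finrank (K := K) (V := L), ← pow_add] at hj
    exact (Nat.pow_le_pow_iff_right hK).1 hj
  have h2 := LinearMap.finrank_range_le (Algebra.linearMap E L |>.restrictScalars K)
  have h3 : finrank K (Algebra.linearMap E L |>.restrictScalars K).range + j ≤ finrank K L := by
    omega
  have h4 : ∀ x ∈ S.image (algebraMap E L),
      x ∈ (Algebra.linearMap E L |>.restrictScalars K).range := by
    intro x hx
    obtain ⟨y, -, rfl⟩ := Finset.mem_image.1 hx
    exact ⟨y, rfl⟩
  obtain ⟨S', hS', hc, -, -⟩ := (hS.map (L := L)).blowup (F := K) _ h4 j h3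
  refine ⟨S', hS', ?_⟩
  rw [hc, Finset.card_image_of_injective _ (algebraMap E L).injective]

/-- The number of solutions of `x ^ e = τ` with `τ ∈ K`. -/
theorem card_pow_eq {e : ℕ} (he : e ∣ (Fintype.card E - 1) / (Fintype.card K - 1)) {τ : K}
    (hτ : τ ≠ 0) :
    ((Finset.univ : Finset E).filter fun x => x ^ e = algebraMap K E τ).card = e := by
  have hE := Fintype.one_lt_card (α := E)
  have hK := Fintype.one_lt_card (α := K)
  have hdvd : Fintype.card K - 1 ∣ Fintype.card E - 1 := by
    rw [Module.card_eq_pow_finrank (K := K) (V := E)]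
    have := Nat.sub_dvd_pow_sub_pow (Fintype.card K) 1 (finrank K E)
    rwa [one_pow] at this
  have hν0 : 0 < (Fintype.card E - 1) / (Fintype.card K - 1) :=
    Nat.div_pos (Nat.le_of_dvd (by omega) hdvd) (by omega)
  have he0 : 0 < e := Nat.pos_of_dvd_of_pos he hν0
  obtain ⟨y, hy⟩ := FiniteField.norm_surjective K E τ
  obtain ⟨u, hu⟩ := he
  have hx0 : (y ^ u) ^ e = algebraMap K E τ := by
    rw [← hy, FiniteField.algebraMap_norm_eq_pow, Nat.card_eq_fintype_card,
      Nat.card_eq_fintype_card, hu, ← pow_mul, mul_comm u e]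
  have hx0ne : y ^ u ≠ 0 := by
    intro h
    rw [h, zero_pow he0.ne'] at hx0
    exact hτ ((map_eq_zero _).1 hx0.symm)
  have heE : e ∣ Fintype.card E - 1 := by
    have h1 : (Fintype.card E - 1) / (Fintype.card K - 1) ∣ Fintype.card E - 1 :=
      Nat.div_dvd_of_dvd hdvd
    exact (Dvd.intro _ hu.symm).trans h1
  obtain ⟨ζ, hζ⟩ := exists_primitiveRoot (F := E) heE
  have h1 : ((Finset.univ : Finset E).filter fun x => x ^ e = algebraMap K E τ) =
      (nthRootsFinset e (1 : E)).image fun η => η * y ^ u := by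
    ext x
    simp only [Finset.mem_filter, Finset.mem_univ, true_and, Finset.mem_image]
    constructor
    · intro hx
      refine ⟨x / y ^ u, (mem_nthRootsFinset he0 1).2 ?_, div_mul_cancel₀ x hx0ne⟩
      rw [div_pow, hx, hx0, div_self]
      rw [← hx0]
      exact pow_ne_zero e hx0ne
    · rintro ⟨η, hη, rfl⟩
      rw [mul_pow, (mem_nthRootsFinset he0 1).1 hη, one_mul, hx0]
  rw [h1, Finset.card_image_of_injective _ (fun a b h => mul_right_cancel₀ hx0ne h),
    hζ.card_nthRootsFinset]

/-- The set of the `x` with `x ^ e ∈ T ∪ {0}`. -/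
theorem exists_balanced_pow {e : ℕ} (he : e ∣ (Fintype.card E - 1) / (Fintype.card K - 1))
    {a : ℕ} (ha : a ≤ Fintype.card K - 1) :
    ∃ S : Finset E, Balanced K S ∧ S.card = a * e + 1 := by
  have hE := Fintype.one_lt_card (α := E)
  have hK := Fintype.one_lt_card (α := K)
  have hdvd : Fintype.card K - 1 ∣ Fintype.card E - 1 := by
    rw [Module.card_eq_pow_finrank (K := K) (V := E)]
    have := Nat.sub_dvd_pow_sub_pow (Fintype.card K) 1 (finrank K E)
    rwa [one_pow] at this
  have hν0 : 0 < (Fintype.card E - 1) / (Fintype.card K - 1) :=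
    Nat.div_pos (Nat.le_of_dvd (by omega) hdvd) (by omega)
  have he0 : 0 < e := Nat.pos_of_dvd_of_pos he hν0
  have heE : e ∣ Fintype.card E - 1 := he.trans (Nat.div_dvd_of_dvd hdvd)
  have heK : ((e : ℕ) : E) ≠ 0 := by
    intro h
    obtain ⟨u, hu⟩ := heE
    have h1 : ((Fintype.card E - 1 : ℕ) : E) = 0 := by rw [hu, Nat.cast_mul, h, zero_mul]
    have h2 : ((Fintype.card E - 1 + 1 : ℕ) : E) = 0 := by
      rw [Nat.sub_add_cancel hE.le]
      exact FiniteField.cast_card_eq_zero E
    rw [Nat.cast_add, h1, zero_add, Nat.cast_one] at h2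
    exact one_ne_zero h2
  obtain ⟨T, hT, hTc⟩ := Finset.exists_subset_card_eq
    (s := (Finset.univ : Finset K).erase 0) (n := a) (by
      rw [Finset.card_erase_of_mem (Finset.mem_univ _), Finset.card_univ]
      exact ha)
  have hT0 : ∀ τ ∈ T, τ ≠ 0 := fun τ hτ => (Finset.mem_erase.1 (hT hτ)).1
  set fib : K → Finset E := fun τ => Finset.univ.filter fun x => x ^ e = algebraMap K E τ
    with hfib
  set S : Finset E := insert 0 (T.biUnion fib) with hS
  have h0n : (0 : E) ∉ T.biUnion fib := by
    intro h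
    obtain ⟨τ, hτ, hx⟩ := Finset.mem_biUnion.1 h
    have h1 := (Finset.mem_filter.1 hx).2
    rw [zero_pow he0.ne'] at h1
    exact hT0 τ hτ ((map_eq_zero _).1 h1.symm)
  have hcard : S.card = a * e + 1 := by
    rw [hS, Finset.card_insert_of_notMem h0n, Finset.card_biUnion]
    · rw [Finset.sum_congr rfl fun τ hτ => card_pow_eq he (hT0 τ hτ), Finset.sum_const,
        smul_eq_mul, hTc]
    · intro τ _ τ' _ hne
      refine Finset.disjoint_left.2 fun x hx hx' => hne ?_
      have h1 := (Finset.mem_filter.1 hx).2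
      have h2 := (Finset.mem_filter.1 hx').2
      exact (algebraMap K E).injective (h1.symm.trans h2)
  refine ⟨S, ?_, hcard⟩
  set P : E[X] := X * ∏ τ ∈ T, (X ^ e - C (algebraMap K E τ)) with hP
  have hmon : ∀ τ ∈ T, (X ^ e - C (algebraMap K E τ)).Monic := fun τ _ =>
    monic_X_pow_sub_C _ he0.ne'
  have hPmon : P.Monic := monic_X.mul (monic_prod_of_monic _ _ hmon)
  have hPdeg : P.natDegree = a * e + 1 := by
    rw [hP, monic_X.natDegree_mul (monic_prod_of_monic _ _ hmon), natDegree_X,
      natDegree_prod_of_monic _ _ hmon, Finset.sum_congr rfl fun τ _ =>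
        natDegree_X_pow_sub_C (n := e) (r := algebraMap K E τ), Finset.sum_const, smul_eq_mul,
      hTc, add_comm]
  refine balanced_of_derivative hPmon.ne_zero (by rw [hPdeg, hcard]) ?_ ⟨1, one_ne_zero, ?_⟩
  · intro s hs
    rw [hP, eval_mul, eval_X, eval_prod]
    rcases Finset.mem_insert.1 hs with rfl | hs
    · rw [zero_mul]
    · obtain ⟨τ, hτ, hx⟩ := Finset.mem_biUnion.1 hs
      rw [Finset.prod_eq_zero hτ, mul_zero]
      rw [eval_sub, eval_pow, eval_X, eval_C, (Finset.mem_filter.1 hx).2, sub_self]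
  · intro s hs
    rcases Finset.mem_insert.1 hs with rfl | hs
    · refine ⟨∏ τ ∈ T, (-τ), Finset.prod_ne_zero_iff.2 fun τ hτ => neg_ne_zero.2 (hT0 τ hτ), ?_⟩
      rw [hP, eval_derivative_mul_of_root eval_X, derivative_X, eval_one,
        one_mul, one_mul, eval_prod, map_prod]
      refine Finset.prod_congr rfl fun τ _ => ?_
      rw [eval_sub, eval_pow, eval_X, eval_C, zero_pow he0.ne', zero_sub, map_neg]
    · obtain ⟨τ, hτ, hx⟩ := Finset.mem_biUnion.1 hs
      have hxe := (Finset.mem_filter.1 hx).2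
      have heK' : ((e : ℕ) : K) ≠ 0 := by
        intro h
        apply heK
        rw [← map_natCast (algebraMap K E), h, map_zero]
      refine ⟨e * τ * ∏ τ' ∈ T.erase τ, (τ - τ'), ?_, ?_⟩
      · refine mul_ne_zero (mul_ne_zero heK' (hT0 τ hτ)) (Finset.prod_ne_zero_iff.2 ?_)
        intro τ' hτ'
        exact sub_ne_zero.2 (Finset.mem_erase.1 hτ').1.symm
      · have hsplit : P = (X ^ e - C (algebraMap K E τ)) *
            (X * ∏ τ' ∈ T.erase τ, (X ^ e - C (algebraMap K E τ'))) := by
          rw [hP, ← Finset.mul_prod_erase _ _ hτ]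
          ring
        have hroot : (X ^ e - C (algebraMap K E τ)).eval s = 0 := by
          rw [eval_sub, eval_pow, eval_X, eval_C, hxe, sub_self]
        rw [hsplit, eval_derivative_mul_of_root hroot, derivative_sub, derivative_C, sub_zero,
          derivative_X_pow, eval_mul, eval_C, eval_pow, eval_X, eval_mul, eval_X, eval_prod,
          one_mul, map_mul, map_mul, map_natCast, map_prod]
        have h1 : ∏ τ' ∈ T.erase τ, (X ^ e - C (algebraMap K E τ')).eval s =
            ∏ τ' ∈ T.erase τ, algebraMap K E (τ - τ') := by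
          refine Finset.prod_congr rfl fun τ' _ => ?_
          rw [eval_sub, eval_pow, eval_X, eval_C, hxe, map_sub]
        rw [h1]
        have h2 : s ^ (e - 1) * s = algebraMap K E τ := by
          rw [← pow_succ, Nat.sub_add_cancel he0, hxe]
        calc (e : E) * s ^ (e - 1) * (s * ∏ τ' ∈ T.erase τ, algebraMap K E (τ - τ'))
            = (e : E) * (s ^ (e - 1) * s) * ∏ τ' ∈ T.erase τ, algebraMap K E (τ - τ') := by ring
          _ = _ := by rw [h2]

/-- Two points and members of the pencil of norm hypersurfaces with these base points. -/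
theorem exists_balanced_pencil {ν : ℕ} (hν : ν = (Fintype.card E - 1) / (Fintype.card K - 1))
    {a : ℕ} (ha : a ≤ Fintype.card K - 2) :
    ∃ S : Finset E, Balanced K S ∧ S.card = a * ν + 2 := by
  have hE := Fintype.one_lt_card (α := E)
  have hK := Fintype.one_lt_card (α := K)
  have hdvd : Fintype.card K - 1 ∣ Fintype.card E - 1 := by
    rw [Module.card_eq_pow_finrank (K := K) (V := E)]
    have := Nat.sub_dvd_pow_sub_pow (Fintype.card K) 1 (finrank K E)
    rwa [one_pow] at this
  have hν0 : 0 < ν := by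
    rw [hν]
    exact Nat.div_pos (Nat.le_of_dvd (by omega) hdvd) (by omega)
  have hνE : ν ∣ Fintype.card E - 1 := by
    rw [hν]
    exact Nat.div_dvd_of_dvd hdvd
  have hνK : ((ν : ℕ) : K) ≠ 0 := by
    intro h
    obtain ⟨u, hu⟩ := hνE
    have h0 : ((ν : ℕ) : E) = 0 := by
      rw [← map_natCast (algebraMap K E), h, map_zero]
    have h1 : ((Fintype.card E - 1 : ℕ) : E) = 0 := by rw [hu, Nat.cast_mul, h0, zero_mul]
    have h2 : ((Fintype.card E - 1 + 1 : ℕ) : E) = 0 := by
      rw [Nat.sub_add_cancel hE.le]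
      exact FiniteField.cast_card_eq_zero E
    rw [Nat.cast_add, h1, zero_add, Nat.cast_one] at h2
    exact one_ne_zero h2
  have hnorm : ∀ x : E, x ^ ν = algebraMap K E (Algebra.norm K x) := by
    intro x
    rw [FiniteField.algebraMap_norm_eq_pow, Nat.card_eq_fintype_card,
      Nat.card_eq_fintype_card, ← hν]
  obtain ⟨T, hT, hTc⟩ := Finset.exists_subset_card_eq
    (s := ((Finset.univ : Finset K).erase 0).erase 1) (n := a) (by
      rw [Finset.card_erase_of_mem (Finset.mem_erase.2 ⟨one_ne_zero, Finset.mem_univ _⟩),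
        Finset.card_erase_of_mem (Finset.mem_univ _), Finset.card_univ]
      omega)
  have hT1 : ∀ τ ∈ T, τ ≠ 1 := fun τ hτ => (Finset.mem_erase.1 (hT hτ)).1
  have hT0 : ∀ τ ∈ T, τ ≠ 0 := fun τ hτ =>
    (Finset.mem_erase.1 (Finset.mem_of_mem_erase (hT hτ))).1
  set fib : K → Finset E := fun τ =>
    Finset.univ.filter fun x => x ^ ν = algebraMap K E τ * (x - 1) ^ ν with hfib
  have hfibmem : ∀ {τ : K} {x : E}, x ∈ fib τ ↔ x ^ ν = algebraMap K E τ * (x - 1) ^ ν := by
    intro τ x
    rw [hfib]
    simp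
  have hne0 : ∀ τ ∈ T, ∀ x ∈ fib τ, x ≠ 0 := by
    rintro τ hτ x hx rfl
    rw [hfibmem, zero_pow hν0.ne', zero_sub] at hx
    rcases mul_eq_zero.1 hx.symm with h | h
    · exact hT0 τ hτ ((map_eq_zero _).1 h)
    · exact pow_ne_zero ν (neg_ne_zero.2 one_ne_zero) h
  have hne1 : ∀ τ ∈ T, ∀ x ∈ fib τ, x ≠ 1 := by
    rintro τ hτ x hx rfl
    rw [hfibmem, one_pow, sub_self, zero_pow hν0.ne', mul_zero] at hx
    exact one_ne_zero hx
  have hfibcard : ∀ τ ∈ T, (fib τ).card = ν := by
    intro τ hτ
    rw [← card_pow_eq (E := E) (K := K) (e := ν) (by rw [hν]) (hT0 τ hτ)]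
    refine Finset.card_bij' (fun x _ => x / (x - 1)) (fun y _ => y / (y - 1)) ?_ ?_ ?_ ?_
    · intro x hx
      have h1 := sub_ne_zero.2 (hne1 τ hτ x hx)
      rw [Finset.mem_filter]
      refine ⟨Finset.mem_univ _, ?_⟩
      rw [div_pow, hfibmem.1 hx, mul_div_cancel_right₀ _ (pow_ne_zero ν h1)]
    · intro y hy
      have hy2 := (Finset.mem_filter.1 hy).2
      have hy1 : y ≠ 1 := by
        rintro rfl
        rw [one_pow] at hy2
        exact hT1 τ hτ ((algebraMap K E).injective (by rw [map_one]; exact hy2.symm))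
      have h1 := sub_ne_zero.2 hy1
      rw [hfibmem]
      have h2 : y / (y - 1) - 1 = 1 / (y - 1) := by
        field_simp
        ring
      rw [h2, div_pow, div_pow, one_pow, hy2, mul_one_div]
    · intro x hx
      have h1 := sub_ne_zero.2 (hne1 τ hτ x hx)
      have h2 : x / (x - 1) - 1 = 1 / (x - 1) := by
        field_simp
        ring
      rw [h2]
      field_simp
    · intro y hy
      have hy2 := (Finset.mem_filter.1 hy).2
      have hy1 : y ≠ 1 := by
        rintro rfl
        rw [one_pow] at hy2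
        exact hT1 τ hτ ((algebraMap K E).injective (by rw [map_one]; exact hy2.symm))
      have h1 := sub_ne_zero.2 hy1
      have h2 : y / (y - 1) - 1 = 1 / (y - 1) := by
        field_simp
        ring
      rw [h2]
      field_simp
  set S : Finset E := insert 0 (insert 1 (T.biUnion fib)) with hS
  have h1n : (1 : E) ∉ T.biUnion fib := by
    intro h
    obtain ⟨τ, hτ, hx⟩ := Finset.mem_biUnion.1 h
    exact hne1 τ hτ 1 hx rfl
  have h0n : (0 : E) ∉ insert 1 (T.biUnion fib) := by
    intro h
    rcases Finset.mem_insert.1 h with h | h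
    · exact zero_ne_one h
    · obtain ⟨τ, hτ, hx⟩ := Finset.mem_biUnion.1 h
      exact hne0 τ hτ 0 hx rfl
  have hcard : S.card = a * ν + 2 := by
    rw [hS, Finset.card_insert_of_notMem h0n, Finset.card_insert_of_notMem h1n,
      Finset.card_biUnion]
    · rw [Finset.sum_congr rfl hfibcard, Finset.sum_const, smul_eq_mul, hTc]
    · intro τ hτ τ' _ hne
      refine Finset.disjoint_left.2 fun x hx hx' => hne ?_
      have h1 := hfibmem.1 hx
      have h2 := hfibmem.1 hx'
      rw [h1] at h2
      have h3 := pow_ne_zero ν (sub_ne_zero.2 (hne1 τ hτ x hx))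
      exact (algebraMap K E).injective (mul_right_cancel₀ h3 h2)
  refine ⟨S, ?_, hcard⟩
  set D : K → E[X] := fun τ => X ^ ν - C (algebraMap K E τ) * (X - C 1) ^ ν with hD
  set P : E[X] := X * ((X - C 1) * ∏ τ ∈ T, D τ) with hP
  have hDeval : ∀ τ x, (D τ).eval x = x ^ ν - algebraMap K E τ * (x - 1) ^ ν := by
    intro τ x
    simp [hD]
  have hP0' : (derivative P).eval 0 = -∏ τ ∈ T, -(algebraMap K E τ * (-1) ^ ν) := by
    rw [hP, eval_derivative_mul_of_root eval_X, derivative_X, eval_one,
      one_mul, eval_mul, eval_sub, eval_X, eval_C, zero_sub, eval_prod, neg_one_mul]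
    congr 1
    refine Finset.prod_congr rfl fun τ _ => ?_
    rw [hDeval, zero_pow hν0.ne', zero_sub, zero_sub]
  have hPne : P ≠ 0 := by
    intro h
    rw [h, derivative_zero, eval_zero] at hP0'
    have h1 := Finset.prod_eq_zero_iff.1 (neg_eq_zero.1 hP0'.symm)
    obtain ⟨τ, hτ, h2⟩ := h1
    rcases mul_eq_zero.1 (neg_eq_zero.1 h2) with h3 | h3
    · exact hT0 τ hτ ((map_eq_zero _).1 h3)
    · exact pow_ne_zero ν (neg_ne_zero.2 one_ne_zero) h3
  have hDdeg : ∀ τ ∈ T, (D τ).natDegree ≤ ν := by
    intro τ _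
    refine (natDegree_sub_le _ _).trans (max_le ?_ ?_)
    · rw [natDegree_X_pow]
    · refine (natDegree_C_mul_le _ _).trans ?_
      rw [natDegree_pow, natDegree_X_sub_C, mul_one]
  have hPdeg : P.natDegree ≤ a * ν + 2 := by
    refine natDegree_mul_le.trans ?_
    rw [natDegree_X]
    have h1 : ((X - C 1) * ∏ τ ∈ T, D τ).natDegree ≤ 1 + a * ν := by
      refine natDegree_mul_le.trans ?_
      rw [natDegree_X_sub_C]
      have h2 := (natDegree_prod_le T D).trans (Finset.sum_le_sum hDdeg)
      rw [Finset.sum_const, smul_eq_mul, hTc] at h2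
      omega
    omega
  refine balanced_of_derivative hPne (by rw [hcard]; exact hPdeg) ?_ ⟨1, one_ne_zero, ?_⟩
  · intro s hs
    rw [hP, eval_mul, eval_mul, eval_X, eval_sub, eval_X, eval_C, eval_prod]
    rcases Finset.mem_insert.1 hs with rfl | hs
    · rw [zero_mul]
    rcases Finset.mem_insert.1 hs with rfl | hs
    · rw [sub_self, zero_mul, mul_zero]
    · obtain ⟨τ, hτ, hx⟩ := Finset.mem_biUnion.1 hs
      rw [Finset.prod_eq_zero hτ, mul_zero, mul_zero]
      rw [hDeval, hfibmem.1 hx, sub_self]
  · intro s hs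
    rcases Finset.mem_insert.1 hs with rfl | hs
    · refine ⟨-∏ τ ∈ T, -(τ * (-1) ^ ν), ?_, ?_⟩
      · refine neg_ne_zero.2 (Finset.prod_ne_zero_iff.2 fun τ hτ => neg_ne_zero.2 ?_)
        exact mul_ne_zero (hT0 τ hτ) (pow_ne_zero ν (neg_ne_zero.2 one_ne_zero))
      · rw [hP0', one_mul, map_neg, map_prod]
        congr 1
        refine Finset.prod_congr rfl fun τ _ => ?_
        rw [map_neg, map_mul, map_pow, map_neg, map_one]
    rcases Finset.mem_insert.1 hs with rfl | hs
    · refine ⟨1, one_ne_zero, ?_⟩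
      have hsplit : P = (X - C 1) * (X * ∏ τ ∈ T, D τ) := by
        rw [hP]
        ring
      have hroot : (X - C 1 : E[X]).eval 1 = 0 := by
        rw [eval_sub, eval_X, eval_C, sub_self]
      rw [hsplit, eval_derivative_mul_of_root hroot, derivative_X_sub_C, eval_one, one_mul,
        eval_mul, eval_X, one_mul, eval_prod, map_one, mul_one]
      refine Finset.prod_eq_one fun τ _ => ?_
      rw [hDeval, one_pow, sub_self, zero_pow hν0.ne', mul_zero, sub_zero]
    · obtain ⟨τ, hτ, hx⟩ := Finset.mem_biUnion.1 hs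
      have hs0 := hne0 τ hτ s hx
      have hs1 := hne1 τ hτ s hx
      have hse := hfibmem.1 hx
      have hτE : algebraMap K E τ ≠ 0 := (_root_.map_ne_zero _).2 (hT0 τ hτ)
      have hNs : Algebra.norm K s ≠ 0 := by
        intro h
        have h1 := hnorm s
        rw [h, map_zero] at h1
        exact pow_ne_zero ν hs0 h1
      refine ⟨-(ν * Algebra.norm K s) * ∏ τ' ∈ T.erase τ, (Algebra.norm K s * (1 - τ' / τ)),
        ?_, ?_⟩
      · refine mul_ne_zero (neg_ne_zero.2 (mul_ne_zero hνK hNs)) (Finset.prod_ne_zero_iff.2 ?_)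
        intro τ' hτ'
        refine mul_ne_zero hNs (sub_ne_zero.2 ?_)
        intro h
        apply (Finset.mem_erase.1 hτ').1
        rw [eq_div_iff (hT0 τ hτ), one_mul] at h
        exact h.symm
      · have hsplit : P = D τ * (X * ((X - C 1) * ∏ τ' ∈ T.erase τ, D τ')) := by
          rw [hP, ← Finset.mul_prod_erase _ _ hτ]
          ring
        have hDs : (D τ).eval s = 0 := by rw [hDeval, hse, sub_self]
        have hD' : (derivative (D τ)).eval s =
            (ν : E) * (s ^ (ν - 1) - algebraMap K E τ * (s - 1) ^ (ν - 1)) := by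
          simp only [hD]
          rw [derivative_sub, derivative_X_pow, derivative_C_mul, derivative_X_sub_C_pow,
            eval_sub, eval_mul, eval_C, eval_pow, eval_X, eval_mul, eval_C, eval_mul, eval_C,
            eval_pow, eval_sub, eval_X, eval_C]
          ring
        have hpow1 : s ^ (ν - 1) * s = s ^ ν := by
          rw [← pow_succ, Nat.sub_add_cancel hν0]
        have hpow2 : (s - 1) ^ (ν - 1) * (s - 1) = (s - 1) ^ ν := by
          rw [← pow_succ, Nat.sub_add_cancel hν0]
        have hmain : (derivative (D τ)).eval s * (s * (s - 1)) =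
            -((ν : E) * algebraMap K E (Algebra.norm K s)) := by
          rw [hD', ← hnorm]
          calc (ν : E) * (s ^ (ν - 1) - algebraMap K E τ * (s - 1) ^ (ν - 1)) * (s * (s - 1))
              = (ν : E) * ((s ^ (ν - 1) * s) * (s - 1) -
                (algebraMap K E τ * ((s - 1) ^ (ν - 1) * (s - 1))) * s) := by ring
            _ = (ν : E) * (s ^ ν * (s - 1) - s ^ ν * s) := by
                rw [hpow1, hpow2, ← hse]
            _ = -((ν : E) * s ^ ν) := by ring
        have hprod : ∏ τ' ∈ T.erase τ, (D τ').eval s =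
            ∏ τ' ∈ T.erase τ, algebraMap K E (Algebra.norm K s * (1 - τ' / τ)) := by
          refine Finset.prod_congr rfl fun τ' _ => ?_
          rw [hDeval, map_mul, map_sub, map_one, map_div₀, ← hnorm]
          have h3 : (s - 1) ^ ν = s ^ ν / algebraMap K E τ := by
            rw [eq_div_iff hτE, hse]
            ring
          rw [h3]
          field_simp
        rw [hsplit, eval_derivative_mul_of_root hDs,
          eval_mul, eval_X, eval_mul, eval_sub, eval_X, eval_C, eval_prod, hprod, one_mul,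
          map_mul, map_neg, map_mul, map_natCast, ← hmain, map_prod]
        ring

end

end Pool.Agent.Helper36.BCH
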