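import Pool.Agent.Helper36.BCH.Ann

/-!
# Two operations on balanced sets
-/

set_option linter.unusedSectionVars false

namespace Pool.Agent.Helper36.BCH

open Polynomial

variable {K L : Type} [Field K] [Field L] [Algebra K L] [Fintype L] [DecidableEq L]

/-- The preimage of `S` under the additive map of `V`. -/
noncomputable def pre (V S : Finset L) : Finset L :=
  Finset.univ.filter fun t => (ann V).eval t ∈ S

theorem mem_pre {V S : Finset L} {t : L} : t ∈ pre V S ↔ (ann V).eval t ∈ S := by
  simp [pre]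

theorem card_pre {V S : Finset L} (hV : IsSub V) (hSW : S ⊆ img V) :
    (pre V S).card = S.card * V.card := by
  have h := Finset.card_eq_sum_card_fiberwise (s := pre V S) (t := S)
    (f := fun t => (ann V).eval t) (fun t ht => mem_pre.1 ht)
  rw [h, ← smul_eq_mul, ← Finset.sum_const]
  refine Finset.sum_congr rfl fun y hy => ?_
  rw [← hV.card_fiber (hSW hy)]
  congr 1
  ext t
  simp only [Finset.mem_filter, mem_pre, Finset.mem_univ, true_and]
  constructor
  · exact fun h => h.2
  · exact fun h => ⟨h ▸ hy, h⟩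

/-- Preimages of balanced sets under additive polynomials are balanced. -/
theorem Balanced.pre {V S : Finset L} (hV : IsSub V) (hS : Balanced K S) (hSW : S ⊆ img V) :
    Balanced K (pre V S) := by
  obtain ⟨lam, hlam, hk⟩ := hS
  have hκ : ∏ v ∈ V.erase 0, (-v) ≠ 0 := by
    rw [Finset.prod_ne_zero_iff]
    intro v hv
    exact neg_ne_zero.2 (Finset.mem_erase.1 hv).1
  refine ⟨(∏ v ∈ V.erase 0, (-v)) * lam, mul_ne_zero hκ hlam, ?_⟩
  intro s hs
  have hy0 : (ann V).eval s ∈ S := mem_pre.1 hs
  obtain ⟨k, hk0, hk1⟩ := hk _ hy0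
  refine ⟨k, hk0, ?_⟩
  rw [mul_assoc, ← hk1]
  rw [← Finset.prod_fiberwise_of_maps_to (s := (BCH.pre V S).erase s) (t := S)
    (g := fun t => (ann V).eval t)
    (fun t ht => mem_pre.1 (Finset.mem_of_mem_erase ht)),
    ← Finset.mul_prod_erase _ _ hy0]
  congr 1
  · -- the fibre through `s`
    have h1 : ((BCH.pre V S).erase s).filter (fun t => (ann V).eval t = (ann V).eval s) =
        (V.erase 0).image fun v => s + v := by
      ext t
      simp only [Finset.mem_filter, Finset.mem_erase, mem_pre, Finset.mem_image]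
      constructor
      · rintro ⟨⟨h2, -⟩, h3⟩
        refine ⟨t - s, ⟨sub_ne_zero.2 h2, ?_⟩, by ring⟩
        rw [← eval_ann_eq_zero_iff, hV.eval_sub, h3, sub_self]
      · rintro ⟨v, ⟨hv0, hv⟩, rfl⟩
        refine ⟨⟨?_, ?_⟩, hV.map_add hv s⟩
        · intro h
          exact hv0 (by simpa using h)
        · rw [hV.map_add hv s]
          exact hy0
    rw [h1, Finset.prod_image (fun a _ b _ h => add_right_injective s h)]
    refine Finset.prod_congr rfl fun v _ => ?_
    ring
  · refine Finset.prod_congr rfl fun y hy => ?_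
    have hyS := Finset.mem_of_mem_erase hy
    have hne := (Finset.mem_erase.1 hy).1
    have h1 : ((BCH.pre V S).erase s).filter (fun t => (ann V).eval t = y) =
        Finset.univ.filter fun t => (ann V).eval t = y := by
      ext t
      simp only [Finset.mem_filter, Finset.mem_erase, mem_pre, Finset.mem_univ, true_and]
      constructor
      · exact fun h => h.2
      · intro h
        refine ⟨⟨?_, h ▸ hyS⟩, h⟩
        rintro rfl
        exact hne h.symm
    rw [h1]
    have h2 := congrArg (fun f => eval s f) (hV.prod_fiber (hSW hyS))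
    simp only [eval_prod, Polynomial.eval_sub, eval_X, eval_C] at h2
    exact h2

theorem prod_nthRoots_ne_one_mem {ζ : L} {d : ℕ} (hd : 0 < d) (hζ : IsPrimitiveRoot ζ d)
    (hζK : ζ ∈ (algebraMap K L).range) :
    ∏ η ∈ (nthRootsFinset d (1 : L)).erase 1, (1 - η) ∈ (algebraMap K L).range ∧
      ∏ η ∈ (nthRootsFinset d (1 : L)).erase 1, (1 - η) ≠ 0 := by
  constructor
  · refine prod_mem fun η hη => sub_mem (one_mem _) ?_
    have h1 := (mem_nthRootsFinset hd 1).1 (Finset.mem_of_mem_erase hη)
    have : NeZero d := ⟨by omega⟩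
    obtain ⟨i, -, rfl⟩ := hζ.eq_pow_of_pow_eq_one h1
    exact pow_mem hζK i
  · rw [Finset.prod_ne_zero_iff]
    intro η hη
    exact sub_ne_zero.2 (Finset.mem_erase.1 hη).1.symm

/-- The image of a balanced set which is stable under the `d`-th roots of unity under the `d`-th
power map. -/
theorem Balanced.powImage {ζ : L} {d : ℕ} (hd : 0 < d) (hζ : IsPrimitiveRoot ζ d)
    (hζK : ζ ∈ (algebraMap K L).range) {Z : Finset L} (hZ : Balanced K Z) (h0 : (0 : L) ∈ Z)
    (hmul : ∀ z ∈ Z, ζ * z ∈ Z) :
    Balanced K (Z.image fun z => z ^ d) ∧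
      ((Z.image fun z => z ^ d).card - 1) * d + 1 = Z.card := by
  set μ := nthRootsFinset d (1 : L) with hμ
  have hμcard : μ.card = d := hζ.card_nthRootsFinset
  have hμ1 : (1 : L) ∈ μ := (mem_nthRootsFinset hd 1).2 (one_pow d)
  have hpowmul : ∀ i : ℕ, ∀ z ∈ Z, ζ ^ i * z ∈ Z := by
    intro i
    induction i with
    | zero => intro z hz; simpa using hz
    | succ i ih =>
      intro z hz
      rw [pow_succ', mul_assoc]
      exact hmul _ (ih z hz)
  have hμmul : ∀ η ∈ μ, ∀ z ∈ Z, η * z ∈ Z := by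
    intro η hη z hz
    have : NeZero d := ⟨by omega⟩
    obtain ⟨i, -, rfl⟩ := hζ.eq_pow_of_pow_eq_one ((mem_nthRootsFinset hd 1).1 hη)
    exact hpowmul i z hz
  have hd0 : d ≠ 0 := by omega
  have hfib : ∀ z0 ∈ Z, z0 ≠ 0 → Z.filter (fun z => z ^ d = z0 ^ d) = μ.image fun η => η * z0 := by
    intro z0 hz0 hne
    ext z
    simp only [Finset.mem_filter, Finset.mem_image]
    constructor
    · rintro ⟨hz, hzd⟩
      refine ⟨z / z0, (mem_nthRootsFinset hd 1).2 ?_, div_mul_cancel₀ z hne⟩
      rw [div_pow, hzd, div_self (pow_ne_zero d hne)]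
    · rintro ⟨η, hη, rfl⟩
      refine ⟨hμmul η hη z0 hz0, ?_⟩
      rw [mul_pow, (mem_nthRootsFinset hd 1).1 hη, one_mul]
  have hprodfib : ∀ s : L, ∀ z0 ∈ Z, z0 ≠ 0 →
      ∏ t ∈ Z.filter (fun z => z ^ d = z0 ^ d), (s - t) = s ^ d - z0 ^ d := by
    intro s z0 hz0 hne
    rw [hfib z0 hz0 hne, Finset.prod_image (fun a _ b _ h => mul_right_cancel₀ hne h),
      hζ.pow_sub_pow_eq_prod_sub_mul s z0 hd]
  set S := Z.image fun z => z ^ d with hS
  have h0S : (0 : L) ∈ S := Finset.mem_image.2 ⟨0, h0, zero_pow hd0⟩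
  have hmaps : ∀ z ∈ Z, z ^ d ∈ S := fun z hz => Finset.mem_image.2 ⟨z, hz, rfl⟩
  have hSne : ∀ u ∈ S, u ≠ 0 → ∃ z0 ∈ Z, z0 ≠ 0 ∧ z0 ^ d = u := by
    intro u hu hu0
    obtain ⟨z0, hz0, hz0u⟩ := Finset.mem_image.1 hu
    refine ⟨z0, hz0, ?_, hz0u⟩
    rintro rfl
    exact hu0 (by rw [← hz0u]; exact zero_pow hd0)
  have hfilt_ne : ∀ s ∈ Z, ∀ u, s ^ d ≠ u →
      (Z.erase s).filter (fun t => t ^ d = u) = Z.filter fun t => t ^ d = u := by
    intro s _ u hu
    ext t
    simp only [Finset.mem_filter, Finset.mem_erase]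
    constructor
    · exact fun h => ⟨h.1.2, h.2⟩
    · intro h
      refine ⟨⟨?_, h.1⟩, h.2⟩
      rintro rfl
      exact hu h.2
  have hfilt0 : Z.filter (fun t => t ^ d = 0) = {0} := by
    ext t
    simp only [Finset.mem_filter, Finset.mem_singleton]
    constructor
    · exact fun h => (pow_eq_zero_iff hd0).1 h.2
    · rintro rfl
      exact ⟨h0, zero_pow hd0⟩
  constructor
  · obtain ⟨lam, hlam, hk⟩ := hZ
    obtain ⟨⟨e, he⟩, hene⟩ := prod_nthRoots_ne_one_mem hd hζ hζK
    have he0 : e ≠ 0 := by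
      rintro rfl
      rw [map_zero] at he
      exact hene he.symm
    refine ⟨lam, hlam, ?_⟩
    intro u hu
    by_cases hu0 : u = 0
    · subst hu0
      obtain ⟨k, hk0, hk1⟩ := hk 0 h0
      refine ⟨k, hk0, ?_⟩
      rw [← hk1, ← Finset.prod_fiberwise_of_maps_to (s := Z.erase 0) (t := S.erase 0)
        (g := fun t => t ^ d)]
      · refine Finset.prod_congr rfl fun u hu => ?_
        have hu1 := (Finset.mem_erase.1 hu).1
        obtain ⟨z0, hz0, hz0ne, hz0u⟩ := hSne u (Finset.mem_of_mem_erase hu) hu1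
        rw [hfilt_ne 0 h0 u (by rw [zero_pow hd0]; exact hu1.symm), ← hz0u, hprodfib 0 z0 hz0 hz0ne,
          zero_pow hd0]
      · intro t ht
        have ht1 := Finset.mem_erase.1 ht
        exact Finset.mem_erase.2 ⟨pow_ne_zero d ht1.1, hmaps t ht1.2⟩
    · obtain ⟨s, hs, hsne, hsu⟩ := hSne u hu hu0
      obtain ⟨k, hk0, hk1⟩ := hk s hs
      refine ⟨k / e, div_ne_zero hk0 he0, ?_⟩
      have hu0S : (0 : L) ∈ S.erase u := Finset.mem_erase.2 ⟨Ne.symm hu0, h0S⟩
      have hmain : ∏ t ∈ Z.erase s, (s - t) =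
          (s ^ (d - 1) * algebraMap K L e) * (s * ∏ w ∈ (S.erase u).erase 0, (u - w)) := by
        rw [← Finset.prod_fiberwise_of_maps_to (s := Z.erase s) (t := S) (g := fun t => t ^ d)
          (fun t ht => hmaps t (Finset.mem_of_mem_erase ht)),
          ← Finset.mul_prod_erase _ _ hu, ← Finset.mul_prod_erase _ _ hu0S]
        congr 1
        · have h1 : (Z.erase s).filter (fun t => t ^ d = u) =
              (μ.erase 1).image fun η => η * s := by
            ext t
            simp only [Finset.mem_filter, Finset.mem_erase, Finset.mem_image]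
            constructor
            · rintro ⟨⟨hts, htZ⟩, htd⟩
              have h2 : t ∈ Z.filter (fun z => z ^ d = s ^ d) :=
                Finset.mem_filter.2 ⟨htZ, by rw [htd, hsu]⟩
              rw [hfib s hs hsne] at h2
              obtain ⟨η, hη, rfl⟩ := Finset.mem_image.1 h2
              refine ⟨η, ⟨?_, hη⟩, rfl⟩
              rintro rfl
              exact hts (one_mul s)
            · rintro ⟨η, ⟨hη1, hη⟩, rfl⟩
              refine ⟨⟨?_, hμmul η hη s hs⟩, ?_⟩
              · intro h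
                exact hη1 (mul_right_cancel₀ hsne (by rw [h, one_mul]))
              · rw [mul_pow, (mem_nthRootsFinset hd 1).1 hη, one_mul, hsu]
          rw [h1, Finset.prod_image (fun a _ b _ h => mul_right_cancel₀ hsne h), he]
          have h2 : ∀ η ∈ μ.erase 1, s - η * s = s * (1 - η) := fun η _ => by ring
          rw [Finset.prod_congr rfl h2, Finset.prod_mul_distrib, Finset.prod_const,
            Finset.card_erase_of_mem hμ1, hμcard]
        · congr 1
          · rw [hfilt_ne s hs 0 (pow_ne_zero d hsne), hfilt0, Finset.prod_singleton, sub_zero]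
          · refine Finset.prod_congr rfl fun w hw => ?_
            have hw1 := Finset.mem_erase.1 hw
            have hw2 := Finset.mem_erase.1 hw1.2
            obtain ⟨z0, hz0, hz0ne, hz0w⟩ := hSne w hw2.2 hw1.1
            rw [hfilt_ne s hs w (by rw [hsu]; exact hw2.1.symm), ← hz0w, hprodfib s z0 hz0 hz0ne,
              hsu]
      have hfin : ∏ w ∈ S.erase u, (u - w) = u * ∏ w ∈ (S.erase u).erase 0, (u - w) := by
        rw [← Finset.mul_prod_erase _ _ hu0S, sub_zero]
      have heL : algebraMap K L e ≠ 0 := by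
        rw [Ne, map_eq_zero]
        exact he0
      have h3 : s ^ (d - 1) * s = u := by
        rw [← pow_succ, Nat.sub_add_cancel hd, hsu]
      rw [hfin, map_div₀, ← mul_div_assoc, ← hk1, hmain, eq_div_iff heL, ← h3]
      ring
  · have h1 := Finset.card_eq_sum_card_fiberwise (s := Z.erase 0) (t := S.erase 0)
      (f := fun t => t ^ d) (by
        intro t ht
        have ht1 := Finset.mem_erase.1 (Finset.mem_coe.1 ht)
        exact Finset.mem_coe.2 (Finset.mem_erase.2 ⟨pow_ne_zero d ht1.1, hmaps t ht1.2⟩))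
    have h2 : ∀ u ∈ S.erase 0, ((Z.erase 0).filter fun t => t ^ d = u).card = d := by
      intro u hu
      have hu1 := (Finset.mem_erase.1 hu).1
      obtain ⟨z0, hz0, hz0ne, hz0u⟩ := hSne u (Finset.mem_of_mem_erase hu) hu1
      rw [hfilt_ne 0 h0 u (by rw [zero_pow hd0]; exact hu1.symm), ← hz0u, hfib z0 hz0 hz0ne,
        Finset.card_image_of_injective _ (fun a b h => mul_right_cancel₀ hz0ne h), hμcard]
    rw [Finset.sum_congr rfl h2, Finset.sum_const, smul_eq_mul, Finset.card_erase_of_mem h0,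
      Finset.card_erase_of_mem h0S] at h1
    have h3 : 0 < Z.card := Finset.card_pos.2 ⟨0, h0⟩
    omega

end Pool.Agent.Helper36.BCH
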