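import Pool.Agent.Helper36.BCH.Norm

/-!
# Two subspaces whose linearised polynomials differ in one coefficient
-/

set_option linter.unusedSectionVars false

namespace Pool.Agent.Helper36.BCH

open Polynomial Module

/-- The sum of the powers `r ^ l` with `l < i`. -/
def ge (r i : ℕ) : ℕ := ∑ l ∈ Finset.range i, r ^ l

theorem ge_zero (r : ℕ) : ge r 0 = 0 := by simp [ge]

theorem ge_one (r : ℕ) : ge r 1 = 1 := by simp [ge]

theorem ge_mul {r : ℕ} (hr : 1 ≤ r) (i : ℕ) : (r - 1) * ge r i + 1 = r ^ i := by
  obtain ⟨u, rfl⟩ : ∃ u, r = u + 1 := ⟨r - 1, by omega⟩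
  induction i with
  | zero => simp [ge]
  | succ i ih =>
    rw [ge, Finset.sum_range_succ, mul_add, add_right_comm]
    rw [ge] at ih
    rw [ih, Nat.add_sub_cancel, pow_succ]
    ring

theorem ge_succ (r i : ℕ) : ge r (i + 1) = 1 + r * ge r i := by
  rw [ge, Finset.sum_range_succ', ge, Finset.mul_sum, pow_zero, add_comm]
  congr 1
  refine Finset.sum_congr rfl fun l _ => ?_
  rw [pow_succ, mul_comm]

section

variable {F L : Type} [Field F] [Field L] [Fintype F] [Fintype L] [Algebra F L] [DecidableEq L]

theorem pow_card_pow_sub (x w : L) (c : F) (i : ℕ) :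
    (x - algebraMap F L c * w) ^ Fintype.card F ^ i =
      x ^ Fintype.card F ^ i - algebraMap F L c * w ^ Fintype.card F ^ i := by
  induction i with
  | zero => simp
  | succ i ih =>
    rw [pow_succ, pow_mul, pow_mul, pow_mul, ih]
    have h1 : ∀ z : L, z ^ Fintype.card F = FiniteField.frobeniusAlgHom F L z := fun _ => rfl
    rw [h1, map_sub, map_mul, AlgHom.commutes, ← h1, ← h1]

theorem sum_pow_card {ι : Type} (s : Finset ι) (f : ι → L) :
    (∑ i ∈ s, f i) ^ Fintype.card F = ∑ i ∈ s, f i ^ Fintype.card F := by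
  have h1 : ∀ z : L, z ^ Fintype.card F = FiniteField.frobeniusAlgHom F L z := fun _ => rfl
  simp only [h1]
  exact map_sum _ _ _

/-- The elements fixed by the Frobenius map. -/
theorem mem_range_of_pow_eq {z : L} (hz : z ^ Fintype.card F = z) :
    ∃ c : F, algebraMap F L c = z := by
  classical
  have hF := Fintype.one_lt_card (α := F)
  set A : Finset L := Finset.univ.image (algebraMap F L) with hA
  have hAc : A.card = Fintype.card F := by
    rw [hA, Finset.card_image_of_injective _ (algebraMap F L).injective, Finset.card_univ]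
  set P : L[X] := X ^ Fintype.card F - X with hP
  have hPdeg : P.natDegree = Fintype.card F := by
    rw [hP]
    exact FiniteField.X_pow_card_sub_X_natDegree_eq L hF
  have hP0 : P ≠ 0 := by
    intro h
    rw [h, natDegree_zero] at hPdeg
    omega
  by_contra hcon
  have hzA : z ∉ A := by
    intro h
    obtain ⟨c, -, hc⟩ := Finset.mem_image.1 h
    exact hcon ⟨c, hc⟩
  have hsub : (insert z A) ⊆ P.roots.toFinset := by
    intro y hy
    rw [Multiset.mem_toFinset, mem_roots hP0, IsRoot.def, hP, eval_sub, eval_pow, eval_X]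
    rcases Finset.mem_insert.1 hy with rfl | hy
    · rw [hz, sub_self]
    · obtain ⟨c, -, rfl⟩ := Finset.mem_image.1 hy
      rw [← map_pow, FiniteField.pow_card, sub_self]
  have h1 := Finset.card_le_card hsub
  rw [Finset.card_insert_of_notMem hzA, hAc] at h1
  have h2 := Multiset.toFinset_card_le P.roots
  have h3 := P.card_roots'
  omega

/-- The linearised polynomial of the span of linearly independent elements. -/
theorem exists_linearised (h : ℕ) (s : Fin h → L) (hs : LinearIndependent F s) :
    ∃ b : ℕ → L, b 0 = 1 ∧ (∀ i, h < i → b i = 0) ∧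
      ∀ x, x ∈ Submodule.span F (Set.range s) ↔
        ∑ i ∈ Finset.range (h + 1), b i * x ^ Fintype.card F ^ i = 0 := by
  classical
  set r := Fintype.card F with hr
  have hr1 : 1 < r := Fintype.one_lt_card
  induction h with
  | zero =>
    refine ⟨fun i => if i = 0 then 1 else 0, by simp, fun i hi => if_neg (by omega), ?_⟩
    intro x
    have h1 : Set.range s = ∅ := Set.range_eq_empty s
    rw [h1, Submodule.span_empty, Submodule.mem_bot]
    simp
  | succ h ih =>
    rw [linearIndependent_finSucc] at hs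
    obtain ⟨b', hb0, hbz, hbs⟩ := ih (Fin.tail s) hs.1
    set f' : L → L := fun x => ∑ i ∈ Finset.range (h + 1), b' i * x ^ r ^ i with hf'
    set w := s 0 with hw
    have hfw : f' w ≠ 0 := fun h0 => hs.2 ((hbs w).2 h0)
    set g := f' w ^ (r - 1) with hg
    have hg0 : g ≠ 0 := pow_ne_zero _ hfw
    refine ⟨fun i => if i = 0 then 1 else b' i - b' (i - 1) ^ r / g, if_pos rfl, ?_, ?_⟩
    · intro i hi
      simp only
      rw [if_neg (by omega), hbz i (by omega), hbz (i - 1) (by omega),
        zero_pow (by omega : r ≠ 0), zero_div, sub_zero]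
    · intro x
      have hf : ∑ i ∈ Finset.range (h + 1 + 1),
          (if i = 0 then 1 else b' i - b' (i - 1) ^ r / g) * x ^ r ^ i =
          f' x - f' x ^ r / g := by
        have h2 : f' x = ∑ i ∈ Finset.range (h + 1), b' (i + 1) * x ^ r ^ (i + 1) +
            1 * x ^ r ^ 0 := by
          rw [← hb0, ← Finset.sum_range_succ' (fun i => b' i * x ^ r ^ i), Finset.sum_range_succ,
            hbz (h + 1) (by omega), zero_mul, add_zero]
        have h3 : f' x ^ r = ∑ i ∈ Finset.range (h + 1), (b' i * x ^ r ^ i) ^ r := by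
          rw [hf', hr]
          exact sum_pow_card (F := F) _ _
        rw [Finset.sum_range_succ', if_pos rfl]
        have h1 : ∀ i ∈ Finset.range (h + 1),
            (if i + 1 = 0 then 1 else b' (i + 1) - b' (i + 1 - 1) ^ r / g) * x ^ r ^ (i + 1) =
            b' (i + 1) * x ^ r ^ (i + 1) - (b' i * x ^ r ^ i) ^ r / g := by
          intro i _
          rw [if_neg (by omega), Nat.add_sub_cancel, sub_mul, mul_pow, ← pow_mul, ← pow_succ]
          ring
        rw [Finset.sum_congr rfl h1, Finset.sum_sub_distrib, ← Finset.sum_div, ← h3]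
        linear_combination (-1 : L) * h2
      rw [hf]
      have hsub : ∀ c : F, f' (x - algebraMap F L c * w) = f' x - algebraMap F L c * f' w := by
        intro c
        simp only [hf']
        rw [Finset.mul_sum, ← Finset.sum_sub_distrib]
        refine Finset.sum_congr rfl fun i _ => ?_
        rw [hr, pow_card_pow_sub]
        ring
      have hspan : x ∈ Submodule.span F (Set.range s) ↔
          ∃ c : F, x - algebraMap F L c * w ∈ Submodule.span F (Set.range (Fin.tail s)) := by
        have h1 : Set.range s = insert w (Set.range (Fin.tail s)) := by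
          rw [← Fin.range_cons, hw, Fin.cons_self_tail]
        rw [h1, Submodule.mem_span_insert]
        constructor
        · rintro ⟨c, z, hz, rfl⟩
          refine ⟨c, ?_⟩
          rw [Algebra.smul_def, add_sub_cancel_left]
          exact hz
        · rintro ⟨c, hc⟩
          refine ⟨c, _, hc, ?_⟩
          rw [Algebra.smul_def]
          ring
      rw [hspan]
      have hrr : r - 1 + 1 = r := by omega
      constructor
      · rintro ⟨c, hc⟩
        have h1 := (hbs _).1 hc
        have h2 : f' x = algebraMap F L c * f' w := by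
          have h3 := hsub c
          have h4 : f' (x - algebraMap F L c * w) = 0 := h1
          rw [h4] at h3
          exact (sub_eq_zero.1 h3.symm)
        rw [h2, mul_pow, ← map_pow, hr, FiniteField.pow_card, ← hr]
        have h5 : f' w ^ r = g * f' w := by rw [hg, ← pow_succ, hrr]
        rw [h5]
        field_simp
        ring
      · intro h0
        have h1 : (f' x / f' w) ^ r = f' x / f' w := by
          have h5 : f' w ^ r = g * f' w := by rw [hg, ← pow_succ, hrr]
          rw [div_pow, h5]
          have h6 : f' x ^ r = g * f' x := by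
            have h7 : f' x ^ r / g = f' x := (sub_eq_zero.1 h0).symm
            rw [div_eq_iff hg0] at h7
            rw [h7, mul_comm]
          rw [h6, mul_div_mul_left _ _ hg0]
        obtain ⟨c, hc⟩ := mem_range_of_pow_eq (F := F) h1
        refine ⟨c, (hbs _).2 ?_⟩
        change f' (x - algebraMap F L c * w) = 0
        rw [hsub, hc, div_mul_cancel₀ _ hfw, sub_self]

/-- The polynomial `G` with `X * G (X ^ (r - 1)) = ∑ b i * X ^ (r ^ i)`. -/
noncomputable def proj (r h : ℕ) (b : ℕ → L) : L[X] :=
  ∑ i ∈ Finset.range (h + 1), C (b i) * X ^ ge r i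

theorem eval_proj {r : ℕ} (hr : 1 ≤ r) (h : ℕ) (b : ℕ → L) (w : L) :
    w * (proj r h b).eval (w ^ (r - 1)) = ∑ i ∈ Finset.range (h + 1), b i * w ^ r ^ i := by
  rw [proj, eval_finsetSum, Finset.mul_sum]
  refine Finset.sum_congr rfl fun i _ => ?_
  rw [eval_mul, eval_C, eval_pow, eval_X, ← pow_mul, ← ge_mul hr i, pow_succ]
  ring

theorem natDegree_proj_le (r h : ℕ) (b : ℕ → L) : (proj r h b).natDegree ≤ ge r h := by
  refine natDegree_sum_le_of_forall_le _ _ fun i hi => ?_
  refine (natDegree_C_mul_X_pow_le _ _).trans ?_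
  have := Finset.mem_range.1 hi
  exact Finset.sum_le_sum_of_subset (Finset.range_mono (by omega))

theorem eval_derivative_proj {h : ℕ} {b : ℕ → L} (hb : b 0 = 1) (y : L) :
    y * (derivative (proj (Fintype.card F) h b)).eval y =
      (proj (Fintype.card F) h b).eval y - 1 := by
  set r := Fintype.card F with hr
  have hrL : ((r : ℕ) : L) = 0 := by
    rw [← map_natCast (algebraMap F L), hr, FiniteField.cast_card_eq_zero, map_zero]
  rw [proj, derivative_sum, eval_finsetSum, eval_finsetSum, Finset.sum_range_succ',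
    Finset.sum_range_succ', ge_zero, pow_zero, mul_one, derivative_C, eval_zero, add_zero,
    eval_C, hb, add_sub_cancel_right, Finset.mul_sum]
  refine Finset.sum_congr rfl fun i _ => ?_
  have h1 : ((ge r (i + 1) : ℕ) : L) = 1 := by
    rw [ge_succ, Nat.cast_add, Nat.cast_mul, hrL, zero_mul, add_zero, Nat.cast_one]
  rw [derivative_C_mul, derivative_X_pow, h1, C_1, one_mul, eval_mul, eval_C, eval_pow, eval_X,
    eval_mul, eval_C, eval_pow, eval_X]
  have h2 : ge r (i + 1) = ge r (i + 1) - 1 + 1 := by
    rw [ge_succ]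
    omega
  conv_rhs => rw [h2, pow_succ]
  ring

end

section

variable {F K L : Type} [Field F] [Field K] [Field L] [Fintype F] [Fintype L] [Algebra F L]
  [Algebra K L] [DecidableEq L]

/-- The set of the `(r - 1)`-th powers of the nonzero elements of `V`. -/
noncomputable def powSet (F : Type) {L : Type} [Field F] [Field L] [Fintype F] [Fintype L]
    [Algebra F L] [DecidableEq L] (V : Submodule F L) : Finset L :=
  haveI := Classical.decPred fun x : L => x ∈ V
  ((Finset.univ.filter fun x : L => x ∈ V).erase 0).image fun x => x ^ (Fintype.card F - 1)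

theorem mem_powSet {V : Submodule F L} {y : L} :
    y ∈ powSet F V ↔ ∃ w : L, w ∈ V ∧ w ≠ 0 ∧ w ^ (Fintype.card F - 1) = y := by
  classical
  rw [powSet, Finset.mem_image]
  constructor
  · rintro ⟨w, hw, rfl⟩
    rw [Finset.mem_erase, Finset.mem_filter] at hw
    exact ⟨w, hw.2.2, hw.1, rfl⟩
  · rintro ⟨w, hw, hw0, rfl⟩
    refine ⟨w, ?_, rfl⟩
    rw [Finset.mem_erase, Finset.mem_filter]
    exact ⟨hw0, Finset.mem_univ _, hw⟩

theorem ge_le_card_powSet (V : Submodule F L) {h : ℕ} (hV : finrank F V = h) :
    ge (Fintype.card F) h ≤ (powSet F V).card := by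
  classical
  have hr1 : 1 < Fintype.card F := Fintype.one_lt_card
  have hfin : (Finset.univ.filter fun x : L => x ∈ V).card = Fintype.card F ^ h := by
    rw [← hV, ← Module.card_eq_pow_finrank (K := F) (V := V), Fintype.card_of_subtype]
    intro x
    simp
  have h1 := Finset.card_le_mul_card_image (f := fun x : L => x ^ (Fintype.card F - 1))
    ((Finset.univ.filter fun x : L => x ∈ V).erase 0) (Fintype.card F - 1) (by
      intro y hy
      obtain ⟨w, hw, rfl⟩ := Finset.mem_image.1 hy
      have hw0 := (Finset.mem_erase.1 hw).1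
      refine le_trans (Finset.card_le_card (t := (nthRoots (Fintype.card F - 1)
        (w ^ (Fintype.card F - 1))).toFinset) ?_)
        ((Multiset.toFinset_card_le _).trans (card_nthRoots _ _))
      intro x hx
      rw [Multiset.mem_toFinset, mem_nthRoots (by omega)]
      exact (Finset.mem_filter.1 hx).2)
  rw [Finset.card_erase_of_mem (by simp), hfin, ← ge_mul hr1.le h, Nat.add_sub_cancel] at h1
  have h2 : powSet F V = ((Finset.univ.filter fun x : L => x ∈ V).erase 0).image
      fun x => x ^ (Fintype.card F - 1) := by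
    ext y
    rw [mem_powSet, Finset.mem_image]
    constructor
    · rintro ⟨w, hw, hw0, rfl⟩
      refine ⟨w, ?_, rfl⟩
      rw [Finset.mem_erase, Finset.mem_filter]
      exact ⟨hw0, Finset.mem_univ _, hw⟩
    · rintro ⟨w, hw, rfl⟩
      rw [Finset.mem_erase, Finset.mem_filter] at hw
      exact ⟨w, hw.2.2, hw.1, rfl⟩
  rw [h2]
  exact Nat.le_of_mul_le_mul_left h1 (by omega)

/-- The union for two subspaces whose linearised polynomials differ in the coefficient of
`X ^ r` only. -/
theorem balanced_pair {V V' : Submodule F L} {h : ℕ} (hh : 1 ≤ h) (hV : finrank F V = h)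
    (hV' : finrank F V' = h) {b b' : ℕ → L} (hb0 : b 0 = 1) (hb0' : b' 0 = 1)
    (hb1 : b 1 ≠ b' 1) (hb2 : ∀ i, 2 ≤ i → b i = b' i)
    (hbV : ∀ x, x ∈ V → ∑ i ∈ Finset.range (h + 1), b i * x ^ Fintype.card F ^ i = 0)
    (hbV' : ∀ x, x ∈ V' → ∑ i ∈ Finset.range (h + 1), b' i * x ^ Fintype.card F ^ i = 0) :
    ∃ S : Finset L, Balanced K S ∧ S.card = 2 * ge (Fintype.card F) h := by
  classical
  set r := Fintype.card F with hr
  have hr1 : 1 < r := Fintype.one_lt_card
  set G := proj r h b with hG
  set G' := proj r h b' with hG'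
  have hdiff : G = G' + C (b 1 - b' 1) * X := by
    obtain ⟨h', rfl⟩ : ∃ h', h = h' + 1 := ⟨h - 1, by omega⟩
    rw [hG, hG', proj, proj, Finset.sum_range_succ', Finset.sum_range_succ',
      Finset.sum_range_succ' (fun i => C (b' i) * X ^ ge r i),
      Finset.sum_range_succ' (fun i => C (b' (i + 1)) * X ^ ge r (i + 1))]
    have h1 : ∑ i ∈ Finset.range h', C (b (i + 1 + 1)) * (X : L[X]) ^ ge r (i + 1 + 1) =
        ∑ i ∈ Finset.range h', C (b' (i + 1 + 1)) * X ^ ge r (i + 1 + 1) := by
      refine Finset.sum_congr rfl fun i _ => ?_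
      rw [hb2 (i + 1 + 1) (by omega)]
    rw [h1, hb0, hb0', zero_add, ge_one, pow_one, C_sub]
    ring
  have hne : ∀ c : ℕ → L, c 0 = 1 → proj r h c ≠ 0 := by
    intro c hc h0
    have h1 := eval_derivative_proj (F := F) (h := h) hc 0
    rw [← hr, h0, eval_zero, zero_mul, zero_sub] at h1
    exact one_ne_zero (neg_eq_zero.1 h1.symm)
  have hroot : ∀ y ∈ powSet F V, G.eval y = 0 := by
    intro y hy
    obtain ⟨w, hw, hw0, rfl⟩ := mem_powSet.1 hy
    have h1 := eval_proj hr1.le h b w
    rw [hbV w hw] at h1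
    exact (mul_eq_zero.1 h1).resolve_left hw0
  have hroot' : ∀ y ∈ powSet F V', G'.eval y = 0 := by
    intro y hy
    obtain ⟨w, hw, hw0, rfl⟩ := mem_powSet.1 hy
    have h1 := eval_proj hr1.le h b' w
    rw [hbV' w hw] at h1
    exact (mul_eq_zero.1 h1).resolve_left hw0
  have hy0 : ∀ (W : Submodule F L), ∀ y ∈ powSet F W, y ≠ 0 := by
    intro W y hy
    obtain ⟨w, -, hw0, rfl⟩ := mem_powSet.1 hy
    exact pow_ne_zero _ hw0
  have hc0 : b 1 - b' 1 ≠ 0 := sub_ne_zero.2 hb1
  have hdisj : Disjoint (powSet F V) (powSet F V') := by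
    rw [Finset.disjoint_left]
    intro y hy hy'
    have h1 := congrArg (eval y) hdiff
    rw [hroot y hy, eval_add, hroot' y hy', zero_add, eval_mul, eval_C, eval_X] at h1
    rcases mul_eq_zero.1 h1.symm with h2 | h2
    · exact hc0 h2
    · exact hy0 V y hy h2
  have hcardle : 2 * ge r h ≤ (powSet F V ∪ powSet F V').card := by
    rw [Finset.card_union_of_disjoint hdisj]
    have h1 : ge r h ≤ (powSet F V).card := ge_le_card_powSet V hV
    have h2 : ge r h ≤ (powSet F V').card := ge_le_card_powSet V' hV'
    omega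
  have hP0 : G * G' ≠ 0 := mul_ne_zero (hne b hb0) (hne b' hb0')
  have hPdeg : (G * G').natDegree ≤ 2 * ge r h := by
    refine natDegree_mul_le.trans ?_
    have h1 : G.natDegree ≤ ge r h := natDegree_proj_le (L := L) r h b
    have h2 : G'.natDegree ≤ ge r h := natDegree_proj_le (L := L) r h b'
    omega
  have hz : ∀ s ∈ powSet F V ∪ powSet F V', (G * G').eval s = 0 := by
    intro s hs
    rw [eval_mul]
    rcases Finset.mem_union.1 hs with h1 | h1
    · rw [hroot s h1, zero_mul]
    · rw [hroot' s h1, mul_zero]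
  have hcard : (powSet F V ∪ powSet F V').card = 2 * ge r h := by
    refine le_antisymm ?_ hcardle
    have h1 : powSet F V ∪ powSet F V' ⊆ (G * G').roots.toFinset := by
      intro s hs
      rw [Multiset.mem_toFinset, mem_roots hP0]
      exact hz s hs
    have h2 := Finset.card_le_card h1
    have h3 := Multiset.toFinset_card_le (G * G').roots
    have h4 := (G * G').card_roots'
    omega
  refine ⟨powSet F V ∪ powSet F V', ?_, hcard⟩
  refine balanced_of_derivative hP0 (hPdeg.trans hcardle) hz ⟨b 1 - b' 1, hc0, ?_⟩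
  intro s hs
  rcases Finset.mem_union.1 hs with h1 | h1
  · refine ⟨1, one_ne_zero, ?_⟩
    rw [eval_derivative_mul_of_root (hroot s h1), map_one, mul_one]
    have h2 := eval_derivative_proj (F := F) (h := h) hb0 s
    rw [← hr, ← hG, hroot s h1, zero_sub] at h2
    have h3 := congrArg (eval s) hdiff
    rw [hroot s h1, eval_add, eval_mul, eval_C, eval_X] at h3
    have h4 : G'.eval s = -((b 1 - b' 1) * s) := by linear_combination -h3
    rw [h4]
    linear_combination (-(b 1 - b' 1)) * h2
  · refine ⟨-1, neg_ne_zero.2 one_ne_zero, ?_⟩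
    rw [mul_comm G G', eval_derivative_mul_of_root (hroot' s h1), map_neg, map_one]
    have h2 := eval_derivative_proj (F := F) (h := h) hb0' s
    rw [← hr, ← hG', hroot' s h1, zero_sub] at h2
    have h3 := congrArg (eval s) hdiff
    rw [eval_add, hroot' s h1, zero_add, eval_mul, eval_C, eval_X] at h3
    rw [h3]
    linear_combination (b 1 - b' 1) * h2

theorem prod_sub_ge {r M : ℕ} (hr : 1 ≤ r) (n : ℕ) (hn : n ≤ M) :
    (r ^ M) ^ (n + 1) ≤
      r ^ M * ∏ i ∈ Finset.range n, (r ^ M - r ^ i) + (r ^ M) ^ n * ge r n := by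
  induction n with
  | zero => simp [ge_zero]
  | succ n ih =>
    have h1 := ih (by omega)
    set A := ∏ i ∈ Finset.range n, (r ^ M - r ^ i) with hA
    have hAle : A ≤ (r ^ M) ^ n := by
      have h2 := Finset.prod_le_pow_card (Finset.range n) (fun i => r ^ M - r ^ i) (r ^ M)
        (fun i _ => Nat.sub_le _ _)
      rwa [Finset.card_range] at h2
    have hle : r ^ n ≤ r ^ M := Nat.pow_le_pow_right hr (by omega)
    rw [Finset.prod_range_succ, ← hA]
    have hge : ge r (n + 1) = ge r n + r ^ n := by
      rw [ge, Finset.sum_range_succ, ge]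
    rw [hge]
    set Q := r ^ M with hQ
    obtain ⟨u, hu⟩ : ∃ u, Q = u + r ^ n := ⟨Q - r ^ n, by omega⟩
    have hu2 : Q - r ^ n = u := by omega
    rw [hu2]
    have h3 : Q * A ≤ Q * Q ^ n := Nat.mul_le_mul_left _ hAle
    have h4 : Q * A * r ^ n ≤ Q * Q ^ n * r ^ n := Nat.mul_le_mul_right _ h3
    have h5 : Q ^ (n + 1) * Q ≤ (Q * A + Q ^ n * ge r n) * Q := Nat.mul_le_mul_right _ h1
    have h6 : Q * A * Q = Q * A * u + Q * A * r ^ n := by
      rw [← mul_add, ← hu]
    calc Q ^ (n + 1 + 1) = Q ^ (n + 1) * Q := pow_succ _ _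
      _ ≤ (Q * A + Q ^ n * ge r n) * Q := h5
      _ = Q * A * Q + Q ^ n * ge r n * Q := by ring
      _ = Q * A * u + Q * A * r ^ n + Q ^ n * ge r n * Q := by rw [h6]
      _ ≤ Q * A * u + Q * Q ^ n * r ^ n + Q ^ n * ge r n * Q := by omega
      _ = Q * (A * u) + Q ^ (n + 1) * (ge r n + r ^ n) := by ring

/-- Existence of two subspaces, by the pigeonhole principle. -/
theorem exists_pair {h : ℕ} (hh : 1 ≤ h) (hM : h * h < finrank F L) :
    ∃ (V V' : Submodule F L) (b b' : ℕ → L), finrank F V = h ∧ finrank F V' = h ∧ b 0 = 1 ∧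
      b' 0 = 1 ∧ b 1 ≠ b' 1 ∧ (∀ i, 2 ≤ i → b i = b' i) ∧
      (∀ x, x ∈ V → ∑ i ∈ Finset.range (h + 1), b i * x ^ Fintype.card F ^ i = 0) ∧
      (∀ x, x ∈ V' → ∑ i ∈ Finset.range (h + 1), b' i * x ^ Fintype.card F ^ i = 0) := by
  classical
  set r := Fintype.card F with hr
  have hr1 : 1 < r := Fintype.one_lt_card
  set M := finrank F L with hMdef
  have hLc : Fintype.card L = r ^ M := Module.card_eq_pow_finrank (K := F) (V := L)
  have hhM : h ≤ M := by
    have : h * 1 ≤ h * h := Nat.mul_le_mul_left _ hh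
    omega
  have hchoose := fun s : {s : Fin h → L // LinearIndependent F s} =>
    exists_linearised h s.1 s.2
  choose b hb0 hbz hbs using hchoose
  by_contra hcon
  push Not at hcon
  -- the pigeonhole map
  set Φ : {s : Fin h → L // LinearIndependent F s} → (Fin (h - 1) → L) :=
    fun s i => b s (i.1 + 2) with hΦ
  have hspanrank : ∀ s : {s : Fin h → L // LinearIndependent F s},
      finrank F (Submodule.span F (Set.range s.1)) = h := by
    intro s
    rw [finrank_span_eq_card s.2, Fintype.card_fin]
  have hsame : ∀ s s' : {s : Fin h → L // LinearIndependent F s}, Φ s = Φ s' →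
      Submodule.span F (Set.range s.1) = Submodule.span F (Set.range s'.1) := by
    intro s s' hss
    have h2 : ∀ i, 2 ≤ i → b s i = b s' i := by
      intro i hi
      rcases Nat.lt_or_ge h i with h3 | h3
      · rw [hbz s i h3, hbz s' i h3]
      · have h4 := congrFun hss ⟨i - 2, by omega⟩
        simp only [hΦ] at h4
        have h5 : i - 2 + 2 = i := by omega
        rwa [h5] at h4
    have h1 : b s 1 = b s' 1 := by
      by_contra hne
      obtain ⟨x, hx, hx2⟩ := hcon (Submodule.span F (Set.range s.1))
        (Submodule.span F (Set.range s'.1)) (b s) (b s') (hspanrank s) (hspanrank s') (hb0 s)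
        (hb0 s') hne h2 (fun x hx => (hbs s x).1 hx)
      exact hx2 ((hbs s' x).1 hx)
    have hall : b s = b s' := by
      funext i
      rcases i with _ | _ | i
      · rw [hb0, hb0]
      · exact h1
      · exact h2 _ (by omega)
    ext x
    rw [hbs, hbs, hall]
  have hfib : ∀ y ∈ (Finset.univ : Finset {s : Fin h → L // LinearIndependent F s}).image Φ,
      ((Finset.univ : Finset {s : Fin h → L // LinearIndependent F s}).filter
        fun s => Φ s = y).card ≤ r ^ (h * h) := by
    intro y hy
    obtain ⟨s0, -, rfl⟩ := Finset.mem_image.1 hy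
    set V := Submodule.span F (Set.range s0.1) with hV
    have hVc : Fintype.card V = r ^ h := by
      rw [Module.card_eq_pow_finrank (K := F) (V := V), hV, hspanrank s0]
    have h1 : ((Finset.univ : Finset {s : Fin h → L // LinearIndependent F s}).filter
        fun s => Φ s = Φ s0).card ≤ Fintype.card (Fin h → V) := by
      rw [← Fintype.card_coe]
      refine Fintype.card_le_of_injective (fun s i => ⟨s.1.1 i, ?_⟩) ?_
      · have h2 := hsame s.1 s0 (Finset.mem_filter.1 s.2).2
        rw [hV, ← h2]
        exact Submodule.subset_span ⟨i, rfl⟩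
      · intro s s' hss
        apply Subtype.ext
        apply Subtype.ext
        funext i
        have h3 := congrFun hss i
        exact congrArg Subtype.val h3
    refine h1.trans ?_
    rw [Fintype.card_fun, hVc, Fintype.card_fin, ← pow_mul]
  have hmain := Finset.card_le_mul_card_image (f := Φ)
    (Finset.univ : Finset {s : Fin h → L // LinearIndependent F s}) (r ^ (h * h)) hfib
  have himg : ((Finset.univ : Finset {s : Fin h → L // LinearIndependent F s}).image Φ).card ≤
      (r ^ M) ^ (h - 1) := by
    refine (Finset.card_le_univ _).trans ?_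
    rw [Fintype.card_fun, hLc, Fintype.card_fin]
  have hcount := card_linearIndependent (K := F) (V := L) (k := h) hhM
  rw [Nat.card_eq_fintype_card, ← hr, ← hMdef] at hcount
  rw [Finset.card_univ, hcount, Fin.prod_univ_eq_prod_range (fun i => r ^ M - r ^ i) h]
    at hmain
  have hbern := prod_sub_ge hr1.le (M := M) h hhM
  have h1 : r ^ M * ∏ i ∈ Finset.range h, (r ^ M - r ^ i) ≤ (r ^ M) ^ h * r ^ (h * h) := by
    calc r ^ M * ∏ i ∈ Finset.range h, (r ^ M - r ^ i)
        ≤ r ^ M * (r ^ (h * h) * (r ^ M) ^ (h - 1)) :=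
          Nat.mul_le_mul_left _ (hmain.trans (Nat.mul_le_mul_left _ himg))
      _ = (r ^ M) ^ (h - 1 + 1) * r ^ (h * h) := by ring
      _ = _ := by rw [Nat.sub_add_cancel hh]
  have hpos : 0 < (r ^ M) ^ h := Nat.pow_pos (Nat.pow_pos (by omega))
  have h2 : r ^ M ≤ r ^ (h * h) + ge r h := by
    have h3 : (r ^ M) ^ h * r ^ M ≤ (r ^ M) ^ h * (r ^ (h * h) + ge r h) := by
      rw [mul_add]
      have h4 : (r ^ M) ^ (h + 1) = (r ^ M) ^ h * r ^ M := pow_succ _ _
      rw [h4] at hbern
      omega
    exact Nat.le_of_mul_le_mul_left h3 hpos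
  have h5 : ge r h < r ^ h := by
    have h6 := ge_mul hr1.le h
    have h7 : 1 * ge r h ≤ (r - 1) * ge r h := Nat.mul_le_mul_right _ (by omega)
    omega
  have h8 : r ^ h ≤ r ^ (h * h) := Nat.pow_le_pow_right (by omega) (Nat.le_mul_of_pos_left _ hh)
  have h9 : 2 * r ^ (h * h) ≤ r ^ (h * h + 1) := by
    rw [pow_succ, mul_comm]
    exact Nat.mul_le_mul_left _ hr1
  have h10 : r ^ (h * h + 1) ≤ r ^ M := Nat.pow_le_pow_right (by omega) hM
  omega

end

end Pool.Agent.Helper36.BCH
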