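import Pool.Agent.Helper36.BCH.Ops

/-!
# Subspaces of prescribed size and the families of balanced sets
-/

set_option linter.unusedSectionVars false

namespace Pool.Agent.Helper36.BCH

open Polynomial Module

theorem exists_submodule_finrank {F V : Type} [Field F] [AddCommGroup V] [Module F V]
    [FiniteDimensional F V] (U : Submodule F V) (k : ℕ) (h2 : finrank F U + k ≤ finrank F V) :
    ∃ W : Submodule F V, U ≤ W ∧ finrank F W = finrank F U + k := by
  induction k with
  | zero => exact ⟨U, le_refl U, rfl⟩
  | succ k ih =>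
    obtain ⟨W, hUW, hW⟩ := ih (by omega)
    have hne : W ≠ ⊤ := by
      rintro rfl
      rw [finrank_top] at hW
      omega
    obtain ⟨v, hv⟩ : ∃ v, v ∉ W := by
      by_contra h
      push Not at h
      exact hne (eq_top_iff.2 fun x _ => h x)
    have hv0 : v ≠ 0 := by
      rintro rfl
      exact hv W.zero_mem
    refine ⟨W ⊔ Submodule.span F {v}, hUW.trans le_sup_left, ?_⟩
    have h3 := Submodule.finrank_sup_add_finrank_inf_eq W (Submodule.span F {v})
    have h4 : W ⊓ Submodule.span F {v} = ⊥ := by
      rw [eq_bot_iff]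
      intro x hx
      obtain ⟨hxW, hxv⟩ := Submodule.mem_inf.1 hx
      obtain ⟨c, rfl⟩ := Submodule.mem_span_singleton.1 hxv
      by_cases hc : c = 0
      · simp [hc]
      · exfalso
        apply hv
        have := W.smul_mem c⁻¹ hxW
        rwa [smul_smul, inv_mul_cancel₀ hc, one_smul] at this
    rw [h4, finrank_bot, add_zero, finrank_span_singleton hv0, hW] at h3
    omega

variable {F K L : Type} [Field F] [Field K] [Field L] [Algebra F L] [Algebra K L]
  [Fintype F] [Fintype L] [DecidableEq L]

/-- Every subspace `U` lies in a subspace `W` of any prescribed size. -/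
theorem exists_sub (U : Submodule F L) (h : ℕ) (hh : finrank F U + h ≤ finrank F L) :
    ∃ W : Finset L, IsSub W ∧ (∀ x ∈ U, x ∈ W) ∧
      W.card * Fintype.card F ^ h = Fintype.card L ∧
      (∃ k : ℕ, W.card = Fintype.card F ^ k) ∧ ∀ z : F, ∀ w ∈ W, algebraMap F L z * w ∈ W := by
  classical
  obtain ⟨W, hUW, hW⟩ := exists_submodule_finrank U (finrank F L - h - finrank F U)
    (by omega)
  have hcard : (Finset.univ.filter fun x => x ∈ W).card = Fintype.card F ^ finrank F W := by
    rw [← Module.card_eq_pow_finrank (K := F) (V := W)]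
    rw [Fintype.card_of_subtype]
    intro x
    simp
  refine ⟨Finset.univ.filter fun x => x ∈ W, ⟨by simp, ?_⟩, ?_, ?_, ⟨finrank F W, hcard⟩, ?_⟩
  · intro a ha b hb
    simp only [Finset.mem_filter, Finset.mem_univ, true_and] at ha hb ⊢
    exact W.sub_mem ha hb
  · intro x hx
    simp only [Finset.mem_filter, Finset.mem_univ, true_and]
    exact hUW hx
  · rw [hcard, ← pow_add, Module.card_eq_pow_finrank (K := F) (V := L)]
    congr 1
    omega
  · intro z w hw
    simp only [Finset.mem_filter, Finset.mem_univ, true_and] at hw ⊢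
    rw [← Algebra.smul_def]
    exact W.smul_mem z hw

/-- The additive polynomial of an `F`-stable subgroup is `F`-linear. -/
theorem eval_ann_smul {W : Finset L} {k : ℕ} (hk : W.card = Fintype.card F ^ k)
    (hst : ∀ z : F, ∀ w ∈ W, algebraMap F L z * w ∈ W) (hW : IsSub W) (z : F) (t : L) :
    (ann W).eval (algebraMap F L z * t) = algebraMap F L z * (ann W).eval t := by
  by_cases hz : z = 0
  · rw [hz, map_zero, zero_mul, zero_mul, hW.eval_zero]
  · have hzL : algebraMap F L z ≠ 0 := by
      rw [Ne, map_eq_zero]
      exact hz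
    have h1 : (ann W).eval (algebraMap F L z * t) =
        ∏ w ∈ W, (algebraMap F L z * t - algebraMap F L z * w) := by
      rw [eval_ann]
      symm
      refine Finset.prod_bij' (fun w _ => algebraMap F L z * w)
        (fun w _ => algebraMap F L z⁻¹ * w) ?_ ?_ ?_ ?_ ?_
      · exact fun w hw => hst z w hw
      · exact fun w hw => hst z⁻¹ w hw
      · intro w _
        rw [map_inv₀, ← mul_assoc, inv_mul_cancel₀ hzL, one_mul]
      · intro w _
        rw [map_inv₀, ← mul_assoc, mul_inv_cancel₀ hzL, one_mul]
      · intro w _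
        rfl
    rw [h1]
    simp only [← mul_sub]
    rw [Finset.prod_mul_distrib, Finset.prod_const, hk, ← map_pow, FiniteField.pow_card_pow,
      eval_ann]

theorem img_stable {W : Finset L} {k : ℕ} (hk : W.card = Fintype.card F ^ k)
    (hst : ∀ z : F, ∀ w ∈ W, algebraMap F L z * w ∈ W) (hW : IsSub W) (z : F) {v : L}
    (hv : v ∈ img W) : algebraMap F L z * v ∈ img W := by
  obtain ⟨t, rfl⟩ := mem_img.1 hv
  exact mem_img.2 ⟨algebraMap F L z * t, eval_ann_smul hk hst hW z t⟩

end Pool.Agent.Helper36.BCH
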