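import Pool.Agent.Helper36.BCH.Family

/-!
# An upper bound for the minimum distance of all primitive BCH codes
-/

set_option linter.unusedSectionVars false

namespace Pool.Agent.Helper36.BCH

open Polynomial Module

section

variable {F K L : Type} [Field F] [Field K] [Field L] [Fintype F] [Fintype K] [Fintype L]
  [Algebra F K] [Algebra K L] [Algebra F L] [IsScalarTower F K L]

theorem dim_le_of_card_le {h : ℕ}
    (hc : Fintype.card K * Fintype.card F ^ h ≤ Fintype.card L) :
    finrank F K + h ≤ finrank F L := by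
  rw [Module.card_eq_pow_finrank (K := F) (V := K), Module.card_eq_pow_finrank (K := F) (V := L),
    ← pow_add] at hc
  exact (Nat.pow_le_pow_iff_right (Fintype.one_lt_card (α := F))).1 hc

theorem minDist_lt_mul {α : L} (hα : IsPrimitiveElement α) {δ d b h : ℕ}
    (hd : IsMinDist K α δ d) (hδ : 1 ≤ δ) (hb : b ≤ Fintype.card K)
    (hc : Fintype.card K * Fintype.card F ^ h ≤ Fintype.card L)
    (hN : δ + 1 ≤ b * Fintype.card F ^ h) : d + 1 ≤ b * Fintype.card F ^ h := by
  classical
  obtain ⟨A, -, hA⟩ := Finset.exists_subset_card_eq (s := (Finset.univ : Finset K)) (n := b)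
    (by rwa [Finset.card_univ])
  obtain ⟨V, -, -, -, -, hbal, hcard⟩ := exists_balanced_pre (F := F) (L := L) A h
    (Or.inr (dim_le_of_card_le hc))
  rw [hA] at hcard
  rw [← hcard] at hN ⊢
  exact hbal.minDist_lt hα hd hN (by omega)

theorem minDist_lt_family {α : L} (hα : IsPrimitiveElement α) {δ d a e h : ℕ}
    (hd : IsMinDist K α δ d) (hδ : 1 ≤ δ) (he : e ∣ Fintype.card F - 1)
    (ha : a * e ≤ Fintype.card K - 1)
    (hc : Fintype.card K * Fintype.card F ^ h ≤ Fintype.card L)
    (hN : δ ≤ a * Fintype.card F ^ h + (Fintype.card F ^ h - 1) / e) :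
    d ≤ a * Fintype.card F ^ h + (Fintype.card F ^ h - 1) / e := by
  classical
  obtain ⟨S, hS, hcard⟩ := exists_balanced_family (F := F) (K := K) (L := L) he ha
    (Or.inr (dim_le_of_card_le hc))
  have := hS.minDist_lt hα hd (by omega) (by omega)
  omega

end

variable {K L : Type} [Field K] [Field L] [Fintype K] [Fintype L] [Algebra K L]

theorem minDist_le_of_lt_card {α : L} (hα : IsPrimitiveElement α) {δ d : ℕ}
    (hd : IsMinDist K α δ d) (hδ : 1 ≤ δ) (hδ2 : δ < Fintype.card K) : d ≤ δ := by
  have h1 : Fintype.card K * Fintype.card K ^ 0 ≤ Fintype.card L := by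
    rw [pow_zero, mul_one]
    exact Fintype.card_le_of_injective _ (algebraMap K L).injective
  have h2 := minDist_lt_mul (F := K) hα hd hδ (b := δ + 1) (h := 0) (by omega) h1
    (by rw [pow_zero, mul_one])
  rw [pow_zero, mul_one] at h2
  omega

/-- The bound for `δ ≥ q`: `d ≤ (1 + p / q) δ - 1`. -/
theorem upper_char {α : L} (hα : IsPrimitiveElement α) {p s δ d : ℕ} (hp : p.Prime)
    (hK : Fintype.card K = p ^ s) (hd : IsMinDist K α δ d) (hδ : Fintype.card K ≤ δ)
    (hδL : δ < Fintype.card L) : Fintype.card K * (d + 1) ≤ (Fintype.card K + p) * δ := by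
  classical
  have hs : s ≠ 0 := by
    rintro rfl
    have := Fintype.one_lt_card (α := K)
    rw [hK, pow_zero] at this
    omega
  have : Fact p.Prime := ⟨hp⟩
  have hcharK : CharP K p := by
    obtain ⟨p', hp'⟩ := CharP.exists K
    obtain ⟨n, hp'prime, hn⟩ := FiniteField.card K p'
    have h1 : p' ∣ p ^ s := by
      rw [← hK, hn]
      exact dvd_pow_self _ n.ne_zero
    have h2 : p' = p := (Nat.prime_dvd_prime_iff_eq hp'prime hp).1 (hp'prime.dvd_of_dvd_pow h1)
    rwa [h2] at hp'
  have hcharL : CharP L p := charP_of_injective_algebraMap (algebraMap K L).injective p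
  let _ : Algebra (ZMod p) K := ZMod.algebra K p
  let _ : Algebra (ZMod p) L := ZMod.algebra L p
  have : IsScalarTower (ZMod p) K L := by
    refine IsScalarTower.of_algebraMap_eq' ?_
    exact RingHom.ext_zmod _ _
  have hcp : Fintype.card (ZMod p) = p := ZMod.card p
  have hp1 := hp.one_lt
  -- the size of `L`
  have hLcard : Fintype.card L = p ^ finrank (ZMod p) L := by
    have := Module.card_eq_pow_finrank (K := ZMod p) (V := L)
    rwa [hcp] at this
  have hKcard : finrank (ZMod p) K = s := by
    have := Module.card_eq_pow_finrank (K := ZMod p) (V := K)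
    rw [hcp, hK] at this
    exact (Nat.pow_right_injective hp1 this).symm
  set q := Fintype.card K with hq
  have hqpos : 0 < q := Fintype.card_pos
  -- minimal exponent
  have hex : ∃ e, δ + 1 ≤ q * p ^ e := by
    refine ⟨δ + 1, ?_⟩
    have h1 : δ + 1 < p ^ (δ + 1) := Nat.lt_pow_self hp1
    exact h1.le.trans (Nat.le_mul_of_pos_left _ hqpos)
  obtain ⟨e, he1, he2⟩ : ∃ e, δ + 1 ≤ q * p ^ e ∧ ∀ e' < e, q * p ^ e' < δ + 1 := by
    refine ⟨Nat.find hex, Nat.find_spec hex, ?_⟩
    intro e' he'
    have := Nat.find_min hex he'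
    omega
  have he0 : 1 ≤ e := by
    by_contra h
    have : e = 0 := by omega
    rw [this, pow_zero, mul_one] at he1
    omega
  have he3 : q * p ^ (e - 1) ≤ δ := by
    have := he2 (e - 1) (by omega)
    omega
  have hcardL : q * p ^ e ≤ Fintype.card L := by
    have h1 : q * p ^ (e - 1) < Fintype.card L := lt_of_le_of_lt he3 hδL
    rw [hLcard, hK, ← pow_add] at h1 ⊢
    have h2 := (Nat.pow_lt_pow_iff_right hp1).1 h1
    exact Nat.pow_le_pow_right (by omega) (by omega)
  -- the number of classes
  have hpe : 0 < p ^ e := Nat.pow_pos (by omega)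
  set b := δ / p ^ e + 1 with hb
  have hb1 : δ + 1 ≤ b * p ^ e := by
    rw [hb, mul_comm]
    exact Nat.lt_mul_div_succ δ hpe
  have hb2 : b ≤ q := by
    have h1 : δ / p ^ e < q := by
      rw [Nat.div_lt_iff_lt_mul hpe]
      omega
    omega
  have hb3 : b * p ^ e ≤ δ + p ^ e := by
    rw [hb, add_mul, one_mul]
    exact Nat.add_le_add_right (Nat.div_mul_le_self δ (p ^ e)) _
  have hmain := minDist_lt_mul (F := ZMod p) hα hd (by omega) (b := b) (h := e) hb2
    (by rw [hcp]; exact hcardL) (by rw [hcp]; exact hb1)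
  rw [hcp] at hmain
  have h4 : q * p ^ e ≤ p * δ := by
    have h5 : q * p ^ e = p * (q * p ^ (e - 1)) := by
      obtain ⟨e', rfl⟩ : ∃ e', e = e' + 1 := ⟨e - 1, by omega⟩
      rw [Nat.add_sub_cancel, pow_succ]
      ring
    rw [h5]
    exact Nat.mul_le_mul_left _ he3
  calc q * (d + 1) ≤ q * (δ + p ^ e) := Nat.mul_le_mul_left _ (hmain.trans hb3)
    _ = q * δ + q * p ^ e := by ring
    _ ≤ q * δ + p * δ := Nat.add_le_add_left h4 _
    _ = (q + p) * δ := by ring

/-- The bound `d ≤ (3 δ - 1) / 2` for `q ≥ 3`. -/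
theorem upper_three {α : L} (hα : IsPrimitiveElement α) {δ d : ℕ} (hq3 : 3 ≤ Fintype.card K)
    (hd : IsMinDist K α δ d) (hδ : 1 ≤ δ) (hδL : δ < Fintype.card L) : 2 * d + 1 ≤ 3 * δ := by
  classical
  by_cases hsmall : δ < Fintype.card K
  · have := minDist_le_of_lt_card hα hd hδ hsmall
    omega
  push Not at hsmall
  set q := Fintype.card K with hq
  by_cases hodd : q % 2 = 1
  · -- odd `q`
    have hq1 : 1 < q := by omega
    have hex : ∃ h, δ < q ^ (h + 1) :=
      ⟨δ, (Nat.lt_pow_self hq1).trans (Nat.pow_lt_pow_right hq1 (Nat.lt_succ_self δ))⟩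
    obtain ⟨h, hh1, hh2⟩ : ∃ h, δ < q ^ (h + 1) ∧ ∀ h' < h, q ^ (h' + 1) ≤ δ := by
      refine ⟨Nat.find hex, Nat.find_spec hex, ?_⟩
      intro h' hh'
      have := Nat.find_min hex hh'
      omega
    have hh0 : 1 ≤ h := by
      by_contra hc
      have : h = 0 := by omega
      rw [this, zero_add, pow_one] at hh1
      omega
    have hh3 : q ^ h ≤ δ := by
      have := hh2 (h - 1) (by omega)
      rwa [Nat.sub_add_cancel hh0] at this
    have hcL : q * q ^ h ≤ Fintype.card L := by
      have h1 : q ^ h < Fintype.card L := lt_of_le_of_lt hh3 hδL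
      have h2 : Fintype.card L = q ^ finrank K L := Module.card_eq_pow_finrank (K := K) (V := L)
      rw [h2] at h1 ⊢
      have h3 := (Nat.pow_lt_pow_iff_right hq1).1 h1
      rw [← pow_succ']
      exact Nat.pow_le_pow_right (by omega) (by omega)
    have hqh : 0 < q ^ h := Nat.pow_pos (by omega)
    have hqodd : q ^ h % 2 = 1 := by
      simp [Nat.pow_mod, hodd]
    by_cases hcase : 2 * (δ + 1) ≤ 3 * q ^ h + 1
    · have h1 := minDist_lt_family (F := K) hα hd hδ (a := 1) (e := 2) (h := h)
        (by rw [← hq]; omega) (by rw [← hq]; omega) (by rw [← hq]; exact hcL)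
        (by rw [← hq]; omega)
      rw [← hq] at h1
      omega
    · push Not at hcase
      set b := δ / q ^ h + 1 with hb
      have hb1 : δ + 1 ≤ b * q ^ h := by
        rw [hb, mul_comm]
        exact Nat.lt_mul_div_succ δ hqh
      have hb2 : b ≤ q := by
        have h1 : δ / q ^ h < q := by
          rw [Nat.div_lt_iff_lt_mul hqh, ← pow_succ']
          exact hh1
        omega
      have hb3 : (b - 1) * q ^ h ≤ δ := by
        rw [hb, Nat.add_sub_cancel]
        exact Nat.div_mul_le_self δ (q ^ h)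
      have hb4 : 2 ≤ b := by
        by_contra hc
        have : b ≤ 1 := by omega
        have h1 : b * q ^ h ≤ 1 * q ^ h := Nat.mul_le_mul_right _ this
        omega
      have hmain := minDist_lt_mul (F := K) hα hd hδ (b := b) (h := h) hb2
        (by rw [← hq]; exact hcL) (by rw [← hq]; exact hb1)
      rw [← hq] at hmain
      by_cases hb5 : b = 2
      · rw [hb5] at hmain
        omega
      · have h5 : 2 * b ≤ 3 * (b - 1) := by omega
        have h6 : 2 * (b * q ^ h) ≤ 3 * ((b - 1) * q ^ h) := by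
          calc 2 * (b * q ^ h) = 2 * b * q ^ h := by ring
            _ ≤ 3 * (b - 1) * q ^ h := Nat.mul_le_mul_right _ h5
            _ = 3 * ((b - 1) * q ^ h) := by ring
        omega
  · -- even `q`
    obtain ⟨p, hp⟩ := CharP.exists K
    obtain ⟨n, hpp, hn⟩ := FiniteField.card K p
    have hp2 : p = 2 := by
      have h1 : 2 ∣ p ^ (n : ℕ) := by
        rw [← hn]
        omega
      exact ((Nat.prime_dvd_prime_iff_eq Nat.prime_two hpp).1
        (Nat.prime_two.dvd_of_dvd_pow h1)).symm
    have h1 := upper_char hα Nat.prime_two (s := n) (by rw [hn, hp2]) hd hsmall hδL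
    rw [← hq] at h1
    have hq4 : 4 ≤ q := by omega
    have h2 : 2 * (q * (d + 1)) ≤ 3 * (q * δ) := by nlinarith
    have h3 : q * (2 * (d + 1)) ≤ q * (3 * δ) := by
      calc q * (2 * (d + 1)) = 2 * (q * (d + 1)) := by ring
        _ ≤ 3 * (q * δ) := h2
        _ = q * (3 * δ) := by ring
    have h4 := Nat.le_of_mul_le_mul_left h3 (by omega : 0 < q)
    omega

end Pool.Agent.Helper36.BCH
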